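import Pool.Agent.Helper30.FG.Defs

/-!
[PA-Limit] Compactness: along an ultrafilter on `ℕ` a sequence of functions with
`‖g n z‖ ≤ M exp (a |Im z|)` converges pointwise, and the limit is again such a function: the `g n` are
uniformly Lipschitz near every point (Cauchy estimates), so the convergence is locally uniform.
-/

set_option autoImplicit false

namespace Helper22.PA

open Complex MeasureTheory Set Filter Topology
open Pool.Agent.Helper30.FG

private lemma lipschitz_near {a M : ℝ} (ha : 0 ≤ a) {g : ℂ → ℂ} (hg : IsB a M g) (x : ℂ) {y : ℂ}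
    (hy : ‖y - x‖ ≤ 1) : ‖g y - g x‖ ≤ M * Real.exp (a * (|x.im| + 2)) * ‖y - x‖ := by
  have hM := hg.nonneg
  have hder : ∀ w ∈ Metric.closedBall x 1, ‖deriv g w‖ ≤ M * Real.exp (a * (|x.im| + 2)) := by
    intro w hw
    have hw' : ‖w - x‖ ≤ 1 := by simpa [dist_eq_norm] using hw
    have h1 := Complex.norm_deriv_le_of_forall_mem_sphere_norm_le (c := w) (R := 1)
      (C := M * Real.exp (a * (|x.im| + 2))) (f := g) one_pos hg.diff.diffContOnCl (by
        intro v hv
        have hv' : ‖v - w‖ = 1 := by simpa [dist_eq_norm] using hv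
        refine (hg.bd v).trans (mul_le_mul_of_nonneg_left (Real.exp_le_exp.2
          (mul_le_mul_of_nonneg_left ?_ ha)) hM)
        have h2 : |v.im - x.im| ≤ 2 := by
          have h3 : |(v - x).im| ≤ ‖v - x‖ := Complex.abs_im_le_norm _
          have h4 : ‖v - x‖ ≤ ‖v - w‖ + ‖w - x‖ := by
            have := norm_add_le (v - w) (w - x)
            rwa [sub_add_sub_cancel] at this
          rw [Complex.sub_im] at h3
          linarith
        have h5 : |v.im| ≤ |v.im - x.im| + |x.im| := by
          have := abs_add_le (v.im - x.im) x.im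
          rwa [sub_add_cancel] at this
        linarith)
    simpa using h1
  have := (convex_closedBall x 1).norm_image_sub_le_of_norm_deriv_le
    (fun w _ => hg.diff w) hder (Metric.mem_closedBall_self zero_le_one)
    (show y ∈ Metric.closedBall x 1 by simpa [dist_eq_norm] using hy)
  exact this

theorem isB_limit {a M : ℝ} (ha : 0 ≤ a) {g : ℕ → ℂ → ℂ} (hg : ∀ n, IsB a M (g n))
    (U : Ultrafilter ℕ) :
    ∃ G : ℂ → ℂ, IsB a M G ∧ ∀ z, Tendsto (fun n => g n z) U (𝓝 (G z)) := by
  have hM : 0 ≤ M := (hg 0).nonneg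
  have hex : ∀ z, ∃ L : ℂ, Tendsto (fun n => g n z) U (𝓝 L) := by
    intro z
    have hK : IsCompact (Metric.closedBall (0:ℂ) (M * Real.exp (a * |z.im|))) :=
      isCompact_closedBall _ _
    have hU : ((U.map (fun n => g n z) : Ultrafilter ℂ) : Filter ℂ) ≤
        𝓟 (Metric.closedBall (0:ℂ) (M * Real.exp (a * |z.im|))) := by
      rw [Ultrafilter.coe_map, le_principal_iff, mem_map]
      exact univ_mem' fun n => by simpa using (hg n).bd z
    obtain ⟨L, _, hL⟩ := hK.ultrafilter_le_nhds _ hU
    exact ⟨L, hL⟩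
  choose G hG using hex
  have hlipG : ∀ x y : ℂ, ‖y - x‖ ≤ 1 →
      ‖G y - G x‖ ≤ M * Real.exp (a * (|x.im| + 2)) * ‖y - x‖ := by
    intro x y hy
    refine le_of_tendsto (((hG y).sub (hG x)).norm) (Eventually.of_forall fun n => ?_)
    exact lipschitz_near ha (hg n) x hy
  have hloc : TendstoLocallyUniformlyOn g G (U : Filter ℕ) univ := by
    rw [Metric.tendstoLocallyUniformlyOn_iff]
    intro ε hε x _
    set K : ℝ := M * Real.exp (a * (|x.im| + 2)) with hK
    have hK0 : 0 ≤ K := by positivity
    set δ : ℝ := min 1 (ε / (3 * (K + 1))) with hδ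
    have hδ0 : 0 < δ := lt_min one_pos (by positivity)
    refine ⟨Metric.ball x δ, by rw [nhdsWithin_univ]; exact Metric.ball_mem_nhds x hδ0, ?_⟩
    have hev : ∀ᶠ n in (U : Filter ℕ), dist (g n x) (G x) < ε / 3 :=
      (Metric.tendsto_nhds.1 (hG x)) (ε / 3) (by positivity)
    filter_upwards [hev] with n hn y hy
    have hy1 : ‖y - x‖ < δ := by simpa [dist_eq_norm] using hy
    have hy2 : ‖y - x‖ ≤ 1 := hy1.le.trans (min_le_left _ _)
    have hy3 : ‖y - x‖ ≤ ε / (3 * (K + 1)) := hy1.le.trans (min_le_right _ _)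
    have h1 := hlipG x y hy2
    have h2 := lipschitz_near ha (hg n) x hy2
    have h3 : K * ‖y - x‖ ≤ ε / 3 := by
      have h4 : (K + 1) * ‖y - x‖ ≤ ε / 3 := by
        calc (K + 1) * ‖y - x‖ ≤ (K + 1) * (ε / (3 * (K + 1))) :=
              mul_le_mul_of_nonneg_left hy3 (by positivity)
          _ = ε / 3 := by field_simp
      nlinarith [norm_nonneg (y - x)]
    rw [← hK] at h1 h2
    have hn' : ‖g n x - G x‖ < ε / 3 := by simpa [dist_eq_norm] using hn
    rw [dist_eq_norm]
    have h5 : G y - g n y = (G y - G x) + (G x - g n x) + (g n x - g n y) := by ring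
    rw [h5]
    have h6 := norm_add₃_le (a := G y - G x) (b := G x - g n x) (c := g n x - g n y)
    have h7 : ‖G x - g n x‖ = ‖g n x - G x‖ := norm_sub_rev _ _
    have h8 : ‖g n x - g n y‖ = ‖g n y - g n x‖ := norm_sub_rev _ _
    linarith
  refine ⟨G, ⟨?_, ?_⟩, hG⟩
  · rw [← differentiableOn_univ]
    exact hloc.differentiableOn (Eventually.of_forall fun n => (hg n).diff.differentiableOn)
      isOpen_univ
  · intro z
    exact le_of_tendsto (hG z).norm (Eventually.of_forall fun n => (hg n).bd z)

end Helper22.PA
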