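import Pool.Agent.Helper22.PA.LevPoly
import Pool.Agent.Helper22.PA.Limit
import Pool.Agent.Helper30.FG.Factor

/-!
[PA-FactorLimit] `1 - f = 2 (a² + v²)`.

isB_limit is in `PA/Limit.lean`, factor_poly in `Helper30/FG/Factor.lean`.
exists_factor: apply factor_poly to `levitan_poly` (values on `[-1,1]`: `x = cos θ`, `z = 2mθ`) and
pass to the limit along a free ultrafilter (`Filter.hyperfilter ℕ`).
-/

set_option autoImplicit false

namespace Helper22.PA

open Complex MeasureTheory Set Filter Topology Polynomial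
open Pool.Agent.Helper30.FG

theorem exists_factor {f : ℂ → ℂ} (hf : IsE 1 1 f) :
    ∃ a v : ℂ → ℂ, IsE (1 / 2) 1 a ∧ IsB (1 / 2) 1 v ∧ (∀ z, v (-z) = -v z) ∧
      (∀ x : ℝ, (v (x : ℂ)).im = 0) ∧ ∀ z : ℂ, 1 - f z = 2 * (a z ^ 2 + v z ^ 2) := by
  obtain ⟨m, p, h1, h2⟩ := levitan_poly hf
  have hp : ∀ n, ∀ x ∈ Icc (-1 : ℝ) 1, |(p n).eval x| ≤ 1 := by
    intro n x hx
    obtain ⟨hm, -, hE⟩ := h1 n
    have hb := hE.b.real_le (((2 * m n : ℕ) : ℝ) * Real.arccos x)
    have hm0 : (((2 * m n : ℕ) : ℝ) : ℂ) ≠ 0 := by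
      have : ((2 * m n : ℕ) : ℝ) ≠ 0 := by positivity
      exact_mod_cast this
    have e1 : ((((2 * m n : ℕ) : ℝ) * Real.arccos x : ℝ) : ℂ) / ((2 * m n : ℕ) : ℂ) =
        ((Real.arccos x : ℝ) : ℂ) := by
      rw [Complex.ofReal_mul, Complex.ofReal_natCast]
      rw [Complex.ofReal_natCast] at hm0
      field_simp
    rw [e1, ← Complex.ofReal_cos, Real.cos_arccos hx.1 hx.2] at hb
    have e2 : aeval ((x : ℝ) : ℂ) (p n) = (((p n).eval x : ℝ) : ℂ) := by
      have := aeval_algebraMap_apply ℂ x (p n)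
      simpa using this
    rw [e2, Complex.norm_real, Real.norm_eq_abs] at hb
    exact hb
  choose a v ha hv hodd hvr hfac using fun n => factor_poly (h1 n).1 (h1 n).2.1 (hp n)
  have hhalf : (0 : ℝ) ≤ 1 / 2 := by norm_num
  obtain ⟨A, hA, hAl⟩ := isB_limit hhalf (fun n => (ha n).b) (hyperfilter ℕ)
  obtain ⟨V, hV, hVl⟩ := isB_limit hhalf hv (hyperfilter ℕ)
  refine ⟨A, V, ⟨hA, fun z => ?_, fun x => ?_⟩, hV, fun z => ?_, fun x => ?_, fun z => ?_⟩
  · refine tendsto_nhds_unique (hAl (-z)) ?_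
    have := hAl z
    refine this.congr fun n => ?_
    rw [(ha n).even]
  · have h3 := (Complex.continuous_im.tendsto _).comp (hAl (x : ℂ))
    refine tendsto_nhds_unique h3 ?_
    refine tendsto_const_nhds.congr fun n => ?_
    simp only [Function.comp_apply, (ha n).real x]
  · refine tendsto_nhds_unique (hVl (-z)) ?_
    have := (hVl z).neg
    refine this.congr fun n => ?_
    rw [hodd n]
  · have h3 := (Complex.continuous_im.tendsto _).comp (hVl (x : ℂ))
    refine tendsto_nhds_unique h3 ?_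
    refine tendsto_const_nhds.congr fun n => ?_
    simp only [Function.comp_apply, hvr n x]
  · have h3 : Tendsto (fun n => aeval (Complex.cos (z / ((2 * m n : ℕ) : ℂ))) (p n))
        (hyperfilter ℕ : Filter ℕ) (𝓝 (f z)) :=
      ((tendstoLocallyUniformlyOn_univ.2 h2).tendsto_at (mem_univ z)).mono_left
        (Nat.hyperfilter_le_atTop)
    have h4 := h3.const_sub 1
    have h5 := ((((hAl z).pow 2).add ((hVl z).pow 2)).const_mul 2)
    refine tendsto_nhds_unique h4 (h5.congr fun n => ?_)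
    exact (hfac n z).symm

end Helper22.PA
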