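import Pool.Agent.Helper22.PA.Unique
import Pool.Agent.Helper22.PA.FactorLimit
import Pool.Agent.Helper30.FG.D4

/-!
[PA-BallUnique] The extremal function of the unit ball (even case) is unique: `f = 1 - 2 s²`.
-/

set_option autoImplicit false

namespace Helper22.PA

open Complex MeasureTheory Set Filter Topology
open Pool.Agent.Helper30.FG Pool.Agent.Helper78.Bern Pool.Agent.Helper45.Bern

/-- a maximiser has `J > 1` -/
theorem J_ne_one {α : ℝ} (h0 : 0 < α) (h1 : α < 1) {s : ℂ → ℂ}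
    (hmax : ∀ s' : ℂ → ℂ, IsE (1 / 2) 1 s' → J α s' ≤ J α s) : J α s ≠ 1 := by
  intro hJ
  obtain ⟨C, hC, hHG⟩ := HG_const (α := α) h0 h1 0
  have hz : IsE (1 / 2) 1 (fun _ : ℂ => (0 : ℂ)) := by
    refine ⟨⟨differentiable_const _, fun z => ?_⟩, fun _ => rfl, fun x => rfl⟩
    rw [norm_zero]
    positivity
  obtain ⟨s', hs', hlt⟩ := competitor h0 h1 hz hC (fun K => ⟨max K 1, le_max_left _ _,
    hHG _ (le_max_right _ _)⟩)
  have h2 : J α (fun _ : ℂ => (0 : ℂ)) = 1 := J_of_zero fun _ => rfl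
  have h3 := hmax s' hs'
  linarith

theorem Lf_mul_star {α : ℝ} {v : ℂ → ℂ} (hvr : ∀ x : ℝ, (v (x : ℂ)).im = 0) :
    Lf α (fun z => v z * (starRingEnd ℂ) (v ((starRingEnd ℂ) z))) = Lf α (fun z => v z ^ 2) := by
  unfold Lf
  congr 1
  funext k
  simp only [Complex.conj_ofReal]
  have h1 : v ((wf k : ℝ) : ℂ) = (((v ((wf k : ℝ) : ℂ)).re : ℝ) : ℂ) :=
    Complex.ext (by simp) (by simpa using hvr (wf k))
  rw [h1, Complex.conj_ofReal, sq]

theorem ball_unique {α : ℝ} (h0 : 0 < α) (h1 : α < 1) {s : ℂ → ℂ} (hs : IsE (1 / 2) 1 s)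
    (hmax : ∀ s' : ℂ → ℂ, IsE (1 / 2) 1 s' → J α s' ≤ J α s) {f : ℂ → ℂ} (hf : IsE 1 1 f)
    (hL : Lf α f = bernsteinNorm α) : ∀ z, f z = 1 - 2 * s z ^ 2 := by
  obtain ⟨a, v, ha, hv, hodd, hvr, hfac⟩ := exists_factor hf
  obtain ⟨hEa, hJa⟩ := J_eq (α := α) h0 h1 ha
  obtain ⟨hEs, hJs⟩ := J_eq (α := α) h0 h1 hs
  have hsI : J α s ≤ bernsteinNorm α := by
    rw [← hJs]
    exact Lf_le h0 h1 hEs
  have hv2 : ∀ x : ℝ, ‖((-2 : ℝ) : ℂ) * v (x : ℂ) ^ 2‖ ≤ 2 := by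
    intro x
    have h2 := hv.real_le x
    rw [norm_mul, norm_pow, Complex.norm_real]
    have h3 : ‖v (x : ℂ)‖ ^ 2 ≤ 1 := pow_le_one₀ (norm_nonneg _) h2
    have h4 : ‖(-2 : ℝ)‖ = 2 := by norm_num
    rw [h4]
    linarith
  have hfe : f = fun z => (fun z => 1 - 2 * a z ^ 2) z + (fun z => ((-2 : ℝ) : ℂ) * v z ^ 2) z := by
    funext z
    have := hfac z
    push_cast
    linear_combination -this
  have hsplit : Lf α f = J α a + -2 * Lf α (fun z => v z ^ 2) := by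
    rw [hfe, Lf_add h0 h1 (fun x => hEa.b.real_le x) hv2, hJa, Lf_const_mul]
  have hnon : Lf α (fun z => v z ^ 2) ≤ 0 := by
    have h2 := hmax a ha
    linarith
  have hv0 : ∀ z, v z = 0 := by
    by_contra hcon
    push Not at hcon
    have h2 := odd_pos_strict h0 h1 hv hodd hcon
    rw [Lf_mul_star hvr] at h2
    linarith
  have hLv : Lf α (fun z => v z ^ 2) = 0 := by
    unfold Lf
    simp [hv0]
  have hJaI : J α a = bernsteinNorm α := by
    rw [hLv] at hsplit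
    linarith
  have hmaxa : ∀ s' : ℂ → ℂ, IsE (1 / 2) 1 s' → J α s' ≤ J α a := fun s' hs' =>
    (hmax s' hs').trans (hsI.trans hJaI.ge)
  have huniq := unique_max h0 h1 ha hmaxa hs hmax (J_ne_one h0 h1 hmaxa)
  intro z
  have hsq : a z ^ 2 = s z ^ 2 := by
    rcases huniq with h | h
    · rw [h z]
    · rw [h z]
      ring
  have := hfac z
  rw [hv0 z, hsq] at this
  linear_combination -this

end Helper22.PA
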