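import Mathlib

/-! Module PA (helper22): finite zero sets, division by finitely many zeros. -/

open Complex Filter Topology Metric Set

namespace Helper22.PA

lemma analyticOnNhd_of_entire {F : ℂ → ℂ} (hF : Differentiable ℂ F) : AnalyticOnNhd ℂ F univ :=
  hF.differentiableOn.analyticOnNhd isOpen_univ

lemma finite_zeros {F : ℂ → ℂ} (hF : Differentiable ℂ F) {z₀ : ℂ} (h0 : F z₀ ≠ 0) (r : ℝ) :
    {z : ℂ | F z = 0 ∧ ‖z‖ ≤ r}.Finite := by
  by_contra hinf
  have hinf' : {z : ℂ | F z = 0 ∧ ‖z‖ ≤ r}.Infinite := hinf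
  obtain ⟨x, hx, hacc⟩ := hinf'.exists_accPt_of_subset_isCompact (isCompact_closedBall (0:ℂ) r)
    (by
      intro z hz
      simpa using hz.2)
  have han := analyticOnNhd_of_entire hF
  have hfreq : ∃ᶠ z in 𝓝[≠] x, F z = 0 := by
    rw [accPt_iff_frequently_nhdsNE] at hacc
    exact hacc.mono fun z hz => hz.1
  have := han.eqOn_zero_of_preconnected_of_frequently_eq_zero isPreconnected_univ (mem_univ x) hfreq
  exact h0 (this (mem_univ z₀))

/-- The finite set of the zeros of `F` in the closed disc of radius `r`. -/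
noncomputable def Z (F : ℂ → ℂ) (r : ℝ) : Finset ℂ :=
  open Classical in
  if h : {z : ℂ | F z = 0 ∧ ‖z‖ ≤ r}.Finite then h.toFinset else ∅

lemma mem_Z {F : ℂ → ℂ} (hF : Differentiable ℂ F) {z₀ : ℂ} (h0 : F z₀ ≠ 0) {r : ℝ} {z : ℂ} :
    z ∈ Z F r ↔ F z = 0 ∧ ‖z‖ ≤ r := by
  unfold Z
  rw [dif_pos (finite_zeros hF h0 r)]
  simp

lemma differentiable_dslope {h : ℂ → ℂ} (hh : Differentiable ℂ h) (y : ℂ) :
    Differentiable ℂ (dslope h y) := by
  rw [← differentiableOn_univ]
  exact (Complex.differentiableOn_dslope univ_mem).2 hh.differentiableOn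

lemma factor_one {h : ℂ → ℂ} {y : ℂ} (hy : h y = 0) (z : ℂ) :
    h z = (z - y) * dslope h y z := by
  have := sub_smul_dslope h y z
  rw [hy, sub_zero, smul_eq_mul] at this
  exact this.symm

lemma factor_finset {F : ℂ → ℂ} (hF : Differentiable ℂ F) (T : Finset ℂ)
    (hT : ∀ x ∈ T, F x = 0 ∧ x ≠ 0) :
    ∃ h : ℂ → ℂ, Differentiable ℂ h ∧ ∀ z, F z = (∏ x ∈ T, (1 - z / x)) * h z := by
  classical
  induction T using Finset.induction_on with
  | empty => exact ⟨F, hF, fun z => by simp⟩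
  | insert y T hy ih =>
    obtain ⟨h, hh, hfac⟩ := ih (fun x hx => hT x (Finset.mem_insert_of_mem hx))
    have hy0 := (hT y (Finset.mem_insert_self y T)).2
    have hhy : h y = 0 := by
      have h1 := hfac y
      rw [(hT y (Finset.mem_insert_self y T)).1] at h1
      have h2 : (∏ x ∈ T, (1 - y / x)) ≠ 0 := by
        rw [Finset.prod_ne_zero_iff]
        intro x hx h3
        have hx0 := (hT x (Finset.mem_insert_of_mem hx)).2
        have h4 : y / x = 1 := (sub_eq_zero.1 h3).symm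
        have h5 : y = x := (div_eq_one_iff_eq hx0).1 h4
        exact hy (h5 ▸ hx)
      rcases mul_eq_zero.1 h1.symm with h3 | h3
      · exact absurd h3 h2
      · exact h3
    refine ⟨fun z => -y * dslope h y z, (differentiable_dslope hh y).const_mul _, ?_⟩
    intro z
    rw [hfac z, Finset.prod_insert hy, factor_one hhy z]
    field_simp
    ring

/-- Data of an even entire function of exponential type with real simple zeros. -/
structure EvenRR (F : ℂ → ℂ) (B A : ℝ) : Prop where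
  diff : Differentiable ℂ F
  even : ∀ z, F (-z) = F z
  bound : ∀ z, ‖F z‖ ≤ B * Real.exp (A * ‖z‖)
  apos : 0 ≤ A
  nz : F 0 ≠ 0
  real : ∀ z, F z = 0 → z.im = 0
  simple : ∀ z, F z = 0 → deriv F z ≠ 0

variable {F : ℂ → ℂ} {B A : ℝ}

lemma EvenRR.zero_ne (h : EvenRR F B A) {x : ℂ} (hx : F x = 0) : x ≠ 0 := by
  rintro rfl
  exact h.nz hx

lemma EvenRR.bpos (h : EvenRR F B A) : 0 < B := by
  have h1 := h.bound 0
  have h2 : 0 < ‖F 0‖ := norm_pos_iff.2 h.nz
  simp at h1
  linarith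

lemma EvenRR.mem_Z (h : EvenRR F B A) {r : ℝ} {z : ℂ} : z ∈ Z F r ↔ F z = 0 ∧ ‖z‖ ≤ r :=
  PA.mem_Z h.diff h.nz

/-- The finite product over the zeros of modulus at most `r`. -/
noncomputable def Pr (F : ℂ → ℂ) (r : ℝ) (z : ℂ) : ℂ := ∏ x ∈ Z F r, (1 - z / x)

lemma differentiable_Pr (F : ℂ → ℂ) (r : ℝ) : Differentiable ℂ (Pr F r) := by
  unfold Pr
  fun_prop

lemma Pr_zero (F : ℂ → ℂ) (r : ℝ) : Pr F r 0 = 1 := by simp [Pr]

lemma EvenRR.Pr_even (h : EvenRR F B A) (r : ℝ) (z : ℂ) : Pr F r (-z) = Pr F r z := by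
  unfold Pr
  refine Finset.prod_bij (fun x _ => -x) ?_ ?_ ?_ ?_
  · intro x hx
    rw [h.mem_Z] at hx ⊢
    exact ⟨by rw [h.even]; exact hx.1, by rw [norm_neg]; exact hx.2⟩
  · intro a _ b _ hab
    exact neg_injective hab
  · intro b hb
    refine ⟨-b, ?_, by simp⟩
    rw [h.mem_Z] at hb ⊢
    exact ⟨by rw [h.even]; exact hb.1, by rw [norm_neg]; exact hb.2⟩
  · intro x hx
    rw [neg_div, div_neg]

lemma EvenRR.Pr_ne (h : EvenRR F B A) {r : ℝ} {z : ℂ} (hz : F z ≠ 0) : Pr F r z ≠ 0 := by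
  unfold Pr
  rw [Finset.prod_ne_zero_iff]
  intro x hx h3
  rw [h.mem_Z] at hx
  have hx0 := h.zero_ne hx.1
  have h4 : z / x = 1 := (sub_eq_zero.1 h3).symm
  have h5 : z = x := (div_eq_one_iff_eq hx0).1 h4
  exact hz (h5 ▸ hx.1)

lemma one_le_prod_real {ι : Type*} (s : Finset ι) (f : ι → ℝ) (h : ∀ i ∈ s, 1 ≤ f i) :
    1 ≤ ∏ i ∈ s, f i :=
  Finset.prod_induction _ (fun x => 1 ≤ x) (fun _ _ ha hb => one_le_mul_of_one_le_of_one_le ha hb)
    le_rfl h

/-- The quotient by the finite product. -/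
lemma EvenRR.exists_quot (h : EvenRR F B A) {r : ℝ} (hr : 0 < r) :
    ∃ q : ℂ → ℂ, Differentiable ℂ q ∧ (∀ z, F z = Pr F r z * q z) ∧ (∀ z, q (-z) = q z) ∧
      (∀ z, ‖z‖ ≤ r → q z ≠ 0) ∧ (∀ z, ‖z‖ ≤ 2 * r → ‖q z‖ ≤ B * Real.exp (A * (2 * r))) ∧
      q 0 = F 0 := by
  obtain ⟨q, hq, hfac⟩ := factor_finset h.diff (Z F r) (fun x hx => by
    rw [h.mem_Z] at hx
    exact ⟨hx.1, h.zero_ne hx.1⟩)
  have hfac' : ∀ z, F z = Pr F r z * q z := hfac
  refine ⟨q, hq, hfac', ?_, ?_, ?_, ?_⟩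
  · -- even
    have hfin : (Z F r : Set ℂ).Countable := (Z F r).countable_toSet
    have hd : Dense ((Z F r : Set ℂ)ᶜ) := hfin.dense_compl ℂ
    have hcont1 : Continuous (fun z => q (-z)) := hq.continuous.comp continuous_neg
    have := Continuous.ext_on hd hcont1 hq.continuous (by
      intro z hz
      have hz' : Pr F r z ≠ 0 := by
        unfold Pr
        rw [Finset.prod_ne_zero_iff]
        intro x hx h3
        have hx0 : x ≠ 0 := h.zero_ne (h.mem_Z.1 hx).1
        have h4 : z / x = 1 := (sub_eq_zero.1 h3).symm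
        have h5 : z = x := (div_eq_one_iff_eq hx0).1 h4
        exact hz (h5 ▸ hx)
      have h1 := hfac' z
      have h2 := hfac' (-z)
      rw [h.Pr_even, h.even, h1] at h2
      exact (mul_left_cancel₀ hz' h2).symm)
    exact fun z => congrFun this z
  · intro z hz hqz
    have hFz : F z = 0 := by rw [hfac' z, hqz, mul_zero]
    have hPz : Pr F r z = 0 := by
      unfold Pr
      apply Finset.prod_eq_zero (h.mem_Z.2 ⟨hFz, hz⟩)
      rw [div_self (h.zero_ne hFz), sub_self]
    apply h.simple z hFz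
    have h1 : F = fun w => Pr F r w * q w := funext hfac'
    rw [h1]
    have h2 := ((differentiable_Pr F r z).hasDerivAt.mul (hq z).hasDerivAt).deriv
    have h3 : deriv (fun w => Pr F r w * q w) z = deriv (Pr F r) z * q z + Pr F r z * deriv q z := h2
    rw [h3, hqz, hPz]
    simp
  · -- bound by the maximum principle
    intro z hz
    have hb : Bornology.IsBounded (ball (0:ℂ) (2 * r)) := isBounded_ball
    refine Complex.norm_le_of_forall_mem_frontier_norm_le hb hq.diffContOnCl ?_ ?_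
    · intro w hw
      rw [frontier_ball _ (by positivity : (2 * r) ≠ 0)] at hw
      have hwn : ‖w‖ = 2 * r := by simpa using hw
      have h1 : 1 ≤ ‖Pr F r w‖ := by
        unfold Pr
        rw [norm_prod]
        refine one_le_prod_real _ _ fun x hx => ?_
        rw [h.mem_Z] at hx
        have hx0 : x ≠ 0 := h.zero_ne hx.1
        have hxp : 0 < ‖x‖ := norm_pos_iff.2 hx0
        have h5 : 2 ≤ ‖w / x‖ := by
          rw [norm_div, hwn, le_div_iff₀ hxp]
          nlinarith [hx.2]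
        have h6 : ‖w / x‖ ≤ ‖1 - w / x‖ + 1 := by
          have := norm_sub_norm_le (w / x) 1
          rw [norm_one] at this
          have h7 : ‖w / x - 1‖ = ‖1 - w / x‖ := norm_sub_rev _ _
          linarith
        linarith
      have h2 := h.bound w
      rw [hfac' w, norm_mul, hwn] at h2
      have h3 : 0 ≤ ‖q w‖ := norm_nonneg _
      nlinarith
    · rw [closure_ball _ (by positivity : (2 * r) ≠ 0)]
      simpa using hz
  · have := hfac' 0
    rw [Pr_zero, one_mul] at this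
    exact this.symm

end Helper22.PA
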