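import Pool.Agent.Helper22.PA.Good

/-!
[PA-Bound] Polynomial bound of `R` on the squares with half side `r = x` (the good abscissas).
Available: `EvenRR.norm_mono` (`‖s x‖ ≤ ‖s (x + y I)‖`), `EvenRR.norm_ge` (with `z = x + y I`,
`|x| ≤ |y|`: `‖s z‖ ≥ ‖s 0‖`: since `Re z² ≤ 0` and `a` real, `‖1 - z²/a²‖ ≥ 1`), `EvenRR.norm_div_le`,
`EvenRR.deriv_odd`, `second_bound`, evenness.
Let `η = c/(2 C r⁴)` (`C ≥ c` from second_bound, so `η ≤ 1`). Vertical sides `re z = ± r`: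
`|im z| ≤ η`: `‖s' z‖ ≥ c/r⁴ - C η = c/(2r⁴)` and `‖1 - s²‖ ≤ 1 + C²`; `|im z| ≥ η`: `‖s z‖ ≥ 1/2`,
`‖R z‖ = ‖1 - s²‖ ‖P‖²/‖s'‖² = ‖1/s² - 1‖ ‖s/s'‖² ‖P‖² ≤ (4 + 1) (‖z - a‖²/η)² ‖P‖²`. Horizontal sides:
`‖s z‖ ≥ ‖s 0‖`, `‖s/s'‖ ≤ ‖z - a‖²/r`. `‖P z‖ ≤ C' r ^ d` for `‖z‖ ≤ 2 r`, `r ≥ 1`.
-/

open Complex Filter Topology Metric Set

namespace Helper22.PA

open Pool.Agent.Helper30.FG

theorem poly_bound (P : Polynomial ℂ) : ∃ C : ℝ, 0 < C ∧ ∀ r : ℝ, 1 ≤ r → ∀ z : ℂ, ‖z‖ ≤ 2 * r →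
    ‖P.eval z‖ ≤ C * r ^ P.natDegree := by
  set d := P.natDegree with hd
  refine ⟨1 + 2 ^ d * ∑ i ∈ Finset.range (d + 1), ‖P.coeff i‖, by positivity, ?_⟩
  intro r hr z hz
  have hr0 : 0 < r := by linarith
  rw [Polynomial.eval_eq_sum_range]
  have h1 : ∀ i ∈ Finset.range (d + 1), ‖P.coeff i * z ^ i‖ ≤ ‖P.coeff i‖ * (2 ^ d * r ^ d) := by
    intro i hi
    have hi' : i ≤ d := Nat.lt_succ_iff.1 (Finset.mem_range.1 hi)
    rw [norm_mul, norm_pow]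
    refine mul_le_mul_of_nonneg_left ?_ (norm_nonneg _)
    calc ‖z‖ ^ i ≤ (2 * r) ^ i := pow_le_pow_left₀ (norm_nonneg _) hz i
      _ ≤ (2 * r) ^ d := pow_le_pow_right₀ (by linarith) hi'
      _ = 2 ^ d * r ^ d := mul_pow _ _ _
  calc ‖∑ i ∈ Finset.range (d + 1), P.coeff i * z ^ i‖
      ≤ ∑ i ∈ Finset.range (d + 1), ‖P.coeff i‖ * (2 ^ d * r ^ d) := norm_sum_le_of_le _ h1
    _ = (2 ^ d * ∑ i ∈ Finset.range (d + 1), ‖P.coeff i‖) * r ^ d := by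
        rw [← Finset.sum_mul]; ring
    _ ≤ (1 + 2 ^ d * ∑ i ∈ Finset.range (d + 1), ‖P.coeff i‖) * r ^ d := by
        have : 0 ≤ r ^ d := by positivity
        nlinarith

/-- The basic estimate off the real axis. -/
private lemma off_axis {s : ℂ → ℂ} {B A : ℝ} (h : EvenRR s B A) {a : ℂ}
    (ha : s a = 0) {p : ℂ} {R : ℂ} {z : ℂ}
    (hR : (1 - s z ^ 2) * p ^ 2 = R * deriv s z ^ 2) {m t : ℝ} (hm : 0 < m) (ht : 0 < t)
    (hsm : m ≤ ‖s z‖) (hzt : t ≤ |z.im|) :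
    ‖R‖ ≤ (1 / m ^ 2 + 1) * (‖z - a‖ ^ 2 / t) ^ 2 * ‖p‖ ^ 2 := by
  have him : z.im ≠ 0 := by
    intro h0
    rw [h0, abs_zero] at hzt
    linarith
  have hs0 : s z ≠ 0 := fun h0 => him (h.real z h0)
  have hd0 : deriv s z ≠ 0 := fun h0 => him (h.crit_real ha h0)
  have e1 : R = ((1 / s z ^ 2) - 1) * (s z / deriv s z) ^ 2 * p ^ 2 := by
    have : R = (1 - s z ^ 2) * p ^ 2 / deriv s z ^ 2 := by
      rw [hR]
      field_simp
    rw [this]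
    field_simp
  have h1 : ‖s z / deriv s z‖ ≤ ‖z - a‖ ^ 2 / t := by
    refine (h.norm_div_le ha him).trans ?_
    gcongr
  have h2 : ‖(1 / s z ^ 2) - 1‖ ≤ 1 / m ^ 2 + 1 := by
    refine (norm_sub_le _ _).trans ?_
    rw [norm_one, norm_div, norm_one, norm_pow]
    gcongr
  rw [e1, norm_mul, norm_mul, norm_pow, norm_pow]
  gcongr

private lemma convex_strip : Convex ℝ {z : ℂ | |z.im| ≤ 1} := by
  have h : {z : ℂ | |z.im| ≤ 1} = Complex.imLm ⁻¹' (Set.Icc (-1) 1) := by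
    ext z
    simp [abs_le]
  rw [h]
  exact (convex_Icc (-1 : ℝ) 1).linear_preimage Complex.imLm

theorem bound_squares {s : ℂ → ℂ} {B A : ℝ} (hs : IsE (1 / 2) 1 s) (h : EvenRR s B A) {a : ℂ}
    (ha : s a = 0) {P : Polynomial ℂ} {R : ℂ → ℂ}
    (hR : ∀ z, (1 - s z ^ 2) * P.eval z ^ 2 = R z * deriv s z ^ 2) {c : ℝ} (hc : 0 < c)
    (hgood : ∀ R₀ : ℝ, ∃ x : ℝ, R₀ ≤ x ∧ 1 ≤ x ∧ 1 / 2 ≤ ‖s (x : ℂ)‖ ∧
      c / x ^ 4 ≤ ‖deriv s (x : ℂ)‖) :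
    ∃ (C : ℝ) (N : ℕ), ∀ R₀ : ℝ, ∃ r : ℝ, R₀ ≤ r ∧ 1 ≤ r ∧ ∀ z : ℂ,
      ((|z.re| = r ∧ |z.im| ≤ r) ∨ (|z.re| ≤ r ∧ |z.im| = r)) → ‖R z‖ ≤ C * r ^ N := by
  obtain ⟨C₂, hC₂, hsb⟩ := second_bound hs
  obtain ⟨C', hC', hPb⟩ := poly_bound P
  set d := P.natDegree with hd
  have hs0 : 0 < ‖s 0‖ := norm_pos_iff.2 h.nz
  set Ka : ℝ := (1 / (1 / 2) ^ 2 + 1) * (2 + ‖a‖) ^ 4 * (2 * C₂ / c) ^ 2 * C' ^ 2 with hKa
  set Kb : ℝ := (1 + C₂ ^ 2) * (2 / c) ^ 2 * C' ^ 2 with hKb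
  set Kh : ℝ := (1 / ‖s 0‖ ^ 2 + 1) * (2 + ‖a‖) ^ 4 * C' ^ 2 with hKh
  have hKa0 : 0 ≤ Ka := by positivity
  have hKb0 : 0 ≤ Kb := by positivity
  have hKh0 : 0 ≤ Kh := by positivity
  have haim : a.im = 0 := h.real a ha
  have ha0 : a ≠ 0 := h.zero_ne ha
  refine ⟨Ka + Kb + Kh, 12 + 2 * d, fun R₀ => ?_⟩
  obtain ⟨r, hrR, hr1, hsr, hdr⟩ := hgood R₀
  refine ⟨r, hrR, hr1, fun z hz => ?_⟩
  have hr0 : 0 < r := by linarith
  have hzn : ‖z‖ ≤ 2 * r := by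
    have h1 := Complex.norm_le_abs_re_add_abs_im z
    rcases hz with ⟨h2, h3⟩ | ⟨h2, h3⟩ <;> linarith
  have hP := hPb r hr1 z hzn
  have hP2 : ‖P.eval z‖ ^ 2 ≤ C' ^ 2 * r ^ (2 * d) := by
    calc ‖P.eval z‖ ^ 2 ≤ (C' * r ^ d) ^ 2 := pow_le_pow_left₀ (norm_nonneg _) hP 2
      _ = C' ^ 2 * r ^ (2 * d) := by rw [mul_pow, ← pow_mul, mul_comm d 2]
  have hza : ‖z - a‖ ≤ (2 + ‖a‖) * r := by
    have h1 := norm_sub_le z a
    have h2 : ‖a‖ ≤ ‖a‖ * r := le_mul_of_one_le_right (norm_nonneg _) hr1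
    linarith
  have hza4 : (‖z - a‖ ^ 2) ^ 2 ≤ (2 + ‖a‖) ^ 4 * r ^ 4 := by
    calc (‖z - a‖ ^ 2) ^ 2 = ‖z - a‖ ^ 4 := by ring
      _ ≤ ((2 + ‖a‖) * r) ^ 4 := pow_le_pow_left₀ (norm_nonneg _) hza 4
      _ = _ := mul_pow _ _ _
  have hpow : ∀ {k : ℕ}, k ≤ 12 → r ^ (k + 2 * d) ≤ r ^ (12 + 2 * d) := fun {k} hk =>
    pow_le_pow_right₀ hr1 (by omega)
  have hrN : 0 < r ^ (12 + 2 * d) := by positivity
  have hC₂c : c / r ^ 4 ≤ C₂ := by
    refine hdr.trans ((hsb (r : ℂ) ?_).2.1)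
    simp
  rcases hz with ⟨hre, him⟩ | ⟨hre, him⟩
  · -- vertical sides
    have hre2 : z.re = r ∨ z.re = -r := by
      rcases abs_choice z.re with h1 | h1
      · left; rw [← hre, h1]
      · right; rw [← hre, h1, neg_neg]
    have hsre : 1 / 2 ≤ ‖s (z.re : ℂ)‖ := by
      rcases hre2 with h1 | h1
      · rw [h1]; exact hsr
      · rw [h1]
        push_cast
        rw [h.even]; exact hsr
    have hdre : c / r ^ 4 ≤ ‖deriv s (z.re : ℂ)‖ := by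
      rcases hre2 with h1 | h1
      · rw [h1]; exact hdr
      · rw [h1]
        push_cast
        rw [h.deriv_odd, norm_neg]; exact hdr
    set η : ℝ := c / (2 * C₂ * r ^ 4) with hη
    have hη0 : 0 < η := by positivity
    have hη1 : η ≤ 1 := by
      rw [hη, div_le_one (by positivity)]
      rw [div_le_iff₀ (by positivity)] at hC₂c
      have : 0 ≤ C₂ * r ^ 4 := by positivity
      linarith
    rcases le_total η |z.im| with hcase | hcase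
    · have hsz : 1 / 2 ≤ ‖s z‖ := by
        have h1 := h.norm_mono z.re z.im
        rw [Complex.re_add_im] at h1
        exact hsre.trans h1
      have h1 := off_axis h ha (hR z) (by norm_num : (0 : ℝ) < 1 / 2) hη0 hsz hcase
      have h2 : (‖z - a‖ ^ 2 / η) ^ 2 ≤ (2 + ‖a‖) ^ 4 * (2 * C₂ / c) ^ 2 * r ^ 12 := by
        rw [div_pow]
        have e : (2 + ‖a‖) ^ 4 * (2 * C₂ / c) ^ 2 * r ^ 12 = ((2 + ‖a‖) ^ 4 * r ^ 4) / η ^ 2 := by
          rw [hη]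
          field_simp
        rw [e]
        gcongr
      calc ‖R z‖ ≤ _ := h1
        _ ≤ (1 / (1 / 2) ^ 2 + 1) * ((2 + ‖a‖) ^ 4 * (2 * C₂ / c) ^ 2 * r ^ 12) *
            (C' ^ 2 * r ^ (2 * d)) := by gcongr
        _ = Ka * r ^ (12 + 2 * d) := by rw [hKa, pow_add]; ring
        _ ≤ (Ka + Kb + Kh) * r ^ (12 + 2 * d) := by nlinarith
    · -- near the axis
      have hz1 : |z.im| ≤ 1 := hcase.trans hη1
      obtain ⟨hb0, hb1, -, -⟩ := hsb z hz1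
      have hmv : ‖deriv s z - deriv s (z.re : ℂ)‖ ≤ C₂ * ‖z - (z.re : ℂ)‖ := by
        have hdd : Differentiable ℂ (deriv s) := by
          rw [← differentiableOn_univ]
          exact (h.diff.differentiableOn).deriv isOpen_univ
        refine Convex.norm_image_sub_le_of_norm_deriv_le (s := {z : ℂ | |z.im| ≤ 1})
          (fun w _ => hdd w) (fun w hw => (hsb w hw).2.2.1) convex_strip ?_ hz1
        simp
      have hzr : ‖z - (z.re : ℂ)‖ = |z.im| := by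
        have : z - (z.re : ℂ) = (z.im : ℂ) * I := Complex.ext (by simp) (by simp)
        rw [this]
        simp
      rw [hzr] at hmv
      have hlow : c / (2 * r ^ 4) ≤ ‖deriv s z‖ := by
        have h1 : ‖deriv s (z.re : ℂ)‖ - ‖deriv s z‖ ≤ ‖deriv s z - deriv s (z.re : ℂ)‖ := by
          rw [norm_sub_rev]
          exact norm_sub_norm_le _ _
        have h2 : C₂ * |z.im| ≤ C₂ * η := by gcongr
        have h3 : C₂ * η = c / (2 * r ^ 4) := by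
          rw [hη]
          field_simp
        have h4 : c / r ^ 4 = c / (2 * r ^ 4) + c / (2 * r ^ 4) := by
          field_simp
          ring
        linarith
      have hdpos : 0 < c / (2 * r ^ 4) := by positivity
      have hd0 : 0 < ‖deriv s z‖ := hdpos.trans_le hlow
      have h5 : ‖R z‖ * ‖deriv s z‖ ^ 2 ≤ (1 + C₂ ^ 2) * (C' ^ 2 * r ^ (2 * d)) := by
        have h6 : ‖R z‖ * ‖deriv s z‖ ^ 2 = ‖1 - s z ^ 2‖ * ‖P.eval z‖ ^ 2 := by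
          have := congrArg norm (hR z)
          rw [norm_mul, norm_mul, norm_pow, norm_pow] at this
          exact this.symm
        rw [h6]
        have h7 : ‖1 - s z ^ 2‖ ≤ 1 + C₂ ^ 2 := by
          refine (norm_sub_le _ _).trans ?_
          rw [norm_one, norm_pow]
          gcongr
        gcongr
      have h8 : ‖R z‖ ≤ Kb * r ^ (8 + 2 * d) := by
        have h9 : ‖R z‖ * (c / (2 * r ^ 4)) ^ 2 ≤ (1 + C₂ ^ 2) * (C' ^ 2 * r ^ (2 * d)) := by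
          refine le_trans ?_ h5
          gcongr
        have h10 : Kb * r ^ (8 + 2 * d) =
            (1 + C₂ ^ 2) * (C' ^ 2 * r ^ (2 * d)) / (c / (2 * r ^ 4)) ^ 2 := by
          rw [hKb, pow_add]
          field_simp
        rw [h10, le_div_iff₀ (by positivity)]
        exact h9
      calc ‖R z‖ ≤ Kb * r ^ (8 + 2 * d) := h8
        _ ≤ Kb * r ^ (12 + 2 * d) := by
            have := hpow (k := 8) (by norm_num)
            gcongr
        _ ≤ (Ka + Kb + Kh) * r ^ (12 + 2 * d) := by nlinarith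
  · -- horizontal sides
    have hreim : |z.re| ≤ |z.im| := by rw [him]; exact hre
    have hsz : ‖s 0‖ ≤ ‖s z‖ := by
      have h1 := h.norm_ge hreim ha
      obtain ⟨b, rfl⟩ : ∃ b : ℝ, a = b := ⟨a.re, Complex.ext (by simp) (by simpa using haim)⟩
      have h2 : 1 ≤ ‖1 - z ^ 2 / (b : ℂ) ^ 2‖ := by
        have hre1 : 1 ≤ (1 - z ^ 2 / (b : ℂ) ^ 2).re := by
          have e1 : (1 - z ^ 2 / (b : ℂ) ^ 2).re = 1 - (z.re ^ 2 - z.im ^ 2) / b ^ 2 := by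
            have e2 : z ^ 2 / (b : ℂ) ^ 2 = z ^ 2 / ((b ^ 2 : ℝ) : ℂ) := by push_cast; ring
            rw [e2, Complex.sub_re, Complex.div_ofReal_re, Complex.one_re]
            congr 2
            simp [sq]
          rw [e1]
          have h3 : z.re ^ 2 - z.im ^ 2 ≤ 0 := by
            have := sq_le_sq.2 hreim
            linarith
          have h4 : (z.re ^ 2 - z.im ^ 2) / b ^ 2 ≤ 0 :=
            div_nonpos_of_nonpos_of_nonneg h3 (by positivity)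
          linarith
        exact hre1.trans (Complex.re_le_norm _)
      calc ‖s 0‖ = ‖s 0‖ * 1 := (mul_one _).symm
        _ ≤ ‖s 0‖ * ‖1 - z ^ 2 / (b : ℂ) ^ 2‖ := by gcongr
        _ ≤ _ := h1
    have h1 := off_axis h ha (hR z) hs0 hr0 hsz him.ge
    have h2 : (‖z - a‖ ^ 2 / r) ^ 2 ≤ (2 + ‖a‖) ^ 4 * r ^ 2 := by
      rw [div_pow, div_le_iff₀ (by positivity)]
      refine hza4.trans (le_of_eq ?_)
      ring
    calc ‖R z‖ ≤ _ := h1
      _ ≤ (1 / ‖s 0‖ ^ 2 + 1) * ((2 + ‖a‖) ^ 4 * r ^ 2) * (C' ^ 2 * r ^ (2 * d)) := by gcongr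
      _ = Kh * r ^ (2 + 2 * d) := by rw [hKh, pow_add]; ring
      _ ≤ Kh * r ^ (12 + 2 * d) := by
          have := hpow (k := 2) (by norm_num)
          gcongr
      _ ≤ (Ka + Kb + Kh) * r ^ (12 + 2 * d) := by nlinarith

end Helper22.PA
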