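import Pool.Agent.Helper22.PA.Prod

/-!
[PA-Crit] Critical points of an even function of exponential type with real simple zeros
(`EvenRR`, file `PA/Basic.lean`; the inequality `EvenRR.logDeriv_im` of `PA/Prod.lean` is proved:
`z.im / ‖z - a‖ ^ 2 ≤ -(deriv F z / F z).im` for `0 < z.im`, `F a = 0`).
crit_real: for `0 < z.im` directly from logDeriv_im (left side > 0; note `z ≠ a` since `a.im = 0`);
for `z.im < 0` use `-z` (`deriv F` is odd).
norm_div_le: `‖F z / deriv F z‖ ≤ ‖z - a‖ ^ 2 / |z.im|` for `z.im ≠ 0` (|Im w| ≤ ‖w‖; lower half plane: `-z`,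
with the zero `-a`, or with conjugation-free argument: ‖-z - (-a)‖ = ‖z - a‖).
crit_second: `(deriv F / F)` has the derivative `F''(k)/F(k)` at `k` and vanishes there; divide
logDeriv_im at `k + y I` by `y` and let `y → 0+`: `-Re (F''(k)/F(k)) ≥ 1/‖k - a‖ ^ 2`.
(`F k ≠ 0` because the zeros of `F` are simple; `k ≠ a` for the same reason.)
-/

open Complex Filter Topology Metric Set

namespace Helper22.PA

variable {F : ℂ → ℂ} {B A : ℝ}

theorem EvenRR.deriv_odd (h : EvenRR F B A) (z : ℂ) : deriv F (-z) = - deriv F z := by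
  have h1 : (fun z => F (-z)) = F := funext h.even
  have h2 : deriv (fun z => F (-z)) z = - deriv F (-z) := deriv_comp_neg F z
  rw [h1] at h2
  rw [h2, neg_neg]

private lemma EvenRR.crit_ne (h : EvenRR F B A) {z : ℂ} (hz : z.im ≠ 0) : F z ≠ 0 :=
  fun h0 => hz (h.real z h0)

private lemma EvenRR.crit_norm_pos (h : EvenRR F B A) {a z : ℂ} (ha : F a = 0) (hz : z.im ≠ 0) :
    0 < ‖z - a‖ ^ 2 := by
  have h1 : z - a ≠ 0 := by
    intro h0
    apply hz
    rw [sub_eq_zero.1 h0]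
    exact h.real a ha
  have := norm_pos_iff.2 h1
  positivity

private lemma EvenRR.crit_upper (h : EvenRR F B A) {a z : ℂ} (ha : F a = 0)
    (hz : deriv F z = 0) (hz' : 0 < z.im) : False := by
  have h1 := h.logDeriv_im hz' ha
  rw [hz, zero_div, Complex.zero_im, neg_zero] at h1
  have h2 : 0 < z.im / ‖z - a‖ ^ 2 := div_pos hz' (h.crit_norm_pos ha hz'.ne')
  linarith

theorem EvenRR.crit_real (h : EvenRR F B A) {a z : ℂ} (ha : F a = 0) (hz : deriv F z = 0) :
    z.im = 0 := by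
  rcases lt_trichotomy z.im 0 with h1 | h1 | h1
  · exfalso
    refine h.crit_upper (z := -z) ha ?_ (by rw [Complex.neg_im]; linarith)
    rw [h.deriv_odd, hz, neg_zero]
  · exact h1
  · exact (h.crit_upper ha hz h1).elim

private lemma EvenRR.norm_div_upper (h : EvenRR F B A) {a z : ℂ} (ha : F a = 0)
    (hz : 0 < z.im) : ‖F z / deriv F z‖ ≤ ‖z - a‖ ^ 2 / z.im := by
  have hp := h.crit_norm_pos ha hz.ne'
  by_cases hd : deriv F z = 0
  · rw [hd, div_zero, norm_zero]
    positivity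
  · have hF := h.crit_ne hz.ne'
    have h1 := h.logDeriv_im hz ha
    have h2 : -(deriv F z / F z).im ≤ ‖deriv F z / F z‖ :=
      (neg_le_abs _).trans (Complex.abs_im_le_norm _)
    have h3 : 0 < ‖deriv F z / F z‖ := norm_pos_iff.2 (div_ne_zero hd hF)
    have h4 : F z / deriv F z = (deriv F z / F z)⁻¹ := (inv_div _ _).symm
    rw [h4, norm_inv, inv_le_comm₀ h3 (div_pos hp hz), inv_div]
    linarith

theorem EvenRR.norm_div_le (h : EvenRR F B A) {a z : ℂ} (ha : F a = 0) (hz : z.im ≠ 0) :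
    ‖F z / deriv F z‖ ≤ ‖z - a‖ ^ 2 / |z.im| := by
  rcases lt_or_gt_of_ne hz with h1 | h1
  · have h2 := h.norm_div_upper (a := -a) (z := -z) (by rw [h.even]; exact ha)
      (by rw [Complex.neg_im]; linarith)
    rw [h.even, h.deriv_odd, div_neg, norm_neg, Complex.neg_im, ← neg_sub', norm_neg] at h2
    rw [abs_of_neg h1]
    exact h2
  · rw [abs_of_pos h1]
    exact h.norm_div_upper ha h1

theorem EvenRR.crit_second (h : EvenRR F B A) {a : ℂ} (ha : F a = 0) {k : ℝ}
    (hk : deriv F k = 0) : ‖F k‖ / ‖(k : ℂ) - a‖ ^ 2 ≤ ‖deriv (deriv F) k‖ := by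
  have hFk : F k ≠ 0 := fun h0 => h.simple _ h0 hk
  have hka : (k : ℂ) - a ≠ 0 := by
    intro h0
    apply hFk
    rw [sub_eq_zero.1 h0]
    exact ha
  have hdd : Differentiable ℂ (deriv F) := by
    rw [← differentiableOn_univ]
    exact h.diff.differentiableOn.deriv isOpen_univ
  set c : ℂ := deriv (deriv F) k / F k with hc
  have hg : HasDerivAt (fun z => deriv F z / F z) c k := by
    have h1 := (hdd k).hasDerivAt.div (h.diff k).hasDerivAt hFk
    have h2 : (deriv (deriv F) k * F k - deriv F k * deriv F k) / F k ^ 2 = c := by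
      rw [hk, hc]
      field_simp
      ring
    rw [h2] at h1
    exact h1
  -- the path k + y I
  have hpath : HasDerivAt (fun y : ℝ => (k : ℂ) + (y : ℂ) * I) I 0 := by
    have h1 := ((Complex.ofRealCLM.hasDerivAt (x := 0)).mul_const I).const_add (k : ℂ)
    simpa using h1
  have hG : HasDerivAt (fun y : ℝ => -(deriv F ((k : ℂ) + (y : ℂ) * I) /
      F ((k : ℂ) + (y : ℂ) * I)).im) (-c.re) 0 := by
    have h1 : HasDerivAt (fun z => deriv F z / F z) c ((k : ℂ) + ((0 : ℝ) : ℂ) * I) := by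
      simpa using hg
    have h2 := HasDerivAt.scomp (0 : ℝ) h1 hpath
    have h3 := (Complex.imCLM.hasFDerivAt.comp_hasDerivAt (0 : ℝ) h2).neg
    have h4 : -(Complex.imCLM (I • c)) = -c.re := by simp
    rw [h4] at h3
    exact h3
  have hlim := hG.tendsto_slope_zero_right
  have hlim2 : Tendsto (fun y : ℝ => 1 / ‖(k : ℂ) + (y : ℂ) * I - a‖ ^ 2) (𝓝[>] 0)
      (𝓝 (1 / ‖(k : ℂ) - a‖ ^ 2)) := by
    have h1 : ContinuousAt (fun y : ℝ => 1 / ‖(k : ℂ) + (y : ℂ) * I - a‖ ^ 2) 0 := by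
      refine ContinuousAt.div continuousAt_const (by fun_prop) ?_
      simpa using hka
    have h2 := h1.tendsto
    simp only [Complex.ofReal_zero, zero_mul, add_zero] at h2
    exact h2.mono_left nhdsWithin_le_nhds
  have hle : 1 / ‖(k : ℂ) - a‖ ^ 2 ≤ -c.re := by
    refine le_of_tendsto_of_tendsto hlim2 hlim ?_
    filter_upwards [self_mem_nhdsWithin] with y hy
    have hy' : 0 < y := hy
    have h1 := h.logDeriv_im (z := (k : ℂ) + (y : ℂ) * I) (by simpa using hy') ha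
    have h2 : ((k : ℂ) + (y : ℂ) * I).im = y := by simp
    rw [h2] at h1
    simp only [zero_add, Complex.ofReal_zero, zero_mul, add_zero, hk, zero_div, Complex.zero_im,
      neg_zero, sub_zero, smul_eq_mul]
    rw [inv_mul_eq_div, le_div_iff₀ hy']
    calc 1 / ‖(k : ℂ) + (y : ℂ) * I - a‖ ^ 2 * y = y / ‖(k : ℂ) + (y : ℂ) * I - a‖ ^ 2 := by ring
      _ ≤ _ := h1
  have h5 : -c.re ≤ ‖c‖ := (neg_le_abs _).trans (Complex.abs_re_le_norm _)
  have h6 : ‖c‖ = ‖deriv (deriv F) k‖ / ‖F k‖ := by rw [hc, norm_div]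
  have h7 : 0 < ‖F k‖ := norm_pos_iff.2 hFk
  have h8 : 1 / ‖(k : ℂ) - a‖ ^ 2 ≤ ‖deriv (deriv F) k‖ / ‖F k‖ := by
    rw [← h6]
    exact hle.trans h5
  rw [le_div_iff₀ h7] at h8
  calc ‖F k‖ / ‖(k : ℂ) - a‖ ^ 2 = 1 / ‖(k : ℂ) - a‖ ^ 2 * ‖F k‖ := by ring
    _ ≤ _ := h8

end Helper22.PA
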