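import Mathlib

/-!
[PA-Ratio] Polynomials on the imaginary axis, and complex polynomials real on the real axis.
For `z = y I`, `y → +∞`: `p(z) = z ^ n * p.reverse(1/z)` (`Polynomial.eval₂_reverse_mul_pow`), so
`p(z)/z ^ natDegree → leadingCoeff`.
-/

open Complex Filter Topology Metric Set

namespace Helper22.PA

theorem tendsto_norm_yI : Tendsto (fun y : ℝ => ‖((y : ℂ) * I)‖) atTop atTop := by
  have h : (fun y : ℝ => ‖((y : ℂ) * I)‖) = fun y : ℝ => |y| := by
    funext y; simp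
  rw [h]; exact tendsto_abs_atTop_atTop

theorem yI_ne {y : ℝ} (hy : 0 < y) : ((y : ℂ) * I) ≠ 0 := by
  simp [hy.ne']

theorem tendsto_inv_yI : Tendsto (fun y : ℝ => ((y : ℂ) * I)⁻¹) atTop (𝓝 0) := by
  rw [tendsto_zero_iff_norm_tendsto_zero]
  simp_rw [norm_inv]
  exact tendsto_norm_yI.inv_tendsto_atTop

theorem tendsto_eval_div_pow (p : Polynomial ℂ) :
    Tendsto (fun y : ℝ => p.eval ((y : ℂ) * I) / ((y : ℂ) * I) ^ p.natDegree) atTop
      (𝓝 p.leadingCoeff) := by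
  have h1 : Tendsto (fun y : ℝ => p.reverse.eval (((y : ℂ) * I)⁻¹)) atTop
      (𝓝 (p.reverse.eval 0)) :=
    (p.reverse.continuous.tendsto 0).comp tendsto_inv_yI
  rw [← Polynomial.coeff_zero_eq_eval_zero, Polynomial.coeff_zero_reverse] at h1
  refine h1.congr' ?_
  filter_upwards [eventually_gt_atTop 0] with y hy
  have hz := yI_ne hy
  let _i : Invertible ((y : ℂ) * I) := invertibleOfNonzero hz
  have h2 := Polynomial.eval₂_reverse_mul_pow (RingHom.id ℂ) (((y : ℂ) * I)) p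
  rw [invOf_eq_inv] at h2
  change p.reverse.eval (((y : ℂ) * I)⁻¹) * ((y : ℂ) * I) ^ p.natDegree =
    p.eval ((y : ℂ) * I) at h2
  rw [← h2, mul_div_assoc, div_self (pow_ne_zero _ hz), mul_one]

theorem eventually_eval_ne {p : Polynomial ℂ} (hp : p ≠ 0) :
    ∀ᶠ y : ℝ in atTop, p.eval ((y : ℂ) * I) ≠ 0 := by
  have h := tendsto_eval_div_pow p
  have h0 : p.leadingCoeff ≠ 0 := Polynomial.leadingCoeff_ne_zero.2 hp
  filter_upwards [h.eventually_ne h0] with y hy h1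
  exact hy (by rw [h1, zero_div])

theorem tendsto_ratio {R P : Polynomial ℂ} (hP : P.Monic) (hd : R.natDegree = 2 * P.natDegree) :
    Tendsto (fun y : ℝ => R.eval ((y : ℂ) * I) / P.eval ((y : ℂ) * I) ^ 2) atTop
      (𝓝 R.leadingCoeff) := by
  have h1 := tendsto_eval_div_pow R
  have h2 := (tendsto_eval_div_pow P).pow 2
  rw [hP.leadingCoeff, one_pow] at h2
  have h3 := h1.div h2 one_ne_zero
  rw [div_one] at h3
  refine h3.congr' ?_
  filter_upwards [eventually_gt_atTop 0] with y hy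
  have hz := yI_ne hy
  have hzn : ((y : ℂ) * I) ^ (2 * P.natDegree) ≠ 0 := pow_ne_zero _ hz
  simp only [Pi.div_apply]
  rw [hd, div_pow, ← pow_mul, mul_comm P.natDegree 2, div_div_div_cancel_right₀ hzn]

theorem norm_ratio {R P : Polynomial ℂ} {y : ℝ} (hy : 0 < y) :
    ‖P.eval ((y : ℂ) * I)‖ ^ 2 / ‖R.eval ((y : ℂ) * I)‖ =
      ‖P.eval ((y : ℂ) * I) / ((y : ℂ) * I) ^ P.natDegree‖ ^ 2 /
        ‖R.eval ((y : ℂ) * I) / ((y : ℂ) * I) ^ R.natDegree‖ *
        (y ^ (2 * P.natDegree) / y ^ R.natDegree) := by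
  have h1 : ‖((y : ℂ) * I)‖ = y := by simp [abs_of_pos hy]
  rw [norm_div, norm_div, norm_pow, norm_pow, h1, div_pow, ← pow_mul, mul_comm P.natDegree 2]
  have h2 : y ^ (2 * P.natDegree) ≠ 0 := pow_ne_zero _ hy.ne'
  have h3 : y ^ R.natDegree ≠ 0 := pow_ne_zero _ hy.ne'
  by_cases h4 : ‖R.eval ((y : ℂ) * I)‖ = 0
  · simp [h4]
  · field_simp

theorem tendsto_ratio_zero {R P : Polynomial ℂ} (hP : P.Monic)
    (hd : 2 * P.natDegree < R.natDegree) :
    Tendsto (fun y : ℝ => ‖P.eval ((y : ℂ) * I)‖ ^ 2 / ‖R.eval ((y : ℂ) * I)‖) atTop (𝓝 0) := by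
  have hR : R ≠ 0 := by rintro rfl; simp at hd
  have h1 := (tendsto_eval_div_pow R).norm
  have h2 := ((tendsto_eval_div_pow P).norm).pow 2
  have h3 := h2.div h1 (norm_ne_zero_iff.2 (Polynomial.leadingCoeff_ne_zero.2 hR))
  obtain ⟨m, hm⟩ : ∃ m, R.natDegree = 2 * P.natDegree + (m + 1) := ⟨R.natDegree - 2 * P.natDegree - 1, by omega⟩
  have h4 : Tendsto (fun y : ℝ => y ^ (2 * P.natDegree) / y ^ R.natDegree) atTop (𝓝 0) := by
    have h5 : Tendsto (fun y : ℝ => (y ^ (m + 1))⁻¹) atTop (𝓝 0) :=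
      (tendsto_pow_atTop (Nat.succ_ne_zero m)).inv_tendsto_atTop
    refine h5.congr' ?_
    filter_upwards [eventually_gt_atTop 0] with y hy
    rw [hm, pow_add]
    have : y ^ (2 * P.natDegree) ≠ 0 := pow_ne_zero _ hy.ne'
    field_simp
    ring
  have h5 := h3.mul h4
  rw [mul_zero] at h5
  refine h5.congr' ?_
  filter_upwards [eventually_gt_atTop 0] with y hy
  exact (norm_ratio hy).symm

theorem tendsto_ratio_atTop {R P : Polynomial ℂ} (hR : R ≠ 0) (hP : P.Monic)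
    (hd : R.natDegree < 2 * P.natDegree) :
    Tendsto (fun y : ℝ => ‖P.eval ((y : ℂ) * I)‖ ^ 2 / ‖R.eval ((y : ℂ) * I)‖) atTop atTop := by
  have hR0 : 0 < ‖R.leadingCoeff‖ := norm_pos_iff.2 (Polynomial.leadingCoeff_ne_zero.2 hR)
  have h1 := (tendsto_eval_div_pow R).norm
  have h2 := ((tendsto_eval_div_pow P).norm).pow 2
  have h3 := h2.div h1 hR0.ne'
  rw [hP.leadingCoeff, norm_one, one_pow] at h3
  have h3' : 0 < 1 / ‖R.leadingCoeff‖ := by positivity
  obtain ⟨m, hm⟩ : ∃ m, 2 * P.natDegree = R.natDegree + (m + 1) := ⟨2 * P.natDegree - R.natDegree - 1, by omega⟩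
  have h4 : Tendsto (fun y : ℝ => y ^ (2 * P.natDegree) / y ^ R.natDegree) atTop atTop := by
    have h5 : Tendsto (fun y : ℝ => y ^ (m + 1)) atTop atTop := tendsto_pow_atTop (Nat.succ_ne_zero m)
    refine h5.congr' ?_
    filter_upwards [eventually_gt_atTop 0] with y hy
    rw [hm, pow_add]
    have : y ^ R.natDegree ≠ 0 := pow_ne_zero _ hy.ne'
    field_simp
    ring
  have h5 := h3.pos_mul_atTop h3' h4
  refine h5.congr' ?_
  filter_upwards [eventually_gt_atTop 0] with y hy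
  exact (norm_ratio hy).symm

theorem real_poly {R : Polynomial ℂ} (h : {x : ℝ | (R.eval (x : ℂ)).im = 0}.Infinite) :
    ∃ Q : Polynomial ℝ, Q.map (algebraMap ℝ ℂ) = R := by
  have h1 : R.map (starRingEnd ℂ) = R := by
    refine Polynomial.eq_of_infinite_eval_eq _ _ ?_
    refine (h.image (f := fun x : ℝ => (x : ℂ)) (fun a _ b _ hab => Complex.ofReal_injective hab)).mono ?_
    rintro _ ⟨x, hx, rfl⟩
    change (R.map (starRingEnd ℂ)).eval (x : ℂ) = R.eval (x : ℂ)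
    have h2 : (R.map (starRingEnd ℂ)).eval (x : ℂ) = (starRingEnd ℂ) (R.eval (x : ℂ)) := by
      have h3 := Polynomial.eval_map_apply (starRingEnd ℂ) (p := R) (x : ℂ)
      rw [Complex.conj_ofReal] at h3
      exact h3
    rw [h2]
    exact Complex.conj_eq_iff_im.2 hx
  have h2 : R ∈ Polynomial.lifts (algebraMap ℝ ℂ) := by
    rw [Polynomial.lifts_iff_coeff_lifts]
    intro n
    have h3 : (starRingEnd ℂ) (R.coeff n) = R.coeff n := by
      conv_rhs => rw [← h1]
      rw [Polynomial.coeff_map]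
    exact ⟨(R.coeff n).re, Complex.conj_eq_iff_re.1 h3⟩
  exact (Polynomial.mem_lifts _).1 h2

end Helper22.PA
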