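import Pool.Agent.Helper22.PA.Growth
import Pool.Agent.Helper22.PA.Ratio

/-!
[PA-Degree] From `(1 - s²) P² = R s'²` on the imaginary axis:
`‖s'/s‖² = ‖1 - 1/s²‖ ‖P‖²/‖R‖` and `‖s(iy)‖ → ∞`, so `‖s'/s‖² → ℓ²` with `ℓ² = 0` (deg R > 2 deg P),
`1/‖lc R‖` (equal degrees), `∞` (deg R < 2 deg P). `ℓ < 1/2` contradicts `htype` (growth_upper with `σ` between
`ℓ` and `1/2`), `ℓ > 1/2` contradicts `‖s(iy)‖ ≤ exp(y/2)` (growth_lower). So the degrees agree and
`‖lc R‖ = 4`. Since `s(iy)` is real with modulus > 1 for large `y` and `s'(iy)` is purely imaginary,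
`R/P² = (1 - s²)/s'²` is a positive real number at `iy`, so its limit `lc R` is a nonnegative real: `lc R = 4`.
(`R ≠ 0`: otherwise `s² = 1` where `P ≠ 0`.)
-/

open Complex Filter Topology Metric Set

namespace Helper22.PA

open Pool.Agent.Helper30.FG

theorem deg_conj {s : ℂ → ℂ} (hs : IsE (1 / 2) 1 s) (z : ℂ) :
    (starRingEnd ℂ) (s ((starRingEnd ℂ) z)) = s z := by
  have hg : Differentiable ℂ ((starRingEnd ℂ) ∘ s ∘ (starRingEnd ℂ)) := fun z =>
    differentiableAt_conj_conj_iff.2 (hs.b.diff _)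
  have h1 : AnalyticOnNhd ℂ ((starRingEnd ℂ) ∘ s ∘ (starRingEnd ℂ)) univ :=
    fun z _ => hg.analyticAt z
  have h2 : AnalyticOnNhd ℂ s univ := fun z _ => hs.b.diff.analyticAt z
  have h3 : ∃ᶠ w in 𝓝[≠] (0 : ℂ), ((starRingEnd ℂ) ∘ s ∘ (starRingEnd ℂ)) w = s w := by
    have h4 : Tendsto (fun x : ℝ => (x : ℂ)) (𝓝[≠] 0) (𝓝[≠] 0) := by
      refine tendsto_nhdsWithin_of_tendsto_nhds_of_eventually_within _ ?_ ?_
      · have : Tendsto (fun x : ℝ => (x : ℂ)) (𝓝 0) (𝓝 ((0 : ℝ) : ℂ)) :=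
          Complex.continuous_ofReal.tendsto 0
        simpa using this.mono_left nhdsWithin_le_nhds
      · filter_upwards [self_mem_nhdsWithin] with x hx
        simpa using hx
    refine h4.frequently ?_
    refine Eventually.frequently (Eventually.of_forall fun x => ?_)
    simp only [Function.comp_apply, Complex.conj_ofReal]
    exact Complex.conj_eq_iff_im.2 (hs.real x)
  have h5 := h1.eqOn_of_preconnected_of_frequently_eq h2 isPreconnected_univ (mem_univ 0) h3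
  exact h5 (mem_univ z)

theorem deg_s_real {s : ℂ → ℂ} (hs : IsE (1 / 2) 1 s) (y : ℝ) :
    (s ((y : ℂ) * I)).im = 0 := by
  have h := deg_conj hs ((y : ℂ) * I)
  have h1 : (starRingEnd ℂ) ((y : ℂ) * I) = -((y : ℂ) * I) := by simp
  rw [h1, hs.even] at h
  exact Complex.conj_eq_iff_im.1 h

theorem deg_d_imag {s : ℂ → ℂ} (hs : IsE (1 / 2) 1 s) (y : ℝ) :
    (deriv s ((y : ℂ) * I)).re = 0 := by
  have h1 : ((starRingEnd ℂ) ∘ s ∘ (starRingEnd ℂ)) = s := funext fun z => deg_conj hs z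
  have h2 := congrFun (deriv_conj_conj (𝕜 := ℂ) (f := s)) ((y : ℂ) * I)
  rw [h1] at h2
  have h3 : (starRingEnd ℂ) ((y : ℂ) * I) = -((y : ℂ) * I) := by simp
  simp only [Function.comp_apply, h3] at h2
  have h4 : deriv s (-((y : ℂ) * I)) = - deriv s ((y : ℂ) * I) := by
    have h5 : s = fun z => s (-z) := funext fun z => (hs.even z).symm
    have h6 : deriv s ((y : ℂ) * I) = - deriv s (-((y : ℂ) * I)) := by
      conv_lhs => rw [h5]
      exact deriv_comp_neg s _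
    rw [h6, neg_neg]
  rw [h4, map_neg] at h2
  have h5 := congrArg Complex.re h2
  rw [Complex.neg_re, Complex.conj_re] at h5
  linarith

theorem deg_upper {s : ℂ → ℂ} {B A : ℝ} (hs : IsE (1 / 2) 1 s) (h : EvenRR s B A) {a : ℂ} (ha : s a = 0)
    (htype : ∀ σ : ℝ, σ < 1 / 2 → ∀ C : ℝ, ∃ y : ℝ, 0 ≤ y ∧
      C * Real.exp (σ * y) < ‖s ((y : ℂ) * I)‖) {σ : ℝ} (hσ0 : 0 ≤ σ) (hσ : σ < 1 / 2)
    (hb : ∀ᶠ y : ℝ in atTop, ‖deriv s ((y : ℂ) * I) / s ((y : ℂ) * I)‖ ≤ σ) : False := by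
  obtain ⟨y₁, hy₁⟩ := eventually_atTop.1 hb
  set y₀ : ℝ := max y₁ 1 with hy₀
  have hp : 0 < y₀ := lt_of_lt_of_le one_pos (le_max_right _ _)
  obtain ⟨y, hy0, hy⟩ := htype σ hσ (‖s ((y₀ : ℂ) * I)‖ + Real.exp (1 / 2 * y₀))
  have he : 1 ≤ Real.exp (σ * y) := Real.one_le_exp (mul_nonneg hσ0 hy0)
  rcases le_or_gt y₀ y with hc | hc
  · have h1 := growth_upper hs h ha hp (fun t ht => hy₁ t ((le_max_left _ _).trans ht)) y hc
    have h2 : Real.exp (σ * (y - y₀)) ≤ Real.exp (σ * y) :=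
      Real.exp_le_exp.2 (mul_le_mul_of_nonneg_left (by linarith) hσ0)
    have h3 := mul_le_mul_of_nonneg_left h2 (norm_nonneg (s ((y₀ : ℂ) * I)))
    have h4 := mul_nonneg (Real.exp_pos (1 / 2 * y₀)).le (Real.exp_pos (σ * y)).le
    linarith
  · have h1 := hs.b.imag_le hy0
    have h2 : Real.exp (1 / 2 * y) ≤ Real.exp (1 / 2 * y₀) :=
      Real.exp_le_exp.2 (by linarith)
    have h3 : Real.exp (1 / 2 * y₀) * 1 ≤ Real.exp (1 / 2 * y₀) * Real.exp (σ * y) :=
      mul_le_mul_of_nonneg_left he (Real.exp_pos _).le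
    have h4 := mul_nonneg (norm_nonneg (s ((y₀ : ℂ) * I))) (Real.exp_pos (σ * y)).le
    linarith

theorem deg_lower {s : ℂ → ℂ} {B A : ℝ} (hs : IsE (1 / 2) 1 s) (h : EvenRR s B A) {a : ℂ} (ha : s a = 0)
    {σ : ℝ} (hσ : 1 / 2 < σ)
    (hb : ∀ᶠ y : ℝ in atTop, σ ≤ ‖deriv s ((y : ℂ) * I) / s ((y : ℂ) * I)‖) : False := by
  obtain ⟨y₁, hy₁⟩ := eventually_atTop.1 hb
  set y₀ : ℝ := max y₁ 1 with hy₀
  have hp : 0 < y₀ := lt_of_lt_of_le one_pos (le_max_right _ _)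
  have hs0 : 0 < ‖s ((y₀ : ℂ) * I)‖ := by
    rw [norm_pos_iff]
    intro h0
    have := h.real _ h0
    simp at this
    exact hp.ne' this
  have h1 : ∀ y, y₀ ≤ y → ‖s ((y₀ : ℂ) * I)‖ * Real.exp (-(σ * y₀)) * Real.exp ((σ - 1 / 2) * y) ≤ 1 := by
    intro y hy
    have h2 := growth_lower hs h ha hp (fun t ht => hy₁ t ((le_max_left _ _).trans ht)) y hy
    have h3 := hs.b.imag_le (hp.le.trans hy)
    rw [one_mul] at h3
    have h4 : ‖s ((y₀ : ℂ) * I)‖ * Real.exp (σ * (y - y₀)) ≤ Real.exp (1 / 2 * y) := h2.trans h3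
    have h5 : Real.exp (σ * (y - y₀)) =
        Real.exp (-(σ * y₀)) * Real.exp ((σ - 1 / 2) * y) * Real.exp (1 / 2 * y) := by
      rw [← Real.exp_add, ← Real.exp_add]; congr 1; ring
    rw [h5] at h4
    have h6 : 0 < Real.exp (1 / 2 * y) := Real.exp_pos _
    by_contra hcon
    push Not at hcon
    have := mul_lt_mul_of_pos_right hcon h6
    linarith
  have h2 : Tendsto (fun y : ℝ => ‖s ((y₀ : ℂ) * I)‖ * Real.exp (-(σ * y₀)) *
      Real.exp ((σ - 1 / 2) * y)) atTop atTop := by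
    refine Tendsto.const_mul_atTop (mul_pos hs0 (Real.exp_pos _)) ?_
    exact Real.tendsto_exp_atTop.comp (tendsto_id.const_mul_atTop (by linarith))
  obtain ⟨y, hy1, hy2⟩ := ((h2.eventually_gt_atTop 1).and (eventually_ge_atTop y₀)).exists
  exact absurd (h1 y hy2) (not_le.2 hy1)

theorem degree_lc {s : ℂ → ℂ} {B A : ℝ} (hs : IsE (1 / 2) 1 s) (h : EvenRR s B A) {a : ℂ}
    (ha : s a = 0) {P R : Polynomial ℂ} (hP : P.Monic)
    (hR : ∀ z, (1 - s z ^ 2) * P.eval z ^ 2 = R.eval z * deriv s z ^ 2)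
    (htype : ∀ σ : ℝ, σ < 1 / 2 → ∀ C : ℝ, ∃ y : ℝ, 0 ≤ y ∧
      C * Real.exp (σ * y) < ‖s ((y : ℂ) * I)‖) :
    R.natDegree = 2 * P.natDegree ∧ R.leadingCoeff = 4 := by
  have hinf := tendsto_norm_atTop hs h ha
  have hR0 : R ≠ 0 := by
    rintro rfl
    obtain ⟨y, hy1, hy2⟩ := ((hinf.eventually_gt_atTop 1).and (eventually_eval_ne hP.ne_zero)).exists
    have h1 := hR ((y : ℂ) * I)
    rw [Polynomial.eval_zero, zero_mul] at h1
    rcases mul_eq_zero.1 h1 with h2 | h2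
    · have h3 : s ((y : ℂ) * I) ^ 2 = 1 := by linear_combination -h2
      have h4 : ‖s ((y : ℂ) * I)‖ ^ 2 = 1 := by rw [← norm_pow, h3, norm_one]
      nlinarith
    · exact hy2 (pow_eq_zero_iff two_ne_zero |>.1 h2)
  -- the key identity
  have hkey : ∀ᶠ y : ℝ in atTop, ‖deriv s ((y : ℂ) * I) / s ((y : ℂ) * I)‖ ^ 2 =
      ‖1 - 1 / s ((y : ℂ) * I) ^ 2‖ *
        (‖P.eval ((y : ℂ) * I)‖ ^ 2 / ‖R.eval ((y : ℂ) * I)‖) := by
    filter_upwards [hinf.eventually_gt_atTop 1, eventually_eval_ne hR0] with y hy1 hy2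
    have hs0 : s ((y : ℂ) * I) ≠ 0 := norm_pos_iff.1 (by linarith)
    have h1 := hR ((y : ℂ) * I)
    have h2 : (deriv s ((y : ℂ) * I) / s ((y : ℂ) * I)) ^ 2 =
        (-(1 - 1 / s ((y : ℂ) * I) ^ 2)) * (P.eval ((y : ℂ) * I) ^ 2 / R.eval ((y : ℂ) * I)) := by
      field_simp
      linear_combination -h1
    rw [← norm_pow, h2, norm_mul, norm_neg, norm_div, norm_pow]
  have hone : Tendsto (fun y : ℝ => ‖1 - 1 / s ((y : ℂ) * I) ^ 2‖) atTop (𝓝 1) := by
    have h1 : Tendsto (fun y : ℝ => 1 / s ((y : ℂ) * I) ^ 2) atTop (𝓝 0) := by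
      rw [tendsto_zero_iff_norm_tendsto_zero]
      simp_rw [norm_div, norm_one, norm_pow]
      have h2 : Tendsto (fun y : ℝ => ‖s ((y : ℂ) * I)‖ ^ 2) atTop atTop :=
        (tendsto_pow_atTop two_ne_zero).comp hinf
      have h3 := h2.inv_tendsto_atTop
      refine h3.congr fun y => ?_
      simp
    have h2 := (tendsto_const_nhds (x := (1 : ℂ)).sub h1).norm
    simpa using h2
  have hnn : ∀ y : ℝ, 0 ≤ ‖deriv s ((y : ℂ) * I) / s ((y : ℂ) * I)‖ := fun y => norm_nonneg _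
  -- degrees
  have hdeg : R.natDegree = 2 * P.natDegree := by
    rcases lt_trichotomy R.natDegree (2 * P.natDegree) with hlt | heq | hgt
    · exfalso
      have h1 := hone.pos_mul_atTop one_pos (tendsto_ratio_atTop hR0 hP hlt)
      apply deg_lower hs h ha (σ := 1) (by norm_num)
      filter_upwards [hkey, h1.eventually_ge_atTop 1] with y hy1 hy2
      rw [← hy1] at hy2
      nlinarith [hnn y]
    · exact heq
    · exfalso
      have h1 := hone.mul (tendsto_ratio_zero hP hgt)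
      rw [mul_zero] at h1
      apply deg_upper hs h ha htype (σ := 1 / 4) (by norm_num) (by norm_num)
      filter_upwards [hkey, h1.eventually_le_const (show (0 : ℝ) < 1 / 16 by norm_num)] with y hy1 hy2
      rw [← hy1] at hy2
      nlinarith [hnn y]
  refine ⟨hdeg, ?_⟩
  have hlc0 : R.leadingCoeff ≠ 0 := Polynomial.leadingCoeff_ne_zero.2 hR0
  have hrat := tendsto_ratio hP hdeg
  -- norm of the leading coefficient
  have hlim : Tendsto (fun y : ℝ => ‖P.eval ((y : ℂ) * I)‖ ^ 2 / ‖R.eval ((y : ℂ) * I)‖) atTop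
      (𝓝 (‖R.leadingCoeff‖⁻¹)) := by
    have h1 := (hrat.norm).inv₀ (norm_ne_zero_iff.2 hlc0)
    refine h1.congr fun y => ?_
    rw [norm_div, norm_pow, inv_div]
  have hL := hone.mul hlim
  rw [one_mul] at hL
  have hL2 : Tendsto (fun y : ℝ => ‖deriv s ((y : ℂ) * I) / s ((y : ℂ) * I)‖ ^ 2) atTop
      (𝓝 (‖R.leadingCoeff‖⁻¹)) := hL.congr' (hkey.mono fun y hy => hy.symm)
  have hnorm : ‖R.leadingCoeff‖⁻¹ = 1 / 4 := by
    rcases lt_trichotomy (‖R.leadingCoeff‖⁻¹) (1 / 4) with hlt | heq | hgt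
    · exfalso
      obtain ⟨t, ht1, ht2⟩ := exists_between hlt
      have ht0 : 0 ≤ t := (inv_nonneg.2 (norm_nonneg _)).trans ht1.le
      have hst : Real.sqrt t < 1 / 2 := by
        rw [Real.sqrt_lt' (by norm_num)]; linarith
      apply deg_upper hs h ha htype (σ := Real.sqrt t) (Real.sqrt_nonneg _) hst
      filter_upwards [hL2.eventually_le_const ht1] with y hy
      exact Real.le_sqrt_of_sq_le hy
    · exact heq
    · exfalso
      obtain ⟨t, ht1, ht2⟩ := exists_between hgt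
      have hst : 1 / 2 < Real.sqrt t := by
        rw [Real.lt_sqrt (by norm_num)]; linarith
      apply deg_lower hs h ha (σ := Real.sqrt t) hst
      filter_upwards [hL2.eventually (lt_mem_nhds ht2)] with y hy
      exact Real.sqrt_le_iff.2 ⟨hnn y, hy.le⟩
  have hnorm' : ‖R.leadingCoeff‖ = 4 := by
    have h1 := congrArg (fun t : ℝ => t⁻¹) hnorm
    simp only [inv_inv] at h1
    rw [h1]; norm_num
  -- positivity
  have hposR : ∀ᶠ y : ℝ in atTop,
      R.eval ((y : ℂ) * I) / P.eval ((y : ℂ) * I) ^ 2 ∈ {w : ℂ | 0 ≤ w.re ∧ w.im = 0} := by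
    filter_upwards [hinf.eventually_gt_atTop 1, eventually_eval_ne hR0,
      eventually_eval_ne hP.ne_zero] with y hy1 hy2 hy3
    have h1 := hR ((y : ℂ) * I)
    obtain ⟨u, hu⟩ : ∃ u : ℝ, s ((y : ℂ) * I) = u :=
      ⟨(s ((y : ℂ) * I)).re, Complex.ext (by simp) (by simpa using deg_s_real hs y)⟩
    obtain ⟨v, hv⟩ : ∃ v : ℝ, deriv s ((y : ℂ) * I) = v * I :=
      ⟨(deriv s ((y : ℂ) * I)).im, Complex.ext (by simpa using deg_d_imag hs y) (by simp)⟩
    rw [hu] at hy1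
    have hu2 : 1 < u ^ 2 := by
      rw [Complex.norm_real, Real.norm_eq_abs] at hy1
      rw [← sq_abs]; nlinarith
    rw [hu, hv] at h1
    have hv0 : v ≠ 0 := by
      intro hv0
      rw [hv0] at h1
      simp only [Complex.ofReal_zero, zero_mul, ne_eq, OfNat.ofNat_ne_zero, not_false_eq_true,
        zero_pow, mul_zero] at h1
      rcases mul_eq_zero.1 h1 with h2 | h2
      · have h3 : ((1 - u ^ 2 : ℝ) : ℂ) = 0 := by push_cast; exact h2
        have h4 : 1 - u ^ 2 = 0 := by exact_mod_cast h3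
        linarith
      · exact hy3 (pow_eq_zero_iff two_ne_zero |>.1 h2)
    have hvC : (v : ℂ) ≠ 0 := by exact_mod_cast hv0
    have h2 : R.eval ((y : ℂ) * I) / P.eval ((y : ℂ) * I) ^ 2 = (((u ^ 2 - 1) / v ^ 2 : ℝ) : ℂ) := by
      push_cast
      rw [div_eq_div_iff (pow_ne_zero _ hy3) (pow_ne_zero _ hvC)]
      have h3 : ((v : ℂ) * I) ^ 2 = -(v : ℂ) ^ 2 := by rw [mul_pow, I_sq]; ring
      rw [h3] at h1
      linear_combination h1
    rw [h2]
    exact ⟨by rw [Complex.ofReal_re]; exact div_nonneg (by linarith) (sq_nonneg v), Complex.ofReal_im _⟩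
  have hcl : IsClosed {w : ℂ | 0 ≤ w.re ∧ w.im = 0} :=
    (isClosed_le continuous_const Complex.continuous_re).inter
      (isClosed_eq Complex.continuous_im continuous_const)
  have hmem := hcl.mem_of_tendsto hrat hposR
  have h1 : R.leadingCoeff = ((R.leadingCoeff.re : ℝ) : ℂ) :=
    Complex.ext (by simp) (by simpa using hmem.2)
  have h2 : R.leadingCoeff.re = 4 := by
    rw [h1, Complex.norm_real, Real.norm_eq_abs, abs_of_nonneg hmem.1] at hnorm'
    exact hnorm'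
  rw [h1, h2]
  norm_num

end Helper22.PA
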