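import Pool.Agent.Helper22.PA.Crit
import Pool.Agent.Helper30.FG.Defs

/-!
[PA-Good] Good abscissas. Cauchy estimates on discs of radius 1 around real points: `‖s‖ ≤ e^{1/2}`
there, so `‖s'‖, ‖s''‖, ‖s'''‖ ≤ C₀` on the real axis (and in the strip `|Im z| ≤ 1`). Let `k ≥ max R₀ 1`
be a critical point with `‖s k‖ ≥ 1`; by `EvenRR.crit_second`, `‖s''(k)‖ ≥ 1/‖k - a‖ ^ 2 ≥ c₁/k ^ 2`. With
`x = k + δ`, `δ = c₂/k ^ 2` (`c₂` small): `‖s'(x)‖ ≥ δ ‖s''(k)‖ - C₀ δ ^ 2 ≥ c/k ^ 4 ≥ c/x ^ 4` and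
`‖s x‖ ≥ 1 - C₀ δ ≥ 1/2`. second_bound: bound for `s''` in the strip.
-/

open Complex Filter Topology Metric Set

namespace Helper22.PA

open Pool.Agent.Helper30.FG

namespace Good

private theorem diff_deriv {f : ℂ → ℂ} (hf : Differentiable ℂ f) : Differentiable ℂ (deriv f) :=
  differentiableOn_univ.1 ((differentiableOn_univ.2 hf).deriv isOpen_univ)

private theorem strip_deriv {f : ℂ → ℂ} (hf : Differentiable ℂ f) {b C : ℝ}
    (hb : ∀ z : ℂ, |z.im| ≤ b + 1 → ‖f z‖ ≤ C) (z : ℂ) (hz : |z.im| ≤ b) :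
    ‖deriv f z‖ ≤ C := by
  have h1 := Complex.norm_deriv_le_of_forall_mem_sphere_norm_le (c := z) (R := 1) (C := C)
    (f := f) one_pos hf.diffContOnCl (fun w hw => by
      refine hb w ?_
      have h2 : ‖w - z‖ = 1 := by simpa [dist_eq_norm] using hw
      have h3 : |(w - z).im| ≤ 1 := h2 ▸ Complex.abs_im_le_norm (w - z)
      have h4 : w.im = z.im + (w - z).im := by simp
      rw [h4]
      exact (abs_add_le _ _).trans (add_le_add hz h3))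
  simpa using h1

private theorem mvt {f : ℂ → ℂ} (hf : Differentiable ℂ f) {k : ℂ} {δ M : ℝ}
    (hM : ∀ w ∈ closedBall k δ, ‖deriv f w‖ ≤ M) {x : ℂ} (hx : x ∈ closedBall k δ)
    (hδ : 0 ≤ δ) : ‖f x - f k‖ ≤ M * ‖x - k‖ :=
  (convex_closedBall k δ).norm_image_sub_le_of_norm_deriv_le (fun w _ => hf w) hM
    (mem_closedBall_self hδ) hx

end Good

open Good in
theorem second_bound {s : ℂ → ℂ} (hs : IsE (1 / 2) 1 s) : ∃ C : ℝ, 0 < C ∧
    ∀ z : ℂ, |z.im| ≤ 1 → ‖s z‖ ≤ C ∧ ‖deriv s z‖ ≤ C ∧ ‖deriv (deriv s) z‖ ≤ C ∧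
      ‖deriv (deriv (deriv s)) z‖ ≤ C := by
  have d0 : Differentiable ℂ s := hs.b.diff
  have d1 := diff_deriv d0
  have d2 := diff_deriv d1
  have b0 : ∀ z : ℂ, |z.im| ≤ 1 + 1 + 1 + 1 → ‖s z‖ ≤ Real.exp 2 := by
    intro z hz
    refine (hs.b.bd z).trans ?_
    rw [one_mul]
    apply Real.exp_le_exp.2
    linarith
  have b1 := strip_deriv d0 b0
  have b2 := strip_deriv d1 b1
  have b3 := strip_deriv d2 b2
  exact ⟨Real.exp 2, Real.exp_pos 2, fun z hz =>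
    ⟨b0 z (by linarith), b1 z (by linarith), b2 z (by linarith), b3 z hz⟩⟩

open Good in
theorem good_points {s : ℂ → ℂ} {B A : ℝ} (hs : IsE (1 / 2) 1 s) (h : EvenRR s B A) {a : ℂ}
    (ha : s a = 0)
    (hinf : ∀ R₀ : ℝ, ∃ k : ℝ, R₀ ≤ k ∧ deriv s (k : ℂ) = 0 ∧ 1 ≤ ‖s (k : ℂ)‖) :
    ∃ c : ℝ, 0 < c ∧ ∀ R₀ : ℝ, ∃ x : ℝ, R₀ ≤ x ∧ 1 ≤ x ∧ 1 / 2 ≤ ‖s (x : ℂ)‖ ∧
      c / x ^ 4 ≤ ‖deriv s (x : ℂ)‖ := by
  obtain ⟨C, hC0, hC⟩ := second_bound hs
  have d0 : Differentiable ℂ s := hs.b.diff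
  have d1 := diff_deriv d0
  have d2 := diff_deriv d1
  have hC1 : 1 ≤ C := by
    obtain ⟨k, _, _, hk⟩ := hinf 0
    exact hk.trans (hC k (by simp)).1
  set m : ℝ := 1 + ‖a‖ with hm
  have hm1 : 1 ≤ m := by rw [hm]; linarith [norm_nonneg a]
  set c₁ : ℝ := 1 / m ^ 2 with hc1
  have hm2 : 1 ≤ m ^ 2 := one_le_pow₀ hm1
  have hc1p : 0 < c₁ := by positivity
  have hc1l : c₁ ≤ 1 := by
    rw [hc1, div_le_one (by positivity)]
    exact hm2
  set c₂ : ℝ := c₁ / (2 * C) with hc2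
  have hc2p : 0 < c₂ := by positivity
  have hCc2 : C * c₂ = c₁ / 2 := by
    rw [hc2]; field_simp
  have hc2l : c₂ ≤ 1 := by nlinarith
  refine ⟨c₁ * c₂ / 2, by positivity, fun R₀ => ?_⟩
  obtain ⟨k, hk1, hk2, hk3⟩ := hinf (max R₀ 1)
  have hkR : R₀ ≤ k := (le_max_left _ _).trans hk1
  have hk1' : 1 ≤ k := (le_max_right _ _).trans hk1
  have hkp : 0 < k := by linarith
  have hkk : 1 ≤ k ^ 2 := one_le_pow₀ hk1'
  have hka : (k : ℂ) ≠ a := by
    intro h1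
    rw [h1, ha, norm_zero] at hk3
    linarith
  have hkap : 0 < ‖(k : ℂ) - a‖ := norm_pos_iff.2 (sub_ne_zero.2 hka)
  have hkal : ‖(k : ℂ) - a‖ ≤ m * k := by
    have h1 : ‖(k : ℂ) - a‖ ≤ ‖(k : ℂ)‖ + ‖a‖ := norm_sub_le _ _
    have h2 : ‖(k : ℂ)‖ = k := by
      rw [Complex.norm_real, Real.norm_of_nonneg hkp.le]
    rw [h2] at h1
    rw [hm]
    nlinarith [norm_nonneg a]
  have hsec : c₁ / k ^ 2 ≤ ‖deriv (deriv s) k‖ := by
    refine le_trans ?_ (h.crit_second ha hk2)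
    rw [hc1, div_div]
    apply div_le_div₀ (norm_nonneg _) hk3 (by positivity)
    rw [← mul_pow]
    exact pow_le_pow_left₀ hkap.le hkal 2
  set δ : ℝ := c₂ / k ^ 2 with hδ
  have hδ0 : 0 < δ := by positivity
  have hδc : δ ≤ c₂ := div_le_self hc2p.le hkk
  have hδ1 : δ ≤ 1 := hδc.trans hc2l
  have him : ∀ w ∈ closedBall (k : ℂ) δ, |w.im| ≤ 1 := by
    intro w hw
    have h2 : ‖w - k‖ ≤ δ := by simpa [dist_eq_norm] using hw
    have h3 := Complex.abs_im_le_norm (w - k)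
    have h4 : (w - k).im = w.im := by simp
    rw [h4] at h3
    linarith
  have hxk : ((k + δ : ℝ) : ℂ) - k = (δ : ℂ) := by push_cast; ring
  have hxn : ‖((k + δ : ℝ) : ℂ) - k‖ = δ := by
    rw [hxk, Complex.norm_real, Real.norm_of_nonneg hδ0.le]
  have hxm : ((k + δ : ℝ) : ℂ) ∈ closedBall (k : ℂ) δ := by
    rw [mem_closedBall, dist_eq_norm, hxn]
  refine ⟨k + δ, by linarith, by linarith, ?_, ?_⟩
  · have h1 := mvt d0 (fun w hw => (hC w (him w hw)).2.1) hxm hδ0.le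
    rw [hxn] at h1
    have h2 := norm_sub_norm_le (s k) (s ((k + δ : ℝ) : ℂ))
    rw [norm_sub_rev] at h2
    have h3 : C * δ ≤ 1 / 2 := by
      calc C * δ ≤ C * c₂ := mul_le_mul_of_nonneg_left hδc hC0.le
        _ = c₁ / 2 := hCc2
        _ ≤ 1 / 2 := by linarith
    linarith
  · have hb2 : ∀ w ∈ closedBall (k : ℂ) δ, ‖deriv (deriv s) w - deriv (deriv s) k‖ ≤ C * δ := by
      intro w hw
      have h1 := mvt d2 (fun w hw => (hC w (him w hw)).2.2.2) hw hδ0.le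
      have h2 : ‖w - k‖ ≤ δ := by simpa [dist_eq_norm] using hw
      exact h1.trans (mul_le_mul_of_nonneg_left h2 hC0.le)
    have dg : Differentiable ℂ fun w : ℂ => deriv s w - deriv (deriv s) k * w :=
      d1.sub (differentiable_id.const_mul _)
    have hg' : ∀ w : ℂ, deriv (fun w : ℂ => deriv s w - deriv (deriv s) k * w) w =
        deriv (deriv s) w - deriv (deriv s) k := by
      intro w
      have h1 := (d1 w).hasDerivAt.sub ((hasDerivAt_id w).const_mul (deriv (deriv s) k))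
      rw [mul_one] at h1
      exact h1.deriv
    have h1 := mvt dg (fun w hw => by rw [hg' w]; exact hb2 w hw) hxm hδ0.le
    rw [hxn] at h1
    have h2 : deriv s ((k + δ : ℝ) : ℂ) - deriv (deriv s) k * ((k + δ : ℝ) : ℂ) -
        (deriv s k - deriv (deriv s) k * k) =
        deriv s ((k + δ : ℝ) : ℂ) - deriv (deriv s) k * (δ : ℂ) := by
      rw [hk2, ← hxk]; ring
    rw [h2] at h1
    have h3 : ‖deriv (deriv s) k * (δ : ℂ)‖ = ‖deriv (deriv s) k‖ * δ := by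
      rw [norm_mul, Complex.norm_real, Real.norm_of_nonneg hδ0.le]
    have h4 := norm_sub_norm_le (deriv (deriv s) k * (δ : ℂ)) (deriv s ((k + δ : ℝ) : ℂ))
    rw [norm_sub_rev, h3] at h4
    have h5 : c₁ / k ^ 2 * δ ≤ ‖deriv (deriv s) k‖ * δ := mul_le_mul_of_nonneg_right hsec hδ0.le
    have h6 : C * δ = c₁ / k ^ 2 / 2 := by
      rw [hδ, ← mul_div_assoc, hCc2]; ring
    have h7 : c₁ / k ^ 2 * δ - C * δ * δ = c₁ * c₂ / 2 / k ^ 4 := by
      rw [h6, hδ]; field_simp; ring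
    have h8 : c₁ * c₂ / 2 / (k + δ) ^ 4 ≤ c₁ * c₂ / 2 / k ^ 4 := by
      apply div_le_div_of_nonneg_left (by positivity) (by positivity)
      exact pow_le_pow_left₀ hkp.le (by linarith) 4
    linarith

end Helper22.PA
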