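import Pool.Agent.Helper22.PA.Crit
import Pool.Agent.Helper30.FG.Defs

/-!
[PA-Growth] On the imaginary axis `S(y) = s(iy)` is real and never 0 (the zeros of `s` are real and
`s 0 ≠ 0`); `S'(y) = i s'(iy)`; `S'/S = -Im (s'/s)(iy) ≥ 0` for `y > 0` (`EvenRR.logDeriv_im`) and
`S'/S = ‖s'/s‖` since `s'(iy)/s(iy)` is purely imaginary. So `‖s(iy)‖ exp(-σ y)` is monotone.
tendsto_atTop: `EvenRR.norm_ge` with `z = iy`.
-/

open Complex Filter Topology Metric Set

namespace Helper22.PA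

open Pool.Agent.Helper30.FG

namespace GrowthAux

open scoped ComplexConjugate

private lemma conj_fun {s : ℂ → ℂ} (hs : IsE (1 / 2) 1 s) : (conj : ℂ → ℂ) ∘ s ∘ conj = s := by
  have hd : Differentiable ℂ s := hs.b.diff
  have hg : Differentiable ℂ ((conj : ℂ → ℂ) ∘ s ∘ conj) := by
    intro w
    rw [differentiableAt_conj_conj_iff]
    exact hd _
  have hg' := analyticOnNhd_of_entire hg
  have hd' := analyticOnNhd_of_entire hd
  have hfreq : ∃ᶠ z in 𝓝[≠] (0:ℂ), ((conj : ℂ → ℂ) ∘ s ∘ conj) z = s z := by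
    have ht : Tendsto (fun x : ℝ => (x : ℂ)) (𝓝[≠] (0:ℝ)) (𝓝[≠] (0:ℂ)) := by
      refine tendsto_nhdsWithin_of_tendsto_nhds_of_eventually_within _ ?_ ?_
      · have := Complex.continuous_ofReal.tendsto (0:ℝ)
        rw [Complex.ofReal_zero] at this
        exact this.mono_left nhdsWithin_le_nhds
      · filter_upwards [self_mem_nhdsWithin] with x hx
        simpa using hx
    refine ht.frequently (Eventually.frequently (Eventually.of_forall fun x => ?_))
    simp only [Function.comp_apply, Complex.conj_ofReal]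
    exact Complex.conj_eq_iff_im.2 (hs.real x)
  have := hg'.eqOn_of_preconnected_of_frequently_eq hd' isPreconnected_univ (mem_univ 0) hfreq
  funext z
  exact this (mem_univ z)

private lemma conj_mul_I (y : ℝ) : (conj ((y : ℂ) * I) : ℂ) = -((y : ℂ) * I) := by
  simp

private lemma val_real {s : ℂ → ℂ} (hs : IsE (1 / 2) 1 s) (y : ℝ) : (s ((y : ℂ) * I)).im = 0 := by
  have h := congrFun (conj_fun hs) ((y : ℂ) * I)
  simp only [Function.comp_apply] at h
  rw [conj_mul_I, hs.even] at h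
  exact Complex.conj_eq_iff_im.1 h

private lemma deriv_odd' {s : ℂ → ℂ} (he : ∀ z, s (-z) = s z) (z : ℂ) :
    deriv s (-z) = - deriv s z := by
  have h1 : (fun z => s (-z)) = s := funext he
  have h2 : deriv (fun z => s (-z)) z = - deriv s (-z) := deriv_comp_neg s z
  rw [h1] at h2
  rw [h2, neg_neg]

private lemma der_im {s : ℂ → ℂ} (hs : IsE (1 / 2) 1 s) (y : ℝ) :
    (deriv s ((y : ℂ) * I)).re = 0 := by
  have h0 : deriv ((conj : ℂ → ℂ) ∘ s ∘ conj) = (conj : ℂ → ℂ) ∘ deriv s ∘ conj := deriv_conj_conj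
  rw [conj_fun hs] at h0
  have h := congrFun h0 ((y : ℂ) * I)
  simp only [Function.comp_apply] at h
  rw [conj_mul_I, deriv_odd' hs.even, map_neg] at h
  have h1 := congrArg Complex.re h
  rw [Complex.neg_re, Complex.conj_re] at h1
  linarith

private lemma val_ne {s : ℂ → ℂ} {B A : ℝ} (h : EvenRR s B A) (y : ℝ) :
    s ((y : ℂ) * I) ≠ 0 := by
  intro h0
  have h1 := h.real _ h0
  have h2 : y = 0 := by simpa using h1
  rw [h2] at h0
  simp only [Complex.ofReal_zero, zero_mul] at h0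
  exact h.nz h0

/-- the derivative of the logarithm of `|s(iy)|` -/
private lemma hasDerivAt_log {s : ℂ → ℂ} {B A : ℝ} (hs : IsE (1 / 2) 1 s) (h : EvenRR s B A)
    {a : ℂ} (ha : s a = 0) {y : ℝ} (hy : 0 < y) :
    HasDerivAt (fun u : ℝ => Real.log ((s ((u : ℂ) * I)).re))
      ‖deriv s ((y : ℂ) * I) / s ((y : ℂ) * I)‖ y := by
  have hne := val_ne h y
  have him := val_real hs y
  have hre := der_im hs y
  have h1 : HasDerivAt (fun u : ℝ => (u : ℂ) * I) I y := by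
    have := (Complex.ofRealCLM.hasDerivAt (x := y)).mul_const I
    simpa using this
  have h2 : HasDerivAt s (deriv s ((y : ℂ) * I)) ((y : ℂ) * I) := (h.diff _).hasDerivAt
  have h3 : HasDerivAt (fun u : ℝ => s ((u : ℂ) * I)) (deriv s ((y : ℂ) * I) * I) y :=
    h2.comp y h1
  have h4 : HasDerivAt (fun u : ℝ => (s ((u : ℂ) * I)).re) (deriv s ((y : ℂ) * I) * I).re y := by
    have := (Complex.reCLM.hasFDerivAt (x := s ((y : ℂ) * I))).comp_hasDerivAt y h3
    exact this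
  have hre0 : (s ((y : ℂ) * I)).re ≠ 0 := by
    intro h5
    exact hne (Complex.ext h5 him)
  have h5 := h4.log hre0
  have hlog := h.logDeriv_im (z := (y : ℂ) * I) (a := a) (by simpa using hy) ha
  have hpos : 0 ≤ ((y : ℂ) * I).im / ‖(y : ℂ) * I - a‖ ^ 2 := by
    have : ((y : ℂ) * I).im = y := by simp
    rw [this]
    positivity
  -- the quotient is purely imaginary
  obtain ⟨p, hp⟩ : ∃ p : ℝ, s ((y : ℂ) * I) = (p : ℂ) :=
    ⟨(s ((y : ℂ) * I)).re, Complex.ext (by simp) (by simpa using him)⟩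
  obtain ⟨q, hq⟩ : ∃ q : ℝ, deriv s ((y : ℂ) * I) = (q : ℂ) * I :=
    ⟨(deriv s ((y : ℂ) * I)).im, Complex.ext (by simpa using hre) (by simp)⟩
  rw [hp, hq] at hlog h5 ⊢
  have e1 : (q : ℂ) * I / (p : ℂ) = ((q / p : ℝ) : ℂ) * I := by
    push_cast
    ring
  have e2 : (((q / p : ℝ) : ℂ) * I).im = q / p := by simp
  rw [e1] at hlog ⊢
  rw [e2] at hlog
  have e3 : ‖((q / p : ℝ) : ℂ) * I‖ = -(q / p) := by
    rw [norm_mul, Complex.norm_I, mul_one, Complex.norm_real, Real.norm_eq_abs, abs_of_nonpos]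
    linarith
  rw [e3]
  have e4 : ((q : ℂ) * I * I).re / ((p : ℂ)).re = -(q / p) := by
    rw [mul_assoc, Complex.I_mul_I]
    simp
    ring
  rw [← e4]
  exact h5

private lemma norm_eq {s : ℂ → ℂ} {B A : ℝ} (hs : IsE (1 / 2) 1 s) (h : EvenRR s B A) (y : ℝ) :
    ‖s ((y : ℂ) * I)‖ = Real.exp (Real.log ((s ((y : ℂ) * I)).re)) := by
  have hne := val_ne h y
  have him := val_real hs y
  have hre0 : (s ((y : ℂ) * I)).re ≠ 0 := by
    intro h5
    exact hne (Complex.ext h5 him)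
  obtain ⟨p, hp⟩ : ∃ p : ℝ, s ((y : ℂ) * I) = (p : ℂ) :=
    ⟨(s ((y : ℂ) * I)).re, Complex.ext (by simp) (by simpa using him)⟩
  rw [hp] at hre0 ⊢
  rw [Complex.ofReal_re] at hre0 ⊢
  rw [Complex.norm_real, Real.norm_eq_abs, ← Real.log_abs, Real.exp_log (abs_pos.2 hre0)]

end GrowthAux

open GrowthAux in
theorem growth_upper {s : ℂ → ℂ} {B A : ℝ} (hs : IsE (1 / 2) 1 s) (h : EvenRR s B A) {a : ℂ}
    (ha : s a = 0) {σ y₀ : ℝ} (hy₀ : 0 < y₀)
    (hb : ∀ y : ℝ, y₀ ≤ y → ‖deriv s ((y : ℂ) * I) / s ((y : ℂ) * I)‖ ≤ σ) (y : ℝ) (hy : y₀ ≤ y) :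
    ‖s ((y : ℂ) * I)‖ ≤ ‖s ((y₀ : ℂ) * I)‖ * Real.exp (σ * (y - y₀)) := by
  have hder : ∀ u : ℝ, y₀ ≤ u → HasDerivAt (fun u : ℝ => Real.log ((s ((u : ℂ) * I)).re))
      ‖deriv s ((u : ℂ) * I) / s ((u : ℂ) * I)‖ u := fun u hu =>
    hasDerivAt_log hs h ha (lt_of_lt_of_le hy₀ hu)
  have hmain := (convex_Ici y₀).image_sub_le_mul_sub_of_deriv_le
    (f := fun u : ℝ => Real.log ((s ((u : ℂ) * I)).re)) (C := σ)
    (fun u hu => (hder u hu).continuousAt.continuousWithinAt)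
    (fun u hu => (hder u (interior_subset hu)).differentiableAt.differentiableWithinAt)
    (fun u hu => by
      rw [(hder u (interior_subset hu)).deriv]
      exact hb u (interior_subset hu)) y₀ (mem_Ici.2 le_rfl) y (mem_Ici.2 hy) hy
  rw [norm_eq hs h y, norm_eq hs h y₀, ← Real.exp_add]
  refine Real.exp_le_exp.2 ?_
  linarith

open GrowthAux in
theorem growth_lower {s : ℂ → ℂ} {B A : ℝ} (hs : IsE (1 / 2) 1 s) (h : EvenRR s B A) {a : ℂ}
    (ha : s a = 0) {σ y₀ : ℝ} (hy₀ : 0 < y₀)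
    (hb : ∀ y : ℝ, y₀ ≤ y → σ ≤ ‖deriv s ((y : ℂ) * I) / s ((y : ℂ) * I)‖) (y : ℝ) (hy : y₀ ≤ y) :
    ‖s ((y₀ : ℂ) * I)‖ * Real.exp (σ * (y - y₀)) ≤ ‖s ((y : ℂ) * I)‖ := by
  have hder : ∀ u : ℝ, y₀ ≤ u → HasDerivAt (fun u : ℝ => Real.log ((s ((u : ℂ) * I)).re))
      ‖deriv s ((u : ℂ) * I) / s ((u : ℂ) * I)‖ u := fun u hu =>
    hasDerivAt_log hs h ha (lt_of_lt_of_le hy₀ hu)
  have hmain := (convex_Ici y₀).mul_sub_le_image_sub_of_le_deriv
    (f := fun u : ℝ => Real.log ((s ((u : ℂ) * I)).re)) (C := σ)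
    (fun u hu => (hder u hu).continuousAt.continuousWithinAt)
    (fun u hu => (hder u (interior_subset hu)).differentiableAt.differentiableWithinAt)
    (fun u hu => by
      rw [(hder u (interior_subset hu)).deriv]
      exact hb u (interior_subset hu)) y₀ (mem_Ici.2 le_rfl) y (mem_Ici.2 hy) hy
  rw [norm_eq hs h y, norm_eq hs h y₀, ← Real.exp_add]
  refine Real.exp_le_exp.2 ?_
  linarith

theorem tendsto_norm_atTop {s : ℂ → ℂ} {B A : ℝ} (hs : IsE (1 / 2) 1 s) (h : EvenRR s B A)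
    {a : ℂ} (ha : s a = 0) : Tendsto (fun y : ℝ => ‖s ((y : ℂ) * I)‖) atTop atTop := by
  have ha0 := h.zero_ne ha
  have him := h.real a ha
  obtain ⟨b, rfl⟩ : ∃ b : ℝ, a = b := ⟨a.re, Complex.ext (by simp) (by simpa using him)⟩
  have hb : b ≠ 0 := by exact_mod_cast ha0
  have hF0 : 0 < ‖s 0‖ := norm_pos_iff.2 h.nz
  have hlow : ∀ y : ℝ, ‖s 0‖ * (1 + y ^ 2 / b ^ 2) ≤ ‖s ((y : ℂ) * I)‖ := by
    intro y
    have h1 := h.norm_ge (z := (y : ℂ) * I) (a := (b : ℂ)) (by simp) ha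
    have e1 : (1 - ((y : ℂ) * I) ^ 2 / (b : ℂ) ^ 2) = ((1 + y ^ 2 / b ^ 2 : ℝ) : ℂ) := by
      rw [mul_pow, Complex.I_sq]
      push_cast
      ring
    have h2 : 0 ≤ 1 + y ^ 2 / b ^ 2 := by positivity
    rw [e1, Complex.norm_real, Real.norm_eq_abs, abs_of_nonneg h2] at h1
    exact h1
  refine tendsto_atTop_mono hlow ?_
  refine Tendsto.const_mul_atTop hF0 ?_
  refine tendsto_atTop_add_const_left _ _ ?_
  refine Tendsto.atTop_div_const (by positivity) ?_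
  exact tendsto_pow_atTop (by norm_num)

end Helper22.PA
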