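import Pool.Agent.Helper22.PA.Prod
import Pool.Agent.Helper30.FG.Defs

/-!
[PA-Infinite] Infinitely many zeros and infinitely many critical points with `|s| ≥ 1`.
zeros_unbounded: otherwise the set of all zeros is finite (`s` is even, all zeros are real,
`finite_zeros`), so for large `r` the product `Pr s r` does not depend on `r` and
`EvenRR.tendsto_prod` gives `s z = s 0 * ∏ (1 - z/x)`: a polynomial, bounded on the real line
(`‖s x‖ ≤ 1`), hence constant, against `hnc`.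
crit_unbounded: Rolle for `x ↦ (s x).re` between two real zeros beyond `R₀` and beyond the finite
set `K`; `deriv s x` is real for real `x`.
-/

open Complex Filter Topology Metric Set

namespace Helper22.PA

open Pool.Agent.Helper30.FG

theorem zeros_unbounded {s : ℂ → ℂ} {B A : ℝ} (hs : IsE (1 / 2) 1 s) (h : EvenRR s B A)
    (hnc : ∃ z, s z ≠ s 0) (R₀ : ℝ) : ∃ x : ℝ, R₀ ≤ x ∧ s (x : ℂ) = 0 := by
  by_contra hcon
  push Not at hcon
  have hz : ∀ z, s z = 0 → ‖z‖ ≤ |R₀| := by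
    intro z hz
    obtain ⟨b, rfl⟩ : ∃ b : ℝ, z = b :=
      ⟨z.re, Complex.ext (by simp) (by simpa using h.real z hz)⟩
    have h1 : b < R₀ := by
      by_contra h2
      exact hcon b (not_lt.1 h2) hz
    have h2 : -b < R₀ := by
      by_contra h3
      refine hcon (-b) (not_lt.1 h3) ?_
      push_cast
      rw [h.even]
      exact hz
    have h3 : ‖(b : ℂ)‖ = |b| := by simp
    rw [h3, abs_le]
    have h4 := le_abs_self R₀
    constructor <;> linarith
  have hZ : ∀ r, |R₀| ≤ r → Z s r = Z s |R₀| := by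
    intro r hr
    ext z
    rw [h.mem_Z, h.mem_Z]
    exact ⟨fun h1 => ⟨h1.1, hz z h1.1⟩, fun h1 => ⟨h1.1, h1.2.trans hr⟩⟩
  have hprod : ∀ z, s z = s 0 * Pr s |R₀| z := by
    intro z
    refine tendsto_nhds_unique (h.tendsto_prod z) ?_
    refine tendsto_const_nhds.congr' ?_
    filter_upwards [eventually_ge_atTop |R₀|] with r hr
    unfold Pr
    rw [hZ r hr]
  let P : Polynomial ℂ :=
    Polynomial.C (s 0) * ∏ x ∈ Z s |R₀|, (1 - Polynomial.C x⁻¹ * Polynomial.X)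
  have hP : ∀ z, P.eval z = s z := by
    intro z
    rw [hprod z]
    unfold Pr
    simp only [P, Polynomial.eval_mul, Polynomial.eval_C, Polynomial.eval_prod,
      Polynomial.eval_sub, Polynomial.eval_one, Polynomial.eval_X]
    congr 1
    refine Finset.prod_congr rfl fun x _ => ?_
    rw [div_eq_mul_inv, mul_comm z]
  have hdeg : ¬ 0 < P.degree := by
    intro hd
    have h1 : Tendsto (fun x : ℝ => ‖(x : ℂ)‖) atTop atTop := by
      simpa using tendsto_abs_atTop_atTop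
    have h2 := P.tendsto_norm_atTop hd h1
    obtain ⟨x, hx⟩ := (h2.eventually_gt_atTop 1).exists
    rw [hP] at hx
    exact absurd (hs.b.real_le x) (not_le.2 hx)
  obtain ⟨z, hzn⟩ := hnc
  refine hzn ?_
  have h1 := Polynomial.eq_C_of_degree_le_zero (not_lt.1 hdeg)
  rw [← hP z, ← hP 0, h1]
  simp

theorem deriv_real {s : ℂ → ℂ} (hs : IsE (1 / 2) 1 s) (x : ℝ) : (deriv s (x : ℂ)).im = 0 := by
  have h1 := (hs.b.diff (x : ℂ)).hasDerivAt.comp_ofReal
  have h2 := Complex.imCLM.hasFDerivAt.comp_hasDerivAt x h1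
  have h3 : (Complex.imCLM ∘ fun y : ℝ => s (y : ℂ)) = fun _ => (0 : ℝ) := by
    funext y
    simpa using hs.real y
  rw [h3] at h2
  simpa using h2.unique (hasDerivAt_const x (0 : ℝ))

theorem crit_unbounded {s : ℂ → ℂ} {B A : ℝ} (hs : IsE (1 / 2) 1 s) (h : EvenRR s B A)
    (hnc : ∃ z, s z ≠ s 0)
    (hfin : {k : ℝ | deriv s (k : ℂ) = 0 ∧ ‖s (k : ℂ)‖ < 1}.Finite) (R₀ : ℝ) :
    ∃ k : ℝ, R₀ ≤ k ∧ deriv s (k : ℂ) = 0 ∧ 1 ≤ ‖s (k : ℂ)‖ := by
  obtain ⟨M, hM⟩ := hfin.bddAbove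
  obtain ⟨x₁, hx₁, hs₁⟩ := zeros_unbounded hs h hnc (max R₀ (M + 1))
  obtain ⟨x₂, hx₂, hs₂⟩ := zeros_unbounded hs h hnc (x₁ + 1)
  have hd : ∀ y : ℝ, HasDerivAt (fun y : ℝ => (s (y : ℂ)).re) (deriv s (y : ℂ)).re y := by
    intro y
    have h1 := (hs.b.diff (y : ℂ)).hasDerivAt.comp_ofReal
    have h2 := Complex.reCLM.hasFDerivAt.comp_hasDerivAt y h1
    simpa [Function.comp_def] using h2
  obtain ⟨c, hc, hc0⟩ := exists_hasDerivAt_eq_zero (f := fun y : ℝ => (s (y : ℂ)).re)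
    (f' := fun y : ℝ => (deriv s (y : ℂ)).re) (show x₁ < x₂ by linarith)
    (fun y _ => (hd y).continuousAt.continuousWithinAt) (by simp [hs₁, hs₂]) fun y _ => hd y
  have hcd : deriv s (c : ℂ) = 0 := Complex.ext (by simpa using hc0) (by simpa using deriv_real hs c)
  have h1 : max R₀ (M + 1) < c := lt_of_le_of_lt hx₁ hc.1
  refine ⟨c, (le_max_left _ _).trans h1.le, hcd, ?_⟩
  by_contra h2
  have h3 := hM (show c ∈ {k : ℝ | deriv s (k : ℂ) = 0 ∧ ‖s (k : ℂ)‖ < 1} from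
    ⟨hcd, not_le.1 h2⟩)
  have h4 := (le_max_right R₀ (M + 1)).trans_lt h1
  linarith

end Helper22.PA
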