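import Pool.Agent.Helper30.FG.A3

/-!
[PA-LevPoly] Levitan approximation by polynomials in `cos (z / (2m))`.

The functions `T n = A3.TT 1 g (n + n0)` of `Helper30/FG/A3.lean` (private there: copy that file, or use its
`levitan` with the period kept) have period `2 π N`, `N = n + n0`, so by the proof of `periodic_isTrig`
they are sums over `|k| ≤ N` of `c_k exp (i k z / N)`; even: `T z = ∑_{k=0}^{N} c'_k cos (k z / N)`,
`cos (k w) = aeval (cos w) (Chebyshev.T ℝ k)` (`Polynomial.Chebyshev.T_complex_cos`), real on the real axis: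
real coefficients. Take the subsequence with `N = 2 m` even.
-/

set_option autoImplicit false

namespace Helper22.PA

open Complex MeasureTheory Set Filter Topology Polynomial
open Pool.Agent.Helper30.FG

namespace LevPoly

/-- `sin u / u` -/
private noncomputable def cs (u : ℂ) : ℂ := dslope Complex.sin 0 u

private theorem cs_mul (u : ℂ) : cs u * u = Complex.sin u := by
  have h := sub_smul_dslope Complex.sin 0 u
  simp only [sub_zero, Complex.sin_zero, smul_eq_mul] at h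
  rw [cs, mul_comm]; exact h

private theorem cs_zero : cs 0 = 1 := by
  rw [cs, dslope_same, Complex.deriv_sin, Complex.cos_zero]

private theorem cs_of_ne {u : ℂ} (hu : u ≠ 0) : cs u = Complex.sin u / u := by
  rw [eq_div_iff hu, cs_mul]

private theorem cs_neg (u : ℂ) : cs (-u) = cs u := by
  by_cases hu : u = 0
  · rw [hu, neg_zero]
  · rw [cs_of_ne hu, cs_of_ne (neg_ne_zero.2 hu), Complex.sin_neg, neg_div_neg_eq]

private theorem cs_real (x : ℝ) : cs (x : ℂ) = ((Real.sinc x : ℝ) : ℂ) := by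
  by_cases hx : x = 0
  · rw [hx, Complex.ofReal_zero, cs_zero, Real.sinc_zero, Complex.ofReal_one]
  · rw [cs_of_ne (by exact_mod_cast hx), Real.sinc_of_ne_zero hx, Complex.ofReal_div,
      Complex.ofReal_sin]

private theorem cs_diff : Differentiable ℂ cs := by
  rw [← differentiableOn_univ]
  exact (Complex.differentiableOn_dslope univ_mem).2 Complex.differentiable_sin.differentiableOn

private theorem norm_cos_le' (s : ℂ) : ‖Complex.cos s‖ ≤ Real.exp |s.im| := by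
  have h : Complex.cos s = (Complex.exp (s * I) + Complex.exp (-s * I)) / 2 := rfl
  rw [h, norm_div]
  have h2 : ‖(2 : ℂ)‖ = 2 := by simp
  rw [h2, div_le_iff₀ (by norm_num)]
  refine (norm_add_le _ _).trans ?_
  rw [Complex.norm_exp, Complex.norm_exp]
  have e1 : (s * I).re = -s.im := by simp
  have e2 : (-s * I).re = s.im := by simp
  rw [e1, e2]
  have h3 : Real.exp (-s.im) ≤ Real.exp |s.im| := Real.exp_le_exp.2 (neg_le_abs _)
  have h4 : Real.exp (s.im) ≤ Real.exp |s.im| := Real.exp_le_exp.2 (le_abs_self _)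
  linarith

private theorem norm_sin_le' (s : ℂ) : ‖Complex.sin s‖ ≤ Real.exp |s.im| := by
  have h := norm_cos_le' ((Real.pi / 2 : ℝ) - s)
  have h1 : Complex.cos (((Real.pi / 2 : ℝ) : ℂ) - s) = Complex.sin s := by
    have := Complex.cos_pi_div_two_sub s
    simpa using this
  have h2 : ((((Real.pi / 2 : ℝ) : ℂ) - s)).im = -s.im := by simp
  rw [h1, h2, abs_neg] at h
  exact h

private theorem norm_sin_le_mul (u : ℂ) : ‖Complex.sin u‖ ≤ Real.exp |u.im| * ‖u‖ := by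
  have hconv : Convex ℝ {w : ℂ | |w.im| ≤ |u.im|} := by
    intro x hx y hy a b ha hb hab
    have hx' : |x.im| ≤ |u.im| := hx
    have hy' : |y.im| ≤ |u.im| := hy
    show |(a • x + b • y).im| ≤ |u.im|
    have h1 : (a • x + b • y).im = a * x.im + b * y.im := by simp
    rw [h1]
    calc |a * x.im + b * y.im| ≤ |a * x.im| + |b * y.im| := abs_add_le _ _
      _ = a * |x.im| + b * |y.im| := by rw [abs_mul, abs_mul, abs_of_nonneg ha, abs_of_nonneg hb]
      _ ≤ a * |u.im| + b * |u.im| := by gcongr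
      _ = |u.im| := by rw [← add_mul, hab, one_mul]
  have h := hconv.norm_image_sub_le_of_norm_hasDerivWithin_le (f := Complex.sin)
    (f' := Complex.cos) (C := Real.exp |u.im|) (x := 0) (y := u)
    (fun x _ => (Complex.hasDerivAt_sin x).hasDerivWithinAt)
    (fun x hx => (norm_cos_le' x).trans (Real.exp_le_exp.2 hx))
    (show |(0 : ℂ).im| ≤ |u.im| by simp) (show |u.im| ≤ |u.im| from le_rfl)
  simpa using h

private theorem norm_cs_le (u : ℂ) : ‖cs u‖ ≤ Real.exp |u.im| := by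
  by_cases hu : u = 0
  · rw [hu, cs_zero]; simp
  · have h := norm_sin_le_mul u
    rw [← cs_mul, norm_mul] at h
    exact le_of_mul_le_mul_right h (norm_pos_iff.2 hu)

/-- the terms -/
private noncomputable def tm (a : ℝ) (g : ℂ → ℂ) (N : ℝ) (m : ℤ) (z : ℂ) : ℂ :=
  g (((1 - 1 / (N * a) : ℝ) : ℂ) * (z + ((2 * Real.pi * N * m : ℝ) : ℂ))) *
    cs ((z + ((2 * Real.pi * N * m : ℝ) : ℂ)) / ((2 * N : ℝ) : ℂ)) ^ 2

section bounds

variable {a M N : ℝ} {g : ℂ → ℂ}

private theorem im_arg (z : ℂ) (m : ℤ) (N : ℝ) :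
    ((z + ((2 * Real.pi * N * m : ℝ) : ℂ)) / ((2 * N : ℝ) : ℂ)).im = z.im / (2 * N) := by
  rw [Complex.div_ofReal_im, Complex.add_im, Complex.ofReal_im, add_zero]

private theorem re_arg (z : ℂ) (m : ℤ) (hN : 0 < N) :
    ((z + ((2 * Real.pi * N * m : ℝ) : ℂ)) / ((2 * N : ℝ) : ℂ)).re
      = z.re / (2 * N) + Real.pi * m := by
  rw [Complex.div_ofReal_re, Complex.add_re, Complex.ofReal_re]
  field_simp

private theorem g_bd (ha : 0 < a) (hg : IsB a M g) (hN : 0 < N) (hNa : 1 ≤ N * a) (z : ℂ) (m : ℤ) :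
    ‖g (((1 - 1 / (N * a) : ℝ) : ℂ) * (z + ((2 * Real.pi * N * m : ℝ) : ℂ)))‖
      ≤ M * Real.exp ((a - 1 / N) * |z.im|) := by
  refine (hg.bd _).trans (le_of_eq ?_)
  have h0 : 0 ≤ 1 - 1 / (N * a) := by
    have : 1 / (N * a) ≤ 1 := by rw [div_le_one (by linarith)]; exact hNa
    linarith
  have h1 : (((1 - 1 / (N * a) : ℝ) : ℂ) * (z + ((2 * Real.pi * N * m : ℝ) : ℂ))).im
      = (1 - 1 / (N * a)) * z.im := by
    rw [Complex.im_ofReal_mul, Complex.add_im, Complex.ofReal_im, add_zero]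
  rw [h1, abs_mul, abs_of_nonneg h0]
  congr 2
  field_simp

/-- first bound of a term -/
private theorem tm_le (ha : 0 < a) (hg : IsB a M g) (hN : 0 < N) (hNa : 1 ≤ N * a) (z : ℂ)
    (m : ℤ) : ‖tm a g N m z‖ ≤ M * Real.exp (a * |z.im|) := by
  have h1 := g_bd ha hg hN hNa z m
  have h2 := norm_cs_le ((z + ((2 * Real.pi * N * m : ℝ) : ℂ)) / ((2 * N : ℝ) : ℂ))
  rw [im_arg] at h2
  rw [tm, norm_mul, norm_pow]
  calc _ ≤ (M * Real.exp ((a - 1 / N) * |z.im|)) * (Real.exp |z.im / (2 * N)|) ^ 2 :=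
        mul_le_mul h1 (pow_le_pow_left₀ (norm_nonneg _) h2 2) (by positivity)
          (mul_nonneg hg.nonneg (Real.exp_pos _).le)
    _ = M * Real.exp (a * |z.im|) := by
        rw [mul_assoc, ← Real.exp_nat_mul, ← Real.exp_add, abs_div,
          abs_of_pos (show (0 : ℝ) < 2 * N by linarith)]
        congr 2
        push_cast
        field_simp
        ring

/-- second bound of a term -/
private theorem tm_mul_le (ha : 0 < a) (hg : IsB a M g) (hN : 0 < N) (hNa : 1 ≤ N * a) (z : ℂ)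
    (m : ℤ) : ‖tm a g N m z‖ *
      ‖(z + ((2 * Real.pi * N * m : ℝ) : ℂ)) / ((2 * N : ℝ) : ℂ)‖ ^ 2
      ≤ M * Real.exp ((a - 1 / N) * |z.im|) * ‖Complex.sin (z / ((2 * N : ℝ) : ℂ))‖ ^ 2 := by
  have h1 := g_bd ha hg hN hNa z m
  rw [tm, norm_mul, norm_pow, mul_assoc, ← mul_pow, ← norm_mul, cs_mul]
  have h2 : ‖Complex.sin ((z + ((2 * Real.pi * N * m : ℝ) : ℂ)) / ((2 * N : ℝ) : ℂ))‖
      = ‖Complex.sin (z / ((2 * N : ℝ) : ℂ))‖ := by
    have hN' : ((N : ℝ) : ℂ) ≠ 0 := by exact_mod_cast hN.ne'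
    have h3 : (z + ((2 * Real.pi * N * m : ℝ) : ℂ)) / ((2 * N : ℝ) : ℂ)
        = z / ((2 * N : ℝ) : ℂ) + (m : ℂ) * (Real.pi : ℂ) := by
      push_cast
      field_simp
    have h5 : Complex.sin (z / ((2 * N : ℝ) : ℂ) + (m : ℂ) * (Real.pi : ℂ))
        = (-1 : ℂ) ^ m * Complex.sin (z / ((2 * N : ℝ) : ℂ)) :=
      m.cast_negOnePow ℂ ▸ Complex.sin_antiperiodic.add_int_mul_eq m
    rw [h3, h5, norm_mul]
    have h4 : ‖((-1 : ℂ)) ^ m‖ = 1 := by
      rw [norm_zpow, norm_neg, norm_one, one_zpow]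
    rw [h4, one_mul]
  rw [h2]
  exact mul_le_mul_of_nonneg_right h1 (by positivity)

private theorem norm_arg_ge (z : ℂ) (m : ℤ) (hN : 0 < N) :
    Real.pi * |(m : ℝ)| - |z.re| / (2 * N)
      ≤ ‖(z + ((2 * Real.pi * N * m : ℝ) : ℂ)) / ((2 * N : ℝ) : ℂ)‖ := by
  refine le_trans ?_ (Complex.abs_re_le_norm _)
  rw [re_arg z m hN]
  have h1 : |Real.pi * (m : ℝ)| = Real.pi * |(m : ℝ)| := by
    rw [abs_mul, abs_of_pos Real.pi_pos]
  have h2 : |z.re / (2 * N)| = |z.re| / (2 * N) := by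
    rw [abs_div, abs_of_pos (show (0 : ℝ) < 2 * N by linarith)]
  rw [← h1, ← h2]
  have h3 := abs_sub_abs_le_abs_sub (Real.pi * (m : ℝ)) (-(z.re / (2 * N)))
  rw [abs_neg] at h3
  have h4 : Real.pi * (m : ℝ) - -(z.re / (2 * N)) = z.re / (2 * N) + Real.pi * m := by ring
  rw [h4] at h3
  exact h3

/-- third bound of a term -/
private theorem tm_le_sq (ha : 0 < a) (hg : IsB a M g) (hN : 0 < N) (hNa : 1 ≤ N * a) {X : ℝ}
    (hX : 0 ≤ X) (z : ℂ) (hz : |z.re| ≤ 2 * N * X) (m : ℤ) :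
    ‖tm a g N m z‖ ≤ M * Real.exp (a * |z.im|) * (1 + X ^ 2) * (1 / (1 + (m : ℝ) ^ 2)) := by
  have hA : 0 ≤ M * Real.exp (a * |z.im|) := mul_nonneg hg.nonneg (Real.exp_pos _).le
  have hm1 : (0 : ℝ) < 1 + (m : ℝ) ^ 2 := by positivity
  rw [mul_one_div, le_div_iff₀ hm1]
  have hB := tm_le ha hg hN hNa z m
  by_cases hmX : (m : ℝ) ^ 2 ≤ X ^ 2
  · exact mul_le_mul hB (by linarith) hm1.le hA
  · rw [not_le] at hmX
    have hm : X < |(m : ℝ)| := by
      have := sq_lt_sq.1 hmX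
      rwa [abs_of_nonneg hX] at this
    have hm0 : (1 : ℝ) ≤ |(m : ℝ)| := by
      have h0 : (m : ℤ) ≠ 0 := by
        rintro rfl
        simp at hm
        linarith
      exact_mod_cast Int.one_le_abs h0
    have hU := norm_arg_ge (N := N) z m hN
    have hzX : |z.re| / (2 * N) ≤ X := by
      rw [div_le_iff₀ (by linarith)]; linarith
    have hU2 : 2 * |(m : ℝ)| ≤
        ‖(z + ((2 * Real.pi * N * m : ℝ) : ℂ)) / ((2 * N : ℝ) : ℂ)‖ := by
      have hpi := Real.pi_gt_three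
      nlinarith
    have hC := tm_mul_le ha hg hN hNa z m
    have hS : M * Real.exp ((a - 1 / N) * |z.im|) * ‖Complex.sin (z / ((2 * N : ℝ) : ℂ))‖ ^ 2
        ≤ M * Real.exp (a * |z.im|) := by
      have h1 := norm_sin_le' (z / ((2 * N : ℝ) : ℂ))
      rw [Complex.div_ofReal_im] at h1
      calc _ ≤ M * Real.exp ((a - 1 / N) * |z.im|) * (Real.exp |z.im / (2 * N)|) ^ 2 :=
            mul_le_mul_of_nonneg_left (pow_le_pow_left₀ (norm_nonneg _) h1 2)
              (mul_nonneg hg.nonneg (Real.exp_pos _).le)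
        _ = M * Real.exp (a * |z.im|) := by
            rw [mul_assoc, ← Real.exp_nat_mul, ← Real.exp_add, abs_div,
              abs_of_pos (show (0 : ℝ) < 2 * N by linarith)]
            congr 2
            push_cast
            field_simp
            ring
    have h4 : (2 * |(m : ℝ)|) ^ 2 ≤
        ‖(z + ((2 * Real.pi * N * m : ℝ) : ℂ)) / ((2 * N : ℝ) : ℂ)‖ ^ 2 :=
      pow_le_pow_left₀ (by positivity) hU2 2
    have h5 : ‖tm a g N m z‖ * (2 * |(m : ℝ)|) ^ 2 ≤ M * Real.exp (a * |z.im|) :=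
      (mul_le_mul_of_nonneg_left h4 (norm_nonneg _)).trans (hC.trans hS)
    have h6 : 1 + (m : ℝ) ^ 2 ≤ (2 * |(m : ℝ)|) ^ 2 := by
      rw [mul_pow, sq_abs]
      nlinarith [sq_abs (m : ℝ)]
    calc ‖tm a g N m z‖ * (1 + (m : ℝ) ^ 2) ≤ ‖tm a g N m z‖ * (2 * |(m : ℝ)|) ^ 2 :=
          mul_le_mul_of_nonneg_left h6 (norm_nonneg _)
      _ ≤ M * Real.exp (a * |z.im|) := h5
      _ ≤ M * Real.exp (a * |z.im|) * (1 + X ^ 2) :=
          le_mul_of_one_le_right hA (by nlinarith [sq_nonneg X])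

private theorem summable_aux : Summable (fun m : ℤ => 1 / (1 + (m : ℝ) ^ 2)) := by
  have h1 : Summable (fun m : ℤ => 1 / (m : ℝ) ^ 2) :=
    Real.summable_one_div_int_pow.2 (by norm_num)
  have h2 : Summable (fun m : ℤ => (if m = 0 then (1 : ℝ) else 0) + 1 / (m : ℝ) ^ 2) := by
    refine Summable.add ?_ h1
    exact (hasSum_ite_eq (0 : ℤ) (1 : ℝ)).summable
  refine Summable.of_nonneg_of_le (fun m => by positivity) (fun m => ?_) h2
  by_cases hm : m = 0
  · subst hm; simp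
  · rw [if_neg hm, zero_add]
    have : (0 : ℝ) < (m : ℝ) ^ 2 := by
      have : (m : ℝ) ≠ 0 := by exact_mod_cast hm
      positivity
    exact one_div_le_one_div_of_le this (by linarith)

private theorem summable_tm (ha : 0 < a) (hg : IsB a M g) (hN : 0 < N) (hNa : 1 ≤ N * a) (z : ℂ) :
    Summable (fun m : ℤ => tm a g N m z) := by
  have hX : (0 : ℝ) ≤ |z.re| / (2 * N) := by positivity
  refine Summable.of_norm_bounded
    (g := fun m : ℤ => M * Real.exp (a * |z.im|) * (1 + (|z.re| / (2 * N)) ^ 2) *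
      (1 / (1 + (m : ℝ) ^ 2))) (summable_aux.mul_left _) (fun m => ?_)
  exact tm_le_sq ha hg hN hNa hX z (by rw [mul_div_cancel₀ _ (by positivity)]) m

private theorem tm_diff (hg : IsB a M g) (m : ℤ) : Differentiable ℂ (tm a g N m) := by
  unfold tm
  refine Differentiable.mul ?_ (Differentiable.pow ?_ 2)
  · exact hg.diff.comp ((differentiable_id.add (differentiable_const _)).const_mul _)
  · exact cs_diff.comp ((differentiable_id.add (differentiable_const _)).div_const _)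

/-- the approximation -/
private noncomputable def TT (a : ℝ) (g : ℂ → ℂ) (N : ℝ) (z : ℂ) : ℂ := ∑' m : ℤ, tm a g N m z

private theorem TT_diff (ha : 0 < a) (hg : IsB a M g) (hN : 0 < N) (hNa : 1 ≤ N * a) :
    Differentiable ℂ (TT a g N) := by
  intro z
  have hR : 0 < ‖z‖ + 1 := by positivity
  have h := differentiableOn_tsum_of_summable_norm (F := fun m : ℤ => tm a g N m)
    (u := fun m : ℤ => M * Real.exp (a * (‖z‖ + 1)) * (1 + ((‖z‖ + 1) / (2 * N)) ^ 2) *
      (1 / (1 + (m : ℝ) ^ 2))) (U := Metric.ball (0 : ℂ) (‖z‖ + 1))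
    (summable_aux.mul_left _) (fun m => (tm_diff hg m).differentiableOn) Metric.isOpen_ball
    (fun m w hw => by
      have hw' : ‖w‖ < ‖z‖ + 1 := by simpa using hw
      have hre := (Complex.abs_re_le_norm w).trans hw'.le
      have him := (Complex.abs_im_le_norm w).trans hw'.le
      refine (tm_le_sq ha hg hN hNa (X := (‖z‖ + 1) / (2 * N)) (by positivity) w
        (by rw [mul_div_cancel₀ _ (by positivity)]; exact hre) m).trans ?_
      have hM := hg.nonneg
      gcongr)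
  exact (h z (by simp)).differentiableAt (Metric.isOpen_ball.mem_nhds (by simp))

private theorem TT_per (z : ℂ) : TT a g N (z + ((2 * Real.pi * N : ℝ) : ℂ)) = TT a g N z := by
  unfold TT
  rw [← (Equiv.addRight (1 : ℤ)).tsum_eq (fun m : ℤ => tm a g N m z)]
  refine tsum_congr fun m => ?_
  have h : z + ((2 * Real.pi * N : ℝ) : ℂ) + ((2 * Real.pi * N * m : ℝ) : ℂ)
      = z + ((2 * Real.pi * N * ((m + 1 : ℤ) : ℝ) : ℝ) : ℂ) := by
    push_cast; ring
  simp only [tm, Equiv.coe_addRight]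
  rw [h]

private theorem TT_growth (ha : 0 < a) (hg : IsB a M g) (hN : 0 < N) (hNa : 1 ≤ N * a) (z : ℂ) :
    ‖TT a g N z‖ ≤ M * (1 + Real.pi ^ 2) * (∑' m : ℤ, 1 / (1 + (m : ℝ) ^ 2)) *
      Real.exp (a * |z.im|) := by
  have hP : (0 : ℝ) < 2 * Real.pi * N := by positivity
  set k : ℤ := ⌊z.re / (2 * Real.pi * N)⌋ with hk
  have hper : Function.Periodic (TT a g N) ((2 * Real.pi * N : ℝ) : ℂ) := fun w => TT_per w
  have h1 : TT a g N z = TT a g N (z - (k : ℂ) * ((2 * Real.pi * N : ℝ) : ℂ)) :=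
    (hper.sub_int_mul_eq k).symm
  set w : ℂ := z - (k : ℂ) * ((2 * Real.pi * N : ℝ) : ℂ) with hw
  have hwim : w.im = z.im := by
    rw [hw, Complex.sub_im]
    have : ((k : ℂ) * ((2 * Real.pi * N : ℝ) : ℂ)).im = 0 := by
      have : (k : ℂ) * ((2 * Real.pi * N : ℝ) : ℂ) = (((k : ℝ) * (2 * Real.pi * N) : ℝ) : ℂ) := by
        push_cast; ring
      rw [this, Complex.ofReal_im]
    rw [this, sub_zero]
  have hwre : w.re = z.re - k * (2 * Real.pi * N) := by
    rw [hw, Complex.sub_re]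
    have : (k : ℂ) * ((2 * Real.pi * N : ℝ) : ℂ) = (((k : ℝ) * (2 * Real.pi * N) : ℝ) : ℂ) := by
      push_cast; ring
    rw [this, Complex.ofReal_re]
  have h2 : |w.re| ≤ 2 * N * Real.pi := by
    have h3 := Int.floor_le (z.re / (2 * Real.pi * N))
    have h4 := Int.lt_floor_add_one (z.re / (2 * Real.pi * N))
    rw [← hk] at h3 h4
    rw [le_div_iff₀ hP] at h3
    rw [div_lt_iff₀ hP] at h4
    rw [hwre, abs_of_nonneg (by linarith)]
    linarith
  rw [h1, ← hwim]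
  have hs : HasSum (fun m : ℤ => M * Real.exp (a * |w.im|) * (1 + Real.pi ^ 2) *
      (1 / (1 + (m : ℝ) ^ 2)))
      (M * Real.exp (a * |w.im|) * (1 + Real.pi ^ 2) * ∑' m : ℤ, 1 / (1 + (m : ℝ) ^ 2)) :=
    summable_aux.hasSum.mul_left _
  refine (tsum_of_norm_bounded hs
    (fun m => tm_le_sq ha hg hN hNa Real.pi_pos.le w h2 m)).trans (le_of_eq ?_)
  ring

private theorem cs_sq_real (hN : 0 < N) (x : ℝ) (m : ℤ) :
    cs (((x : ℂ) + ((2 * Real.pi * N * m : ℝ) : ℂ)) / ((2 * N : ℝ) : ℂ))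
      = ((Real.sinc (Real.pi * (x / (2 * Real.pi * N) + m)) : ℝ) : ℂ) := by
  have h : ((x : ℂ) + ((2 * Real.pi * N * m : ℝ) : ℂ)) / ((2 * N : ℝ) : ℂ)
      = ((Real.pi * (x / (2 * Real.pi * N) + m) : ℝ) : ℂ) := by
    rw [← Complex.ofReal_add, ← Complex.ofReal_div]
    congr 1
    have := Real.pi_pos
    field_simp
  rw [h, cs_real]

private theorem TT_real_le (hg : IsB a M g) (hN : 0 < N) (x : ℝ) :
    ‖TT a g N (x : ℂ)‖ ≤ M := by
  have hs := (hasSum_Fk_one (x / (2 * Real.pi * N))).mul_left M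
  rw [mul_one] at hs
  refine tsum_of_norm_bounded hs (fun m => ?_)
  rw [tm, norm_mul, norm_pow, cs_sq_real hN, Complex.norm_real, Fk]
  have h1 : ((1 - 1 / (N * a) : ℝ) : ℂ) * ((x : ℂ) + ((2 * Real.pi * N * m : ℝ) : ℂ))
      = (((1 - 1 / (N * a)) * (x + 2 * Real.pi * N * m) : ℝ) : ℂ) := by push_cast; ring
  rw [h1, Real.norm_eq_abs, sq_abs]
  exact mul_le_mul_of_nonneg_right (hg.real_le _) (sq_nonneg _)

private theorem TT_even (he : ∀ z : ℂ, g (-z) = g z) (z : ℂ) : TT a g N (-z) = TT a g N z := by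
  unfold TT
  rw [← (Equiv.neg ℤ).tsum_eq (fun m : ℤ => tm a g N m z)]
  refine tsum_congr fun m => ?_
  have h : z + ((2 * Real.pi * N * ((-m : ℤ) : ℝ) : ℝ) : ℂ)
      = -(-z + ((2 * Real.pi * N * (m : ℝ) : ℝ) : ℂ)) := by
    push_cast; ring
  simp only [tm, Equiv.neg_apply]
  rw [h, mul_neg, he, neg_div, cs_neg]

private theorem TT_real (ha : 0 < a) (hg : IsB a M g) (hN : 0 < N) (hNa : 1 ≤ N * a)
    (hr : ∀ x : ℝ, (g (x : ℂ)).im = 0) (x : ℝ) : (TT a g N (x : ℂ)).im = 0 := by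
  have hs := (summable_tm ha hg hN hNa (x : ℂ)).hasSum
  have h2 := Complex.hasSum_im hs
  have h3 : (fun m : ℤ => (tm a g N m (x : ℂ)).im) = fun _ => 0 := by
    funext m
    have h1 : ((1 - 1 / (N * a) : ℝ) : ℂ) * ((x : ℂ) + ((2 * Real.pi * N * m : ℝ) : ℂ))
        = (((1 - 1 / (N * a)) * (x + 2 * Real.pi * N * m) : ℝ) : ℂ) := by push_cast; ring
    rw [tm, cs_sq_real hN, h1, ← Complex.ofReal_pow, Complex.mul_im, hr, Complex.ofReal_im,
      mul_zero, zero_mul, add_zero]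
  rw [h3] at h2
  exact h2.unique hasSum_zero

/-- the terms with `m ≠ 0` -/
private theorem tail_le (ha : 0 < a) (hg : IsB a M g) (hN : 0 < N) (hNa : 1 ≤ N * a) {R : ℝ}
    (hR : 0 ≤ R) (hRN : R ≤ 2 * N) (z : ℂ) (hz : ‖z‖ ≤ R) :
    ‖TT a g N z - tm a g N 0 z‖ ≤
      M * Real.exp (a * R) * (R / (2 * N)) ^ 2 * ∑' m : ℤ, 1 / (1 + (m : ℝ) ^ 2) := by
  have h0 := (summable_tm ha hg hN hNa z).tsum_eq_add_tsum_ite 0
  have h1 : TT a g N z - tm a g N 0 z = ∑' m : ℤ, if m = 0 then 0 else tm a g N m z := by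
    rw [TT, h0, add_sub_cancel_left]
  rw [h1]
  have hs : HasSum (fun m : ℤ => M * Real.exp (a * R) * (R / (2 * N)) ^ 2 *
      (1 / (1 + (m : ℝ) ^ 2)))
      (M * Real.exp (a * R) * (R / (2 * N)) ^ 2 * ∑' m : ℤ, 1 / (1 + (m : ℝ) ^ 2)) :=
    summable_aux.hasSum.mul_left _
  have hA : 0 ≤ M * Real.exp (a * R) * (R / (2 * N)) ^ 2 :=
    mul_nonneg (mul_nonneg hg.nonneg (Real.exp_pos _).le) (sq_nonneg _)
  refine tsum_of_norm_bounded hs (fun m => ?_)
  by_cases hm : m = 0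
  · rw [if_pos hm, norm_zero]; positivity
  rw [if_neg hm, mul_one_div, le_div_iff₀ (by positivity)]
  have hm0 : (1 : ℝ) ≤ |(m : ℝ)| := by exact_mod_cast Int.one_le_abs hm
  have hU := norm_arg_ge (N := N) z m hN
  have hre : |z.re| ≤ R := (Complex.abs_re_le_norm z).trans hz
  have him : |z.im| ≤ R := (Complex.abs_im_le_norm z).trans hz
  have hzX : |z.re| / (2 * N) ≤ 1 := by
    rw [div_le_iff₀ (by linarith)]; linarith
  have hU2 : 2 * |(m : ℝ)| ≤
      ‖(z + ((2 * Real.pi * N * m : ℝ) : ℂ)) / ((2 * N : ℝ) : ℂ)‖ := by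
    have hpi := Real.pi_gt_three
    nlinarith
  have hC := tm_mul_le ha hg hN hNa z m
  have hS : M * Real.exp ((a - 1 / N) * |z.im|) * ‖Complex.sin (z / ((2 * N : ℝ) : ℂ))‖ ^ 2
      ≤ M * Real.exp (a * R) * (R / (2 * N)) ^ 2 := by
    have h1 := norm_sin_le_mul (z / ((2 * N : ℝ) : ℂ))
    rw [Complex.div_ofReal_im, norm_div, Complex.norm_real, Real.norm_eq_abs, abs_div,
      abs_of_pos (show (0 : ℝ) < 2 * N by linarith)] at h1
    have h2 : (Real.exp (|z.im| / (2 * N)) * (‖z‖ / (2 * N))) ^ 2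
        = Real.exp (1 / N * |z.im|) * (‖z‖ / (2 * N)) ^ 2 := by
      rw [mul_pow, ← Real.exp_nat_mul]
      congr 2
      push_cast
      field_simp
    calc _ ≤ M * Real.exp ((a - 1 / N) * |z.im|) *
          (Real.exp (|z.im| / (2 * N)) * (‖z‖ / (2 * N))) ^ 2 :=
          mul_le_mul_of_nonneg_left (pow_le_pow_left₀ (norm_nonneg _) h1 2)
            (mul_nonneg hg.nonneg (Real.exp_pos _).le)
      _ = M * Real.exp (a * |z.im|) * (‖z‖ / (2 * N)) ^ 2 := by
          rw [h2, mul_assoc M, ← mul_assoc (Real.exp _) (Real.exp _), ← Real.exp_add, ← mul_assoc]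
          congr 3
          ring
      _ ≤ M * Real.exp (a * R) * (R / (2 * N)) ^ 2 := by
          have hM := hg.nonneg
          gcongr
  have h4 : (2 * |(m : ℝ)|) ^ 2 ≤
      ‖(z + ((2 * Real.pi * N * m : ℝ) : ℂ)) / ((2 * N : ℝ) : ℂ)‖ ^ 2 :=
    pow_le_pow_left₀ (by positivity) hU2 2
  have h6 : 1 + (m : ℝ) ^ 2 ≤ (2 * |(m : ℝ)|) ^ 2 := by
    rw [mul_pow, sq_abs]
    nlinarith [sq_abs (m : ℝ)]
  calc ‖tm a g N m z‖ * (1 + (m : ℝ) ^ 2) ≤ ‖tm a g N m z‖ * (2 * |(m : ℝ)|) ^ 2 :=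
        mul_le_mul_of_nonneg_left h6 (norm_nonneg _)
    _ ≤ _ := (mul_le_mul_of_nonneg_left h4 (norm_nonneg _)).trans (hC.trans hS)

/-- the main term is jointly continuous in `1 / N` and `z` -/
private theorem main_cont (ha : 0 < a) (hg : IsB a M g) (x : ℂ) {ε : ℝ} (hε : 0 < ε) :
    ∃ δ : ℝ, 0 < δ ∧ ∃ t ∈ 𝓝 x, ∀ N : ℝ, 0 < N → 1 / N < δ → ∀ z ∈ t,
      ‖g z - tm a g N 0 z‖ < ε := by
  have hc : Continuous (fun p : ℝ × ℂ => g p.2 - g (((1 - p.1 / a : ℝ) : ℂ) * p.2) *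
      cs (((p.1 / 2 : ℝ) : ℂ) * p.2) ^ 2) := by
    have hgc := hg.diff.continuous
    have hcc := cs_diff.continuous
    fun_prop
  have h0 := hc.tendsto ((0 : ℝ), x)
  have h1 : g x - g (((1 - (0 : ℝ) / a : ℝ) : ℂ) * x) * cs ((((0 : ℝ) / 2 : ℝ) : ℂ) * x) ^ 2
      = 0 := by
    simp [cs_zero]
  simp only at h0
  rw [h1] at h0
  have h2 := (Metric.tendsto_nhds.1 h0) ε hε
  rw [nhds_prod_eq, Filter.eventually_prod_iff] at h2
  obtain ⟨pa, hpa, pb, hpb, hh⟩ := h2
  obtain ⟨δ, hδ, hball⟩ := Metric.eventually_nhds_iff.1 hpa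
  refine ⟨δ, hδ, {z | pb z}, hpb, fun N hN hNδ z hz => ?_⟩
  have h3 : pa (1 / N) := hball (by
    rw [Real.dist_eq, sub_zero, abs_of_pos (by positivity)]; exact hNδ)
  have h4 := hh h3 hz
  rw [dist_zero_right] at h4
  refine lt_of_eq_of_lt ?_ h4
  have h5 : tm a g N 0 z = g (((1 - 1 / N / a : ℝ) : ℂ) * z) *
      cs (((1 / N / 2 : ℝ) : ℂ) * z) ^ 2 := by
    have e1 : (1 - 1 / (N * a) : ℝ) = 1 - 1 / N / a := by rw [div_div]
    have e2 : (z + ((2 * Real.pi * N * ((0 : ℤ) : ℝ) : ℝ) : ℂ)) = z := by simp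
    have e3 : z / ((2 * N : ℝ) : ℂ) = ((1 / N / 2 : ℝ) : ℂ) * z := by
      have hN' : ((N : ℝ) : ℂ) ≠ 0 := by exact_mod_cast hN.ne'
      push_cast
      field_simp
    rw [tm, e2, e1, e3]
  rw [h5]

end bounds

private theorem eq_of_real {f g : ℂ → ℂ} (hf : Differentiable ℂ f) (hg : Differentiable ℂ g)
    (h : ∀ x : ℝ, f x = g x) (z : ℂ) : f z = g z := by
  have hfa : AnalyticOnNhd ℂ f univ := fun z _ => hf.analyticAt z
  have hga : AnalyticOnNhd ℂ g univ := fun z _ => hg.analyticAt z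
  have ht : Tendsto (fun n : ℕ => ((1 / ((n : ℝ) + 1) : ℝ) : ℂ)) atTop (𝓝[≠] (0 : ℂ)) := by
    refine tendsto_nhdsWithin_iff.2 ⟨?_, Eventually.of_forall fun n => ?_⟩
    · have h0 := (Complex.continuous_ofReal.tendsto 0).comp
        (tendsto_one_div_add_atTop_nhds_zero_nat (𝕜 := ℝ))
      rw [Complex.ofReal_zero] at h0
      exact h0
    · simp only [mem_compl_iff, mem_singleton_iff, ofReal_eq_zero]
      positivity
  have hfr : ∃ᶠ z in 𝓝[≠] (0 : ℂ), f z = g z :=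
    ht.frequently (Frequently.of_forall fun n => h _)
  exact congrFun (hfa.eq_of_frequently_eq hga hfr) z

/-- contour shift for periodic entire functions -/
private theorem shift {h : ℂ → ℂ} {P : ℝ} (hh : Differentiable ℂ h)
    (hper : ∀ z : ℂ, h (z + P) = h z) (y : ℝ) :
    ∫ x : ℝ in (0:ℝ)..P, h x = ∫ x : ℝ in (0:ℝ)..P, h (x + y * I) := by
  have key := integral_boundary_rect_eq_zero_of_differentiableOn h 0 (P + y * I)
    hh.differentiableOn
  have e1 : ((P : ℂ) + y * I).re = P := by simp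
  have e2 : ((P : ℂ) + y * I).im = y := by simp
  rw [e1, e2, Complex.zero_re, Complex.zero_im] at key
  have e3 : ∀ t : ℝ, h ((P : ℂ) + t * I) = h ((0 : ℝ) + t * I) := by
    intro t
    rw [← hper ((0 : ℝ) + t * I)]
    congr 1
    push_cast
    ring
  have e4 : ∀ t : ℝ, h ((t : ℂ) + ((0 : ℝ) : ℂ) * I) = h t := by
    intro t
    simp
  simp only [e3, e4] at key
  have h2 := sub_eq_zero.1 (by simpa using key)
  exact h2

/-- coefficient bound -/
private theorem coef_bound {a C P : ℝ} (hP : 0 < P) {f : ℂ → ℂ} (hf : Differentiable ℂ f)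
    (hb : ∀ z : ℂ, ‖f z‖ ≤ C * Real.exp (a * |z.im|)) (hper : ∀ z : ℂ, f (z + P) = f z)
    (n : ℤ) (y : ℝ) :
    ‖∫ x : ℝ in (0:ℝ)..P, Complex.exp (2 * Real.pi * I * ((-n : ℤ) : ℂ) * x / P) * f x‖ ≤
      C * Real.exp (a * |y| + 2 * Real.pi * n / P * y) * P := by
  have hPc : (P : ℂ) ≠ 0 := by exact_mod_cast hP.ne'
  have hh : Differentiable ℂ fun z : ℂ =>
      Complex.exp (2 * Real.pi * I * ((-n : ℤ) : ℂ) * z / P) * f z := by
    refine Differentiable.mul ?_ hf
    fun_prop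
  have hper' : ∀ z : ℂ, (fun z : ℂ =>
      Complex.exp (2 * Real.pi * I * ((-n : ℤ) : ℂ) * z / P) * f z) (z + P) =
      (fun z : ℂ => Complex.exp (2 * Real.pi * I * ((-n : ℤ) : ℂ) * z / P) * f z) z := by
    intro z
    show Complex.exp (2 * Real.pi * I * ((-n : ℤ) : ℂ) * (z + P) / P) * f (z + P) =
      Complex.exp (2 * Real.pi * I * ((-n : ℤ) : ℂ) * z / P) * f z
    rw [hper]
    congr 1
    have : 2 * Real.pi * I * ((-n : ℤ) : ℂ) * (z + P) / P =
        2 * Real.pi * I * ((-n : ℤ) : ℂ) * z / P + ((-n : ℤ) : ℂ) * (2 * Real.pi * I) := by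
      field_simp
    rw [this, Complex.exp_add, Complex.exp_int_mul_two_pi_mul_I, mul_one]
  have hs := shift hh hper' y
  rw [hs]
  have hle : ∀ x ∈ Set.uIoc (0 : ℝ) P,
      ‖Complex.exp (2 * Real.pi * I * ((-n : ℤ) : ℂ) * ((x : ℂ) + y * I) / P) *
        f ((x : ℂ) + y * I)‖ ≤ C * Real.exp (a * |y| + 2 * Real.pi * n / P * y) := by
    intro x _
    rw [norm_mul, Complex.norm_exp]
    have e1 : (2 * Real.pi * I * ((-n : ℤ) : ℂ) * ((x : ℂ) + y * I) / P).re =
        2 * Real.pi * n / P * y := by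
      have : 2 * Real.pi * I * ((-n : ℤ) : ℂ) * ((x : ℂ) + y * I) / P =
          ((2 * Real.pi * n / P * y : ℝ) : ℂ) + ((-(2 * Real.pi * n / P * x) : ℝ) : ℂ) * I := by
        push_cast
        field_simp
        ring_nf
        rw [Complex.I_sq]
        ring
      rw [this]
      simp
    rw [e1]
    have h1 := hb ((x : ℂ) + y * I)
    have e2 : ((x : ℂ) + y * I).im = y := by simp
    rw [e2] at h1
    calc Real.exp (2 * Real.pi * n / P * y) * ‖f ((x : ℂ) + y * I)‖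
        ≤ Real.exp (2 * Real.pi * n / P * y) * (C * Real.exp (a * |y|)) :=
          mul_le_mul_of_nonneg_left h1 (Real.exp_pos _).le
      _ = C * Real.exp (a * |y| + 2 * Real.pi * n / P * y) := by
          rw [Real.exp_add]; ring
  have := intervalIntegral.norm_integral_le_of_norm_le_const hle
  rwa [sub_zero, abs_of_pos hP] at this

/-- high coefficients vanish -/
private theorem coef_zero {a C P : ℝ} (hP : 0 < P) {f : ℂ → ℂ} (hf : Differentiable ℂ f)
    (hb : ∀ z : ℂ, ‖f z‖ ≤ C * Real.exp (a * |z.im|)) (hper : ∀ z : ℂ, f (z + P) = f z)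
    (n : ℤ) (hn : a < |2 * Real.pi * n / P|) :
    ∫ x : ℝ in (0:ℝ)..P, Complex.exp (2 * Real.pi * I * ((-n : ℤ) : ℂ) * x / P) * f x = 0 := by
  set w : ℝ := 2 * Real.pi * n / P with hw
  have hC : 0 ≤ C := by
    have h := hb 0
    simp only [Complex.zero_im, abs_zero, mul_zero, Real.exp_zero, mul_one] at h
    exact (norm_nonneg _).trans h
  -- choose the sign
  obtain ⟨s, hs1, hs2⟩ : ∃ s : ℝ, |s| = 1 ∧ w * s = -|w| := by
    rcases le_total 0 w with h | h
    · exact ⟨-1, by simp, by rw [abs_of_nonneg h]; ring⟩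
    · exact ⟨1, by simp, by rw [abs_of_nonpos h]; ring⟩
  have hbd : ∀ t : ℝ, 0 ≤ t →
      ‖∫ x : ℝ in (0:ℝ)..P, Complex.exp (2 * Real.pi * I * ((-n : ℤ) : ℂ) * x / P) * f x‖ ≤
      C * P * Real.exp (-((|w| - a) * t)) := by
    intro t ht
    have h1 := coef_bound hP hf hb hper n (s * t)
    rw [abs_mul, hs1, one_mul, abs_of_nonneg ht, ← hw] at h1
    have e : a * t + w * (s * t) = -((|w| - a) * t) := by
      rw [← mul_assoc, hs2]; ring
    rw [e] at h1
    calc _ ≤ _ := h1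
      _ = _ := by ring
  have hlim : Tendsto (fun t : ℝ => C * P * Real.exp (-((|w| - a) * t))) atTop (𝓝 0) := by
    have h1 : Tendsto (fun t : ℝ => (|w| - a) * t) atTop atTop :=
      tendsto_id.const_mul_atTop (sub_pos.2 hn)
    have h2 := (Real.tendsto_exp_neg_atTop_nhds_zero.comp h1).const_mul (C * P)
    rw [mul_zero] at h2
    exact h2
  have h0 : ‖∫ x : ℝ in (0:ℝ)..P, Complex.exp (2 * Real.pi * I * ((-n : ℤ) : ℂ) * x / P) * f x‖
      ≤ 0 :=
    ge_of_tendsto hlim (eventually_atTop.2 ⟨0, fun t ht => hbd t ht⟩)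
  exact norm_le_zero_iff.1 h0

/-- Fourier expansion of a periodic entire function of exponential type -/
private theorem periodic_fourier {Cb : ℝ} {N : ℕ} (hN : 0 < N) {f : ℂ → ℂ}
    (hf : Differentiable ℂ f) (hb : ∀ z : ℂ, ‖f z‖ ≤ Cb * Real.exp (1 * |z.im|))
    (hper : ∀ z : ℂ, f (z + ((2 * Real.pi * N : ℝ) : ℂ)) = f z) :
    ∃ c : ℤ → ℂ, ∀ z, f z = ∑ k ∈ Finset.Icc (-(N : ℤ)) N,
      c k * Complex.exp ((k : ℂ) * (z / (N : ℂ)) * I) := by
  classical
  have hNr : (0 : ℝ) < N := by exact_mod_cast hN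
  have hpi : (0 : ℝ) < 2 * Real.pi := by positivity
  set P : ℝ := 2 * Real.pi * N with hPdef
  have hP : 0 < P := by positivity
  have : Fact (0 < P) := ⟨hP⟩
  have hperR : Function.Periodic (fun x : ℝ => f x) P := by
    intro x
    show f ((x + P : ℝ) : ℂ) = f x
    rw [Complex.ofReal_add, hper]
  let g : C(AddCircle P, ℂ) :=
    ⟨hperR.lift, by
      refine continuous_coinduced_dom.2 ?_
      exact hf.continuous.comp Complex.continuous_ofReal⟩
  have hg : ∀ x : ℝ, g (x : AddCircle P) = f x := fun x => hperR.lift_coe x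
  have hco : ∀ n : ℤ, fourierCoeff g n = (1 / P) •
      ∫ x : ℝ in (0:ℝ)..P, Complex.exp (2 * Real.pi * I * ((-n : ℤ) : ℂ) * x / P) * f x := by
    intro n
    rw [fourierCoeff_eq_intervalIntegral g n 0, zero_add]
    congr 1
    refine intervalIntegral.integral_congr fun x _ => ?_
    simp only [smul_eq_mul]
    rw [hg, fourier_coe_apply]
  have hzero : ∀ n : ℤ, n ∉ Finset.Icc (-(N : ℤ)) N → fourierCoeff g n = 0 := by
    intro n hn
    have hn' : (1 : ℝ) < |2 * Real.pi * n / P| := by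
      have h1 : 2 * Real.pi * n / P = (n : ℝ) / N := by
        rw [hPdef]; field_simp
      rw [h1, abs_div, abs_of_pos hNr, one_lt_div hNr]
      have h2 : (N : ℤ) < |n| := by
        by_contra h3
        rw [not_lt, abs_le] at h3
        exact hn (Finset.mem_Icc.2 h3)
      have h4 : ((N : ℤ) : ℝ) < ((|n| : ℤ) : ℝ) := by exact_mod_cast h2
      simpa using h4
    rw [hco, coef_zero hP hf hb hper n hn', smul_zero]
  have hsumm : Summable (fourierCoeff g) :=
    summable_of_ne_finset_zero (s := Finset.Icc (-(N : ℤ)) N) hzero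
  have hreal : ∀ x : ℝ, f x = ∑ n ∈ Finset.Icc (-(N : ℤ)) N, fourierCoeff g n *
      Complex.exp ((n : ℂ) * ((x : ℂ) / (N : ℂ)) * I) := by
    intro x
    have h1 := has_pointwise_sum_fourier_series_of_summable hsumm (x : AddCircle P)
    have h2 : HasSum (fun i => fourierCoeff g i • fourier i (x : AddCircle P))
        (∑ n ∈ Finset.Icc (-(N : ℤ)) N, fourierCoeff g n • fourier n (x : AddCircle P)) :=
      hasSum_sum_of_ne_finset_zero fun n hn => by rw [hzero n hn, zero_smul]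
    rw [← hg x, h1.unique h2]
    refine Finset.sum_congr rfl fun n _ => ?_
    rw [smul_eq_mul, fourier_coe_apply]
    congr 2
    have hNc : (N : ℂ) ≠ 0 := by exact_mod_cast hN.ne'
    have hpc : (Real.pi : ℂ) ≠ 0 := by exact_mod_cast Real.pi_pos.ne'
    rw [hPdef]
    push_cast
    field_simp
  refine ⟨fun n => fourierCoeff g n, fun z => ?_⟩
  refine eq_of_real (g := fun z : ℂ => ∑ n ∈ Finset.Icc (-(N : ℤ)) N, fourierCoeff g n *
    Complex.exp ((n : ℂ) * (z / (N : ℂ)) * I)) hf ?_ hreal z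
  fun_prop

/-- even, real, periodic: a polynomial in the cosine -/
private theorem poly_of_periodic {Cb : ℝ} {N : ℕ} (hN : 0 < N) {f : ℂ → ℂ}
    (hf : Differentiable ℂ f) (hb : ∀ z : ℂ, ‖f z‖ ≤ Cb * Real.exp (1 * |z.im|))
    (hper : ∀ z : ℂ, f (z + ((2 * Real.pi * N : ℝ) : ℂ)) = f z)
    (he : ∀ z : ℂ, f (-z) = f z) (hr : ∀ x : ℝ, (f (x : ℂ)).im = 0) :
    ∃ p : ℝ[X], p.natDegree ≤ N ∧ ∀ z, f z = aeval (Complex.cos (z / (N : ℂ))) p := by
  obtain ⟨c, hc⟩ := periodic_fourier hN hf hb hper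
  have h1 : ∀ z, f z = ∑ k ∈ Finset.Icc (-(N : ℤ)) N,
      c k * Complex.cos ((k : ℂ) * (z / (N : ℂ))) := by
    intro z
    have e1 : f z = (f z + f (-z)) / 2 := by rw [he]; ring
    rw [e1, hc z, hc (-z), ← Finset.sum_add_distrib, Finset.sum_div]
    refine Finset.sum_congr rfl fun k _ => ?_
    have e2 : Complex.cos ((k : ℂ) * (z / (N : ℂ))) =
      (Complex.exp ((k : ℂ) * (z / (N : ℂ)) * I) +
        Complex.exp (-((k : ℂ) * (z / (N : ℂ))) * I)) / 2 := rfl
    have e3 : (k : ℂ) * (-z / (N : ℂ)) * I = -((k : ℂ) * (z / (N : ℂ))) * I := by ring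
    rw [e2, e3]
    ring
  have h2 : ∀ z, f z = ∑ k ∈ Finset.Icc (-(N : ℤ)) N,
      (starRingEnd ℂ) (c k) * Complex.cos ((k : ℂ) * (z / (N : ℂ))) := by
    intro z
    refine eq_of_real (g := fun z : ℂ => ∑ k ∈ Finset.Icc (-(N : ℤ)) N,
      (starRingEnd ℂ) (c k) * Complex.cos ((k : ℂ) * (z / (N : ℂ)))) hf (by fun_prop) ?_ z
    intro x
    have e1 : f x = (starRingEnd ℂ) (f x) := (Complex.conj_eq_iff_im.2 (hr x)).symm
    rw [e1, h1 x, map_sum]
    refine Finset.sum_congr rfl fun k _ => ?_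
    rw [map_mul]
    congr 1
    have e2 : (k : ℂ) * ((x : ℂ) / (N : ℂ)) = (((k : ℝ) * (x / N) : ℝ) : ℂ) := by push_cast; ring
    rw [e2, ← Complex.ofReal_cos, Complex.conj_ofReal]
  refine ⟨∑ k ∈ Finset.Icc (-(N : ℤ)) N, Polynomial.C (c k).re * Polynomial.Chebyshev.T ℝ k,
    ?_, ?_⟩
  · refine Polynomial.natDegree_sum_le_of_forall_le _ _ fun k hk => ?_
    refine (Polynomial.natDegree_C_mul_le _ _).trans ?_
    rw [Polynomial.Chebyshev.natDegree_T]
    have := Finset.mem_Icc.1 hk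
    omega
  · intro z
    have e1 : f z = (f z + f z) / 2 := by ring
    rw [map_sum, e1]
    nth_rewrite 1 [h1 z]
    rw [h2 z, ← Finset.sum_add_distrib, Finset.sum_div]
    refine Finset.sum_congr rfl fun k _ => ?_
    rw [map_mul, Polynomial.aeval_C, Polynomial.Chebyshev.aeval_T,
      Polynomial.Chebyshev.T_complex_cos]
    have e2 : ((algebraMap ℝ ℂ) (c k).re) = (c k + (starRingEnd ℂ) (c k)) / 2 := by
      rw [Complex.add_conj]
      simp
    rw [e2]
    ring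

end LevPoly

theorem levitan_poly {M : ℝ} {g : ℂ → ℂ} (hg : IsE 1 M g) :
    ∃ (m : ℕ → ℕ) (p : ℕ → ℝ[X]),
      (∀ n, 0 < m n ∧ (p n).natDegree ≤ 2 * m n ∧
        IsE 1 M (fun z => aeval (Complex.cos (z / ((2 * m n : ℕ) : ℂ))) (p n))) ∧
      TendstoLocallyUniformly
        (fun n (z : ℂ) => aeval (Complex.cos (z / ((2 * m n : ℕ) : ℂ))) (p n)) g atTop := by
  set N : ℕ → ℕ := fun n => 2 * (n + 1) with hNdef
  have hNpos : ∀ n, 0 < N n := fun n => by simp [hNdef]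
  have hN : ∀ n : ℕ, (0 : ℝ) < (N n : ℝ) := fun n => by exact_mod_cast hNpos n
  have hNa : ∀ n : ℕ, 1 ≤ (N n : ℝ) * 1 := fun n => by
    rw [mul_one]; exact_mod_cast hNpos n
  have hg' : IsB 1 M g := hg.b
  have h1pos : (0 : ℝ) < 1 := one_pos
  have hB : ∀ n, IsB 1 M (LevPoly.TT 1 g (N n : ℝ)) := fun n =>
    pl_bound h1pos.le (LevPoly.TT_diff h1pos hg' (hN n) (hNa n))
      (LevPoly.TT_growth h1pos hg' (hN n) (hNa n)) (LevPoly.TT_real_le hg' (hN n))
  have hE : ∀ n, IsE 1 M (LevPoly.TT 1 g (N n : ℝ)) := fun n =>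
    ⟨hB n, fun z => LevPoly.TT_even hg.even z,
      fun x => LevPoly.TT_real h1pos hg' (hN n) (hNa n) hg.real x⟩
  have hp : ∀ n, ∃ p : ℝ[X], p.natDegree ≤ N n ∧
      ∀ z, LevPoly.TT 1 g (N n : ℝ) z = aeval (Complex.cos (z / ((N n : ℕ) : ℂ))) p := fun n =>
    LevPoly.poly_of_periodic (hNpos n) (hB n).diff (hB n).bd (fun z => LevPoly.TT_per z)
      (hE n).even (hE n).real
  choose p hp1 hp2 using hp
  have hfun : ∀ n, (fun z : ℂ => aeval (Complex.cos (z / ((N n : ℕ) : ℂ))) (p n)) =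
      LevPoly.TT 1 g (N n : ℝ) := fun n => funext fun z => (hp2 n z).symm
  refine ⟨fun n => n + 1, p, fun n => ⟨Nat.succ_pos n, hp1 n, ?_⟩, ?_⟩
  · have := hE n
    rw [← hfun n] at this
    exact this
  · have key : TendstoLocallyUniformly (fun n => LevPoly.TT 1 g (N n : ℝ)) g atTop := by
      rw [Metric.tendstoLocallyUniformly_iff]
      intro ε hε x
      obtain ⟨δ, hδ, t, ht, hmain⟩ := LevPoly.main_cont h1pos hg' x (half_pos hε)
      refine ⟨t ∩ Metric.ball x 1, inter_mem ht (Metric.ball_mem_nhds x one_pos), ?_⟩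
      set R : ℝ := ‖x‖ + 1 with hR
      have hR0 : 0 ≤ R := by positivity
      set S : ℝ := ∑' m : ℤ, 1 / (1 + (m : ℝ) ^ 2) with hS
      have hcast : Tendsto (fun n : ℕ => (N n : ℝ)) atTop atTop := by
        refine tendsto_natCast_atTop_atTop.comp ?_
        refine tendsto_atTop_mono (fun n => ?_) tendsto_id
        simp only [hNdef, id]
        omega
      have e1 : ∀ᶠ n : ℕ in atTop, R ≤ 2 * (N n : ℝ) := by
        filter_upwards [hcast.eventually_ge_atTop R] with n hn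
        have := hN n
        linarith
      have e2 : ∀ᶠ n : ℕ in atTop, 1 / (N n : ℝ) < δ := by
        filter_upwards [hcast.eventually_gt_atTop (1 / δ)] with n hn
        rw [div_lt_comm₀ (hN n) hδ]
        exact hn
      have e3 : ∀ᶠ n : ℕ in atTop,
          M * Real.exp (1 * R) * (R / (2 * (N n : ℝ))) ^ 2 * S < ε / 2 := by
        have h1 : Tendsto (fun n : ℕ => R / (2 * (N n : ℝ))) atTop (𝓝 0) :=
          Tendsto.const_div_atTop (hcast.const_mul_atTop (by norm_num)) R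
        have h2 : Tendsto (fun n : ℕ => M * Real.exp (1 * R) * (R / (2 * (N n : ℝ))) ^ 2 * S)
            atTop (𝓝 (M * Real.exp (1 * R) * (0 : ℝ) ^ 2 * S)) :=
          ((h1.pow 2).const_mul _).mul_const _
        have h3 : M * Real.exp (1 * R) * (0 : ℝ) ^ 2 * S = 0 := by ring
        rw [h3] at h2
        exact h2.eventually_lt_const (half_pos hε)
      filter_upwards [e1, e2, e3] with n h1 h2 h3 z hz
      have hzR : ‖z‖ ≤ R := by
        have h4 : dist z x < 1 := hz.2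
        have h5 : ‖z‖ ≤ ‖x‖ + dist z x := by
          rw [dist_eq_norm]
          have := norm_add_le x (z - x)
          simpa using this
        linarith
      have h6 := hmain _ (hN n) h2 z hz.1
      have h7 := LevPoly.tail_le h1pos hg' (hN n) (hNa n) hR0 h1 z hzR
      rw [dist_eq_norm]
      have h8 : g z - LevPoly.TT 1 g (N n : ℝ) z = (g z - LevPoly.tm 1 g (N n : ℝ) 0 z) -
          (LevPoly.TT 1 g (N n : ℝ) z - LevPoly.tm 1 g (N n : ℝ) 0 z) := by ring
      rw [h8]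
      refine (norm_sub_le _ _).trans_lt ?_
      linarith
    have h9 : (fun n (z : ℂ) => aeval (Complex.cos (z / ((2 * (n + 1) : ℕ) : ℂ))) (p n)) =
        fun n => LevPoly.TT 1 g (N n : ℝ) := funext fun n => hfun n
    have h10 : TendstoLocallyUniformly
        (fun n (z : ℂ) => aeval (Complex.cos (z / ((2 * (n + 1) : ℕ) : ℂ))) (p n)) g atTop := by
      rw [h9]; exact key
    exact h10

end Helper22.PA
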