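import Pool.Agent.Helper22.PA.Basic

/-! Module PA (helper22): Borel-Caratheodory estimate for the quotient by finitely many zeros. -/

open Complex Filter Topology Metric Set

namespace Helper22.PA

/-- An even zero free function on a disc is the exponential of an even function. -/
lemma exists_even_log {q : ℂ → ℂ} (hq : Differentiable ℂ q) (he : ∀ z, q (-z) = q z) {r : ℝ}
    (hr : 0 < r) (hne : ∀ z, ‖z‖ < r → q z ≠ 0) :
    ∃ φ : ℂ → ℂ, DifferentiableOn ℂ φ (ball 0 r) ∧ φ 0 = 0 ∧ deriv φ 0 = 0 ∧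
      ∀ z, ‖z‖ < r → q z = q 0 * Complex.exp (φ z) := by
  have hdq : Differentiable ℂ (deriv q) := by
    rw [← differentiableOn_univ]
    exact hq.differentiableOn.deriv isOpen_univ
  have hψ : DifferentiableOn ℂ (fun z => deriv q z / q z) (ball 0 r) := by
    intro z hz
    exact ((hdq z).div (hq z) (hne z (by simpa using hz))).differentiableWithinAt
  obtain ⟨φ, hφ0, hφ⟩ := hψ.isExactOn_ball.with_val_at 0 0
  have hd0 : deriv q 0 = 0 := by
    have h1 : (fun z => q (-z)) = q := funext he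
    have h2 : deriv (fun z => q (-z)) 0 = - deriv q (-0) := deriv_comp_neg q 0
    rw [h1, neg_zero] at h2
    have h3 : (2:ℂ) * deriv q 0 = 0 := by linear_combination h2
    simpa using h3
  have h0mem : (0:ℂ) ∈ ball (0:ℂ) r := by simpa using hr
  refine ⟨φ, fun z hz => (hφ z hz).differentiableAt.differentiableWithinAt, hφ0, ?_, ?_⟩
  · rw [(hφ 0 h0mem).deriv, hd0, zero_div]
  · intro z hz
    have hzm : z ∈ ball (0:ℂ) r := by simpa using hz
    -- q * exp (-φ) is constant
    have hconst : ∀ w ∈ ball (0:ℂ) r, HasDerivAt (fun w => q w * Complex.exp (-φ w)) 0 w := by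
      intro w hw
      have h1 := ((hq w).hasDerivAt).mul ((hφ w hw).neg.cexp)
      have h2 : deriv q w * Complex.exp (-φ w) +
          q w * (Complex.exp (-φ w) * -(deriv q w / q w)) = 0 := by
        have h3 : q w ≠ 0 := hne w (by simpa using hw)
        field_simp
        ring
      rw [← h2]
      exact h1
    have hopen : IsOpen (ball (0:ℂ) r) := isOpen_ball
    have hpre : IsPreconnected (ball (0:ℂ) r) := (convex_ball _ _).isPreconnected
    have hdo : DifferentiableOn ℂ (fun w => q w * Complex.exp (-φ w)) (ball 0 r) :=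
      fun w hw => (hconst w hw).differentiableAt.differentiableWithinAt
    have heq := hopen.is_const_of_deriv_eq_zero hpre hdo (fun w hw => (hconst w hw).deriv)
      hzm h0mem
    simp only [hφ0, neg_zero, Complex.exp_zero, mul_one] at heq
    rw [← heq, mul_assoc, ← Complex.exp_add]
    simp

/-- A function on a disc vanishing to second order at the center, with real part at most `M`. -/
lemma quad_bound {φ : ℂ → ℂ} {r M : ℝ} (hr : 0 < r) (hM : 0 < M)
    (hφ : DifferentiableOn ℂ φ (ball 0 r)) (h0 : φ 0 = 0) (hd : deriv φ 0 = 0)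
    (hre : ∀ z, ‖z‖ < r → (φ z).re ≤ M) {z : ℂ} (hz : ‖z‖ ≤ r / 2) :
    ‖φ z‖ ≤ 8 * M / r ^ 2 * ‖z‖ ^ 2 := by
  have hnhds : ball (0:ℂ) r ∈ 𝓝 (0:ℂ) := ball_mem_nhds 0 hr
  set g1 := dslope φ 0 with hg1
  have hg1d : DifferentiableOn ℂ g1 (ball 0 r) := (Complex.differentiableOn_dslope hnhds).2 hφ
  have hg10 : g1 0 = 0 := by rw [hg1, dslope_same, hd]
  set g2 := dslope g1 0 with hg2
  have hg2d : DifferentiableOn ℂ g2 (ball 0 r) := (Complex.differentiableOn_dslope hnhds).2 hg1d
  have e1 : ∀ w, φ w = w * g1 w := by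
    intro w
    have := factor_one (h := φ) (y := 0) h0 w
    rw [sub_zero] at this
    exact this
  have e2 : ∀ w, g1 w = w * g2 w := by
    intro w
    have := factor_one (h := g1) (y := 0) hg10 w
    rw [sub_zero] at this
    exact this
  have e3 : ∀ w, φ w = w ^ 2 * g2 w := by
    intro w
    rw [e1, e2]
    ring
  have hmaps : MapsTo φ (ball 0 r) {z | z.re ≤ M} := fun w hw => hre w (by simpa using hw)
  have key : ‖g2 z‖ ≤ 8 * M / r ^ 2 := by
    have hsub : closedBall (0:ℂ) (r/2) ⊆ ball 0 r := closedBall_subset_ball (by linarith)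
    have hdc : DiffContOnCl ℂ g2 (ball 0 (r/2)) := by
      refine ⟨hg2d.mono (ball_subset_ball (by linarith)), ?_⟩
      rw [closure_ball _ (by positivity : (r/2) ≠ 0)]
      exact hg2d.continuousOn.mono hsub
    refine Complex.norm_le_of_forall_mem_frontier_norm_le isBounded_ball hdc ?_ ?_
    · intro w hw
      rw [frontier_ball _ (by positivity : (r/2) ≠ 0)] at hw
      have hwn : ‖w‖ = r / 2 := by simpa using hw
      have hwb : w ∈ ball (0:ℂ) r := by
        rw [mem_ball_zero_iff, hwn]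
        linarith
      have hbc := Complex.borelCaratheodory_zero hM hφ hmaps hr hwb h0
      rw [hwn, e3 w, norm_mul, norm_pow, hwn] at hbc
      have h1 : 2 * M * (r / 2) / (r - r / 2) = 2 * M := by
        field_simp
        ring
      rw [h1] at hbc
      rw [le_div_iff₀ (by positivity)]
      nlinarith
    · rw [closure_ball _ (by positivity : (r/2) ≠ 0)]
      simpa using hz
  rw [e3 z, norm_mul, norm_pow, mul_comm]
  exact mul_le_mul_of_nonneg_right key (by positivity)

variable {F : ℂ → ℂ} {B A : ℝ}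

/-- The main estimate. -/
theorem EvenRR.main (h : EvenRR F B A) : ∃ C : ℝ, 0 < C ∧ ∀ r : ℝ, 1 ≤ r →
    ∃ q : ℂ → ℂ, Differentiable ℂ q ∧ (∀ z, F z = Pr F r z * q z) ∧
      ∀ z, ‖z‖ ≤ r / 2 → ∃ w : ℂ, ‖w‖ ≤ C * ‖z‖ ^ 2 / r ∧ q z = F 0 * Complex.exp w := by
  have hF0 : 0 < ‖F 0‖ := norm_pos_iff.2 h.nz
  set L := |Real.log (B / ‖F 0‖)| with hL
  have hL0 : 0 ≤ L := abs_nonneg _
  have hA := h.apos
  refine ⟨8 * (L + 2 * A + 1), by positivity, ?_⟩
  intro r hr
  have hr0 : 0 < r := by linarith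
  obtain ⟨q, hq, hfac, hev, hne, hbd, hq0⟩ := h.exists_quot hr0
  refine ⟨q, hq, hfac, ?_⟩
  obtain ⟨φ, hφ, hφ0, hφd, hφe⟩ := exists_even_log hq hev hr0 (fun z hz => hne z hz.le)
  intro z hz
  have hM : 0 < L + A * (2 * r) + 1 := by positivity
  have hre : ∀ w, ‖w‖ < r → (φ w).re ≤ L + A * (2 * r) + 1 := by
    intro w hw
    have h1 := hbd w (by linarith)
    rw [hφe w hw, norm_mul, Complex.norm_exp, hq0] at h1
    have h2 : Real.exp (φ w).re ≤ (B / ‖F 0‖) * Real.exp (A * (2 * r)) := by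
      rw [div_mul_eq_mul_div, le_div_iff₀ hF0]
      linarith
    have hB := h.bpos
    have h3 : (φ w).re ≤ Real.log (B / ‖F 0‖) + A * (2 * r) := by
      have h4 := Real.log_le_log (Real.exp_pos _) h2
      rw [Real.log_exp, Real.log_mul (by positivity) (Real.exp_pos _).ne', Real.log_exp] at h4
      exact h4
    have h5 := le_abs_self (Real.log (B / ‖F 0‖))
    linarith
  refine ⟨φ z, ?_, ?_⟩
  · have h1 := quad_bound hr0 hM hφ hφ0 hφd hre hz
    have h2 : 8 * (L + A * (2 * r) + 1) / r ^ 2 ≤ 8 * (L + 2 * A + 1) / r := by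
      rw [div_le_div_iff₀ (by positivity) hr0]
      have h3 : L + A * (2 * r) + 1 ≤ (L + 2 * A + 1) * r := by nlinarith
      nlinarith
    calc ‖φ z‖ ≤ 8 * (L + A * (2 * r) + 1) / r ^ 2 * ‖z‖ ^ 2 := h1
      _ ≤ 8 * (L + 2 * A + 1) / r * ‖z‖ ^ 2 := mul_le_mul_of_nonneg_right h2 (by positivity)
      _ = 8 * (L + 2 * A + 1) * ‖z‖ ^ 2 / r := by ring
  · rw [hφe z (by linarith), hq0]

end Helper22.PA
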