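import Pool.Agent.Helper22.PA.Basic
import Pool.Agent.Helper30.FG.Defs

/-! Module PA (helper22): `EvenRR` from `IsE`. -/

open Complex Filter Topology Metric Set

namespace Helper22.PA

open Pool.Agent.Helper30.FG

lemma evenRR_of_isE {s : ℂ → ℂ} (hs : IsE (1 / 2) 1 s) (h0 : s 0 ≠ 0)
    (hz : ∀ z : ℂ, s z = 0 → z.im = 0 ∧ deriv s z ≠ 0) : EvenRR s 1 (1 / 2) where
  diff := hs.b.diff
  even := hs.even
  bound := fun z => (hs.b.bd z).trans (by
    have h1 : |z.im| ≤ ‖z‖ := Complex.abs_im_le_norm z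
    gcongr)
  apos := by norm_num
  nz := h0
  real := fun z h => (hz z h).1
  simple := fun z h => (hz z h).2

end Helper22.PA
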