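import Mathlib

/-!
[PA-PolySq] An entire function of polynomial growth on a sequence of squares is a polynomial.
Maximum principle on the square and Cauchy's estimates for the derivatives at `0`.
-/

open Complex Filter Topology Metric Set

namespace Helper22.PA

/-- maximum principle on the square of half side `r` -/
theorem le_of_square {R : ℂ → ℂ} (hR : Differentiable ℂ R) {r B : ℝ} (hr : 0 < r)
    (h : ∀ z : ℂ, ((|z.re| = r ∧ |z.im| ≤ r) ∨ (|z.re| ≤ r ∧ |z.im| = r)) → ‖R z‖ ≤ B)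
    {z : ℂ} (hz1 : |z.re| ≤ r) (hz2 : |z.im| ≤ r) : ‖R z‖ ≤ B := by
  set U : Set ℂ := Ioo (-r) r ×ℂ Ioo (-r) r with hU
  have hne : (Ioo (-r) r).Nonempty := nonempty_Ioo.2 (by linarith)
  have hb : Bornology.IsBounded U := Metric.isBounded_Ioo _ _ |>.reProdIm (Metric.isBounded_Ioo _ _)
  have hcl : closure U = Icc (-r) r ×ℂ Icc (-r) r := by
    rw [hU, closure_reProdIm, closure_Ioo (by linarith)]
  have hint : interior U = Ioo (-r) r ×ℂ Ioo (-r) r := by
    rw [hU, interior_reProdIm, interior_Ioo]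
  refine Complex.norm_le_of_forall_mem_frontier_norm_le hb hR.diffContOnCl ?_ ?_
  · intro w hw
    rw [frontier, hcl, hint] at hw
    obtain ⟨⟨h1, h2⟩, h3⟩ := hw
    apply h w
    have h1' : |w.re| ≤ r := abs_le.2 h1
    have h2' : |w.im| ≤ r := abs_le.2 h2
    by_contra hcon
    push Not at hcon
    apply h3
    refine ⟨abs_lt.1 (lt_of_le_of_ne h1' fun e => ?_), abs_lt.1 (lt_of_le_of_ne h2' fun e => ?_)⟩
    · exact absurd h2' (not_le.2 (hcon.1 e))
    · exact hcon.2 h1' e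
  · rw [hcl]
    exact ⟨abs_le.1 hz1, abs_le.1 hz2⟩

theorem polynomial_of_discs {f : ℂ → ℂ} (hf : Differentiable ℂ f) {C : ℝ} {N : ℕ}
    (h : ∀ R₀ : ℝ, ∃ r : ℝ, R₀ ≤ r ∧ 1 ≤ r ∧ ∀ z : ℂ, ‖z‖ ≤ r → ‖f z‖ ≤ C * r ^ N) :
    ∃ p : Polynomial ℂ, ∀ z, f z = p.eval z := by
  have hder : ∀ n, N < n → iteratedDeriv n f 0 = 0 := by
    intro n hn
    by_contra hne
    have hpos : 0 < ‖iteratedDeriv n f 0‖ := norm_pos_iff.2 hne
    obtain ⟨r, hr2, hr1, hb⟩ := h (n.factorial * |C| / ‖iteratedDeriv n f 0‖ + 1)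
    have hr0 : 0 < r := by linarith
    have h1 := Complex.norm_iteratedDeriv_le_of_forall_mem_sphere_norm_le (n := n) (c := 0)
      (R := r) (C := C * r ^ N) hr0 hf.diffContOnCl (f := f) (by
        intro z hz
        have hz' : ‖z‖ = r := by simpa using hz
        exact hb z hz'.le)
    have h2 : n.factorial * (C * r ^ N) / r ^ n ≤ n.factorial * |C| / r := by
      have e : r ^ n = r ^ N * r ^ (n - N - 1) * r := by
        rw [← pow_add, ← pow_succ]; congr 1; omega
      have h3 : 1 ≤ r ^ (n - N - 1) := one_le_pow₀ hr1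
      rw [e, div_le_div_iff₀ (by positivity) hr0]
      have h4 : C ≤ |C| := le_abs_self C
      have h5 : (0 : ℝ) ≤ |C| := abs_nonneg C
      have h6 : C * r ^ N ≤ |C| * r ^ N := by gcongr
      calc n.factorial * (C * r ^ N) * r ≤ n.factorial * (|C| * r ^ N) * r := by gcongr
        _ = n.factorial * |C| * (r ^ N * 1 * r) := by ring
        _ ≤ n.factorial * |C| * (r ^ N * r ^ (n - N - 1) * r) := by gcongr
    have h3 := h1.trans h2
    rw [le_div_iff₀ hr0] at h3
    have h4 : (n.factorial * |C| / ‖iteratedDeriv n f 0‖ + 1) * ‖iteratedDeriv n f 0‖ ≤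
        r * ‖iteratedDeriv n f 0‖ := by gcongr
    rw [add_mul, div_mul_cancel₀ _ hpos.ne'] at h4
    nlinarith
  refine ⟨∑ n ∈ Finset.range (N + 1),
    Polynomial.C ((n.factorial : ℂ)⁻¹ * iteratedDeriv n f 0) * Polynomial.X ^ n, fun z => ?_⟩
  have ht := Complex.taylorSeries_eq_of_entire' (c := 0) (z := z) hf
  rw [← ht, tsum_eq_sum (s := Finset.range (N + 1)), Polynomial.eval_finsetSum]
  · refine Finset.sum_congr rfl fun n _ => ?_
    simp only [sub_zero, Polynomial.eval_mul, Polynomial.eval_C, Polynomial.eval_pow,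
      Polynomial.eval_X]
  · intro n hn
    have : N < n := by
      rw [Finset.mem_range] at hn; omega
    rw [hder n this]; simp

theorem polynomial_of_squares {f : ℂ → ℂ} (hf : Differentiable ℂ f) {C : ℝ} {N : ℕ}
    (h : ∀ R₀ : ℝ, ∃ r : ℝ, R₀ ≤ r ∧ 1 ≤ r ∧ ∀ z : ℂ,
      ((|z.re| = r ∧ |z.im| ≤ r) ∨ (|z.re| ≤ r ∧ |z.im| = r)) → ‖f z‖ ≤ C * r ^ N) :
    ∃ p : Polynomial ℂ, ∀ z, f z = p.eval z := by
  refine polynomial_of_discs (C := C) (N := N) hf fun R₀ => ?_
  obtain ⟨r, h1, h2, h3⟩ := h R₀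
  refine ⟨r, h1, h2, fun z hz => le_of_square hf (by linarith) h3 ?_ ?_⟩
  · exact (Complex.abs_re_le_norm z).trans hz
  · exact (Complex.abs_im_le_norm z).trans hz

end Helper22.PA
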