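import Mathlib

/-!
[PA-Quot] Entire quotient. `q z = f z / g z ^ 2`: near every `z₀` it agrees off `z₀` with an analytic
function (if `g z₀ ≠ 0` clear; if `g z₀ = 0` then `g = (z - z₀) u`, `u z₀ = g'(z₀) ≠ 0`,
`f = (z - z₀) ^ 2 v` by two dslopes). exists_entire: `R z₀` is the value at `z₀` of the local analytic
function; it agrees with the local analytic functions on full neighbourhoods.
-/

open Complex Filter Topology Metric Set

namespace Helper22.PA

theorem exists_entire {q : ℂ → ℂ}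
    (h : ∀ z₀ : ℂ, ∃ g : ℂ → ℂ, AnalyticAt ℂ g z₀ ∧ ∀ᶠ z in 𝓝[≠] z₀, q z = g z) :
    ∃ R : ℂ → ℂ, Differentiable ℂ R ∧ ∀ z₀ : ℂ, ∀ᶠ z in 𝓝[≠] z₀, q z = R z := by
  choose g hg hq using h
  have key : ∀ z₀ : ℂ, ∀ᶠ y in 𝓝[≠] z₀, g y y = g z₀ y := by
    intro z₀
    have h1 : ∀ᶠ y in 𝓝[≠] z₀, ∀ᶠ x in 𝓝[≠] z₀ ⊔ 𝓝[{z₀}ᶜ] y, q x = g z₀ x := by
      have := eventually_eventually_nhdsWithin.2 (hq z₀)
      filter_upwards [this] with y hy
      exact eventually_sup.2 ⟨hq z₀, hy⟩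
    have h2 : ∀ᶠ y in 𝓝[≠] z₀, AnalyticAt ℂ (g z₀) y :=
      (hg z₀).eventually_analyticAt.filter_mono nhdsWithin_le_nhds
    have h3 : ∀ᶠ y in 𝓝[≠] z₀, y ≠ z₀ := eventually_mem_nhdsWithin
    filter_upwards [h1, h2, h3] with y h1 h2 h3
    have h1' : ∀ᶠ x in 𝓝[{z₀}ᶜ] y, q x = g z₀ x := (eventually_sup.1 h1).2
    rw [isOpen_compl_singleton.nhdsWithin_eq (show y ∈ ({z₀}ᶜ : Set ℂ) from h3)] at h1'
    have h4 : ∀ᶠ x in 𝓝[≠] y, g y x = g z₀ x := by
      filter_upwards [hq y, h1'.filter_mono nhdsWithin_le_nhds] with x hx hx'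
      rw [← hx, hx']
    have t1 : Tendsto (g y) (𝓝[≠] y) (𝓝 (g y y)) :=
      (hg y).continuousAt.tendsto.mono_left nhdsWithin_le_nhds
    have t2 : Tendsto (g z₀) (𝓝[≠] y) (𝓝 (g z₀ y)) :=
      h2.continuousAt.tendsto.mono_left nhdsWithin_le_nhds
    exact tendsto_nhds_unique t1 (t2.congr' (h4.mono fun x hx => hx.symm))
  refine ⟨fun z => g z z, fun z₀ => ?_, fun z₀ => ?_⟩
  · have h5 : (fun z => g z z) =ᶠ[𝓝 z₀] g z₀ := by
      have := key z₀
      rw [eventually_nhdsWithin_iff] at this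
      filter_upwards [this] with y hy
      by_cases hyz : y = z₀
      · rw [hyz]
      · exact hy hyz
    exact (hg z₀).differentiableAt.congr_of_eventuallyEq h5
  · filter_upwards [key z₀, hq z₀] with y h1 h2
    rw [h1, h2]

theorem exists_quot_sq {f g : ℂ → ℂ} (hf : Differentiable ℂ f) (hg : Differentiable ℂ g)
    (h : ∀ z, g z = 0 → deriv g z ≠ 0 ∧ f z = 0 ∧ deriv f z = 0) :
    ∃ R : ℂ → ℂ, Differentiable ℂ R ∧ ∀ z, f z = R z * g z ^ 2 := by
  have hds : ∀ {F : ℂ → ℂ}, Differentiable ℂ F → ∀ y : ℂ, Differentiable ℂ (dslope F y) := by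
    intro F hF y
    rw [← differentiableOn_univ]
    exact (Complex.differentiableOn_dslope univ_mem).2 hF.differentiableOn
  have han : ∀ {F : ℂ → ℂ}, Differentiable ℂ F → ∀ y : ℂ, AnalyticAt ℂ F y := by
    intro F hF y
    exact hF.analyticAt y
  have hfac : ∀ {F : ℂ → ℂ} {y : ℂ}, F y = 0 → ∀ z, F z = (z - y) * dslope F y z := by
    intro F y hy z
    have := sub_smul_dslope F y z
    rw [hy, sub_zero, smul_eq_mul] at this
    exact this.symm
  obtain ⟨R, hR, hRq⟩ := exists_entire (q := fun z => f z / g z ^ 2) (by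
    intro z₀
    by_cases hz : g z₀ = 0
    · obtain ⟨h1, h2, h3⟩ := h z₀ hz
      have hv : dslope f z₀ z₀ = 0 := by rw [dslope_same, h3]
      refine ⟨fun z => dslope (dslope f z₀) z₀ z / dslope g z₀ z ^ 2, ?_, ?_⟩
      · refine AnalyticAt.div (han (hds (hds hf z₀) z₀) z₀) ((han (hds hg z₀) z₀).pow 2) ?_
        rw [dslope_same]
        exact pow_ne_zero 2 h1
      · filter_upwards [eventually_mem_nhdsWithin] with z hzz
        have hz' : z - z₀ ≠ 0 := sub_ne_zero.2 hzz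
        rw [hfac h2 z, hfac hz z, hfac hv z]
        rw [mul_pow, ← mul_assoc, ← pow_two, mul_div_mul_left _ _ (pow_ne_zero 2 hz')]
    · exact ⟨fun z => f z / g z ^ 2, AnalyticAt.div (han hf z₀) ((han hg z₀).pow 2)
        (pow_ne_zero 2 hz), Eventually.of_forall fun z => rfl⟩)
  refine ⟨R, hR, fun z => ?_⟩
  by_cases hz : g z = 0
  · obtain ⟨-, h2, -⟩ := h z hz
    rw [hz, h2]
    ring
  · have hc : ContinuousAt (fun z => f z / g z ^ 2) z :=
      hf.continuous.continuousAt.div (hg.continuous.continuousAt.pow 2) (pow_ne_zero 2 hz)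
    have t1 : Tendsto (fun z => f z / g z ^ 2) (𝓝[≠] z) (𝓝 (f z / g z ^ 2)) :=
      hc.tendsto.mono_left nhdsWithin_le_nhds
    have t2 : Tendsto R (𝓝[≠] z) (𝓝 (R z)) :=
      hR.continuous.continuousAt.tendsto.mono_left nhdsWithin_le_nhds
    have h6 : f z / g z ^ 2 = R z :=
      tendsto_nhds_unique t1 (t2.congr' ((hRq z).mono fun x hx => hx.symm))
    rw [← h6, div_mul_cancel₀ _ (pow_ne_zero 2 hz)]

end Helper22.PA
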