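import Pool.Agent.Helper22.PA.OfIsE
import Pool.Agent.Helper22.PA.Quot
import Pool.Agent.Helper22.PA.PolySq
import Pool.Agent.Helper22.PA.Infinite
import Pool.Agent.Helper22.PA.Bound
import Pool.Agent.Helper22.PA.Degree

/-!
[PA-Final] Assembly of the Pell-Abel equation (helper22).
-/

open Complex Filter Topology Metric Set

namespace Helper22.PA

open Pool.Agent.Helper30.FG

theorem pell_abel {s : ℂ → ℂ} (hs : IsE (1 / 2) 1 s) (h0 : s 0 ≠ 0)
    (hz : ∀ z : ℂ, s z = 0 → z.im = 0 ∧ deriv s z ≠ 0)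
    (hfin : {k : ℝ | deriv s (k : ℂ) = 0 ∧ ‖s (k : ℂ)‖ < 1}.Finite)
    (htype : ∀ σ : ℝ, σ < 1 / 2 → ∀ C : ℝ, ¬ ∀ y : ℝ, 0 ≤ y →
      ‖s ((y : ℂ) * I)‖ ≤ C * Real.exp (σ * y)) :
    (∀ z : ℂ, deriv s z = 0 → z.im = 0 ∧ deriv (deriv s) z ≠ 0) ∧
    ∃ P Q : Polynomial ℝ, P = ∏ k ∈ hfin.toFinset, (Polynomial.X - Polynomial.C k) ∧
      Q.Monic ∧ Q.natDegree = 2 * P.natDegree ∧
      ∀ z : ℂ, 4 * deriv s z ^ 2 * Polynomial.aeval z Q = (1 - s z ^ 2) * (Polynomial.aeval z P) ^ 2 := by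
  have hE := evenRR_of_isE hs h0 hz
  have hnc : ∃ z, s z ≠ s 0 := by
    by_contra hcon
    push Not at hcon
    exact htype 0 (by norm_num) ‖s 0‖ (fun y hy => by rw [hcon]; simp)
  obtain ⟨x₁, _, ha⟩ := zeros_unbounded hs hE hnc 0
  have hcrit : ∀ z : ℂ, deriv s z = 0 → z.im = 0 ∧ deriv (deriv s) z ≠ 0 := by
    intro z hdz
    have him := hE.crit_real ha hdz
    refine ⟨him, ?_⟩
    obtain ⟨k, rfl⟩ : ∃ k : ℝ, z = k := ⟨z.re, Complex.ext (by simp) (by simpa using him)⟩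
    have h2 := hE.crit_second ha hdz
    have hsk : s k ≠ 0 := fun h => (hz _ h).2 hdz
    have hka : (k : ℂ) - x₁ ≠ 0 := by
      intro h
      rw [sub_eq_zero.1 h] at hsk
      exact hsk ha
    have h3 : 0 < ‖s k‖ := norm_pos_iff.2 hsk
    have h4 : 0 < ‖(k : ℂ) - x₁‖ := norm_pos_iff.2 hka
    have h5 : 0 < ‖s k‖ / ‖(k : ℂ) - x₁‖ ^ 2 := by positivity
    exact norm_pos_iff.1 (h5.trans_le h2)
  refine ⟨hcrit, ?_⟩
  set P : Polynomial ℝ := ∏ k ∈ hfin.toFinset, (Polynomial.X - Polynomial.C k) with hPdef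
  have hPm : P.Monic := Polynomial.monic_prod_of_monic _ _ (fun k _ => Polynomial.monic_X_sub_C k)
  set Pc : Polynomial ℂ := P.map (algebraMap ℝ ℂ) with hPc
  have hPcm : Pc.Monic := hPm.map _
  have hPeval : ∀ z : ℂ, Polynomial.aeval z P = Pc.eval z := fun z => by
    rw [hPc, Polynomial.eval_map_algebraMap]
  have hPreal : ∀ x : ℝ, Pc.eval (x : ℂ) = ((P.eval x : ℝ) : ℂ) := fun x => by
    rw [hPc, Polynomial.eval_map_algebraMap]
    exact Polynomial.aeval_algebraMap_apply_eq_algebraMap_eval x P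
  have hPzero : ∀ k : ℝ, deriv s (k : ℂ) = 0 → ‖s (k : ℂ)‖ < 1 → Pc.eval (k : ℂ) = 0 := by
    intro k h1 h2
    rw [hPreal]
    have : P.eval k = 0 := by
      rw [hPdef, Polynomial.eval_prod]
      apply Finset.prod_eq_zero (i := k)
      · rw [Set.Finite.mem_toFinset]
        exact ⟨h1, h2⟩
      · simp
    rw [this, Complex.ofReal_zero]
  -- the quotient
  have hd : Differentiable ℂ s := hs.b.diff
  have hdd : Differentiable ℂ (deriv s) := by
    rw [← differentiableOn_univ]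
    exact hd.differentiableOn.deriv isOpen_univ
  obtain ⟨R, hRd, hR⟩ := exists_quot_sq (f := fun z => (1 - s z ^ 2) * Pc.eval z ^ 2)
    (g := deriv s) (by fun_prop) hdd (by
      intro z hdz
      obtain ⟨him, hdd2⟩ := hcrit z hdz
      obtain ⟨k, rfl⟩ : ∃ k : ℝ, z = k := ⟨z.re, Complex.ext (by simp) (by simpa using him)⟩
      have hcase : Pc.eval (k : ℂ) = 0 ∨ 1 - s (k : ℂ) ^ 2 = 0 := by
        by_cases hlt : ‖s (k : ℂ)‖ < 1
        · exact Or.inl (hPzero k hdz hlt)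
        · right
          have hle : ‖s (k : ℂ)‖ ≤ 1 := hs.b.real_le k
          have heq : ‖s (k : ℂ)‖ = 1 := le_antisymm hle (not_lt.1 hlt)
          have hre : s (k : ℂ) = ((s (k : ℂ)).re : ℂ) :=
            Complex.ext (by simp) (by simpa using hs.real k)
          rw [hre, Complex.norm_real, Real.norm_eq_abs] at heq
          rw [hre, ← Complex.ofReal_pow, ← sq_abs, heq]
          simp
      refine ⟨hdd2, ?_, ?_⟩
      · rcases hcase with h | h <;> simp [h]
      · have h1 : HasDerivAt (fun z => 1 - s z ^ 2) (-(2 * s (k:ℂ) * deriv s (k:ℂ))) (k:ℂ) := by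
          have := ((hd (k:ℂ)).hasDerivAt.fun_pow 2).const_sub 1
          simpa using this
        have h2 : HasDerivAt (fun z => Pc.eval z ^ 2)
            (2 * Pc.eval (k:ℂ) * Pc.derivative.eval (k:ℂ)) (k:ℂ) := by
          have := (Pc.hasDerivAt (k:ℂ)).fun_pow 2
          simpa using this
        have h3 := (h1.mul h2).deriv
        have h4 : deriv (fun z => (1 - s z ^ 2) * Pc.eval z ^ 2) (k:ℂ) =
          -(2 * s (k:ℂ) * deriv s (k:ℂ)) * Pc.eval (k:ℂ) ^ 2 +
            (1 - s (k:ℂ) ^ 2) * (2 * Pc.eval (k:ℂ) * Pc.derivative.eval (k:ℂ)) := h3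
        rw [h4, hdz]
        rcases hcase with h | h <;> simp [h])
  have hinf := crit_unbounded hs hE hnc hfin
  obtain ⟨c, hc, hgood⟩ := good_points hs hE ha hinf
  obtain ⟨C, N, hsq⟩ := bound_squares hs hE ha hR hc hgood
  obtain ⟨p, hp⟩ := polynomial_of_squares hRd hsq
  have hR' : ∀ z, (1 - s z ^ 2) * Pc.eval z ^ 2 = p.eval z * deriv s z ^ 2 := fun z => by
    rw [← hp]
    exact hR z
  obtain ⟨hdeg, hlc⟩ := degree_lc hs hE ha hPcm hR' (fun σ hσ C => by
    have := htype σ hσ C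
    push Not at this
    exact this)
  obtain ⟨Q₄, hQ₄⟩ := real_poly (R := p) (by
    apply Set.infinite_of_forall_exists_gt
    intro b
    obtain ⟨x, hx1, hx2⟩ := zeros_unbounded hs hE hnc (b + 1)
    refine ⟨x, ?_, by linarith⟩
    have h1 := hR' x
    have h2 := (hz _ hx2).2
    have h3 := deriv_real hs x
    have h4 : deriv s (x : ℂ) = ((deriv s (x : ℂ)).re : ℂ) :=
      Complex.ext (by simp) (by simpa using h3)
    rw [hx2, hPreal] at h1
    have h5 : p.eval (x : ℂ) = (((P.eval x) ^ 2 / (deriv s (x : ℂ)).re ^ 2 : ℝ) : ℂ) := by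
      have h6 : deriv s (x : ℂ) ^ 2 ≠ 0 := pow_ne_zero 2 h2
      push_cast
      rw [← h4, eq_div_iff h6, ← h1]
      ring
    show (p.eval (x : ℂ)).im = 0
    rw [h5, Complex.ofReal_im])
  have hinj : Function.Injective (algebraMap ℝ ℂ) := (algebraMap ℝ ℂ).injective
  have hlc4 : Q₄.leadingCoeff = 4 := by
    have h1 : (Q₄.map (algebraMap ℝ ℂ)).leadingCoeff = algebraMap ℝ ℂ Q₄.leadingCoeff :=
      Polynomial.leadingCoeff_map _
    rw [hQ₄, hlc] at h1
    have h2 : ((4 : ℝ) : ℂ) = ((Q₄.leadingCoeff : ℝ) : ℂ) := by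
      rw [Complex.ofReal_ofNat]
      exact h1
    exact (Complex.ofReal_injective h2).symm
  have hdeg4 : Q₄.natDegree = 2 * P.natDegree := by
    rw [← Polynomial.natDegree_map (algebraMap ℝ ℂ) (p := Q₄), hQ₄, hdeg, hPc,
      Polynomial.natDegree_map]
  refine ⟨P, Polynomial.C (1 / 4) * Q₄, rfl, ?_, ?_, ?_⟩
  · rw [Polynomial.Monic, Polynomial.leadingCoeff_mul, Polynomial.leadingCoeff_C, hlc4]
    norm_num
  · rw [Polynomial.natDegree_C_mul (by norm_num), hdeg4]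
  · intro z
    have h1 : Polynomial.aeval z Q₄ = p.eval z := by
      rw [← hQ₄, Polynomial.eval_map_algebraMap]
    rw [map_mul, h1, hPeval, hR' z, Polynomial.aeval_C]
    have h2 : (algebraMap ℝ ℂ (1 / 4)) = 1 / 4 := by
      rw [Complex.coe_algebraMap]
      norm_num
    rw [h2]
    ring

end Helper22.PA
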