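import Pool.Agent.Helper22.PA.Log

/-! Module PA (helper22): consequences of the product formula. -/

open Complex Filter Topology Metric Set

namespace Helper22.PA

variable {F : ℂ → ℂ} {B A : ℝ}

/-- The quotient tends to `F 0`. -/
lemma tendsto_exp_w {C : ℝ} {z : ℂ} {w : ℝ → ℂ} (hw : ∀ᶠ r in atTop, ‖w r‖ ≤ C * ‖z‖ ^ 2 / r) :
    Tendsto (fun r => Complex.exp (w r)) atTop (𝓝 1) := by
  have h1 : Tendsto (fun r : ℝ => C * ‖z‖ ^ 2 / r) atTop (𝓝 0) :=
    tendsto_const_nhds.div_atTop tendsto_id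
  have h2 : Tendsto w atTop (𝓝 0) := squeeze_zero_norm' hw h1
  have h3 := (Complex.continuous_exp.tendsto 0).comp h2
  rw [Complex.exp_zero] at h3
  exact h3

/-- `F z` is the limit of the finite products. -/
theorem EvenRR.tendsto_prod (h : EvenRR F B A) (z : ℂ) :
    Tendsto (fun r : ℝ => F 0 * Pr F r z) atTop (𝓝 (F z)) := by
  obtain ⟨C, hC, hmain⟩ := h.main
  choose! q hq hfac hw using hmain
  choose! w hw1 hw2 using hw
  have hev : ∀ᶠ r : ℝ in atTop, ‖w r z‖ ≤ C * ‖z‖ ^ 2 / r := by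
    filter_upwards [eventually_ge_atTop (1:ℝ), eventually_ge_atTop (2 * ‖z‖)] with r h1 h2
    exact hw1 r h1 z (by linarith)
  have h1 := tendsto_exp_w hev
  have h2 : Tendsto (fun r => F z / Complex.exp (w r z)) atTop (𝓝 (F z / 1)) :=
    tendsto_const_nhds.div h1 one_ne_zero
  rw [div_one] at h2
  refine h2.congr' ?_
  filter_upwards [eventually_ge_atTop (1:ℝ), eventually_ge_atTop (2 * ‖z‖)] with r h3 h4
  rw [hfac r h3 z, hw2 r h3 z (by linarith)]
  have := Complex.exp_ne_zero (w r z)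
  field_simp

/-- Monotonicity in the imaginary direction. -/
theorem EvenRR.norm_mono (h : EvenRR F B A) (x y : ℝ) : ‖F x‖ ≤ ‖F (x + y * I)‖ := by
  have h1 := (h.tendsto_prod (x : ℂ)).norm
  have h2 := (h.tendsto_prod ((x : ℂ) + y * I)).norm
  refine le_of_tendsto_of_tendsto' h1 h2 fun r => ?_
  rw [norm_mul, norm_mul]
  refine mul_le_mul_of_nonneg_left ?_ (norm_nonneg _)
  unfold Pr
  rw [norm_prod, norm_prod]
  refine Finset.prod_le_prod (fun _ _ => norm_nonneg _) fun a ha => ?_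
  rw [h.mem_Z] at ha
  have him := h.real a ha.1
  have ha0 := h.zero_ne ha.1
  obtain ⟨b, rfl⟩ : ∃ b : ℝ, a = b := ⟨a.re, Complex.ext (by simp) (by simpa using him)⟩
  have hb : b ≠ 0 := by exact_mod_cast ha0
  rw [← sq_le_sq₀ (norm_nonneg _) (norm_nonneg _), ← Complex.normSq_eq_norm_sq,
    ← Complex.normSq_eq_norm_sq]
  have e1 : (1 - ((x:ℝ):ℂ) / b) = ((1 - x / b : ℝ) : ℂ) := by push_cast; ring
  have e2 : (1 - (((x:ℝ):ℂ) + y * I) / b) = ((1 - x / b : ℝ) : ℂ) + ((-(y / b) : ℝ) : ℂ) * I := by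
    push_cast
    ring
  rw [e1, e2, Complex.normSq_ofReal, Complex.normSq_add_mul_I]
  nlinarith [sq_nonneg (y / b)]

/-- The squared modulus of the product, paired. -/
lemma EvenRR.Pr_sq (h : EvenRR F B A) (r : ℝ) (z : ℂ) :
    ‖Pr F r z‖ ^ 2 = ∏ x ∈ Z F r, ‖1 - z ^ 2 / x ^ 2‖ := by
  have h1 : ‖Pr F r z‖ ^ 2 = ‖Pr F r z‖ * ‖Pr F r (-z)‖ := by rw [h.Pr_even, sq]
  rw [h1, ← norm_mul]
  unfold Pr
  rw [← Finset.prod_mul_distrib, norm_prod]
  refine Finset.prod_congr rfl fun x hx => ?_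
  have hx0 : x ≠ 0 := h.zero_ne (h.mem_Z.1 hx).1
  congr 1
  field_simp
  ring

/-- If `|Re z| ≤ |Im z|` then `‖F z‖ ≥ ‖F 0‖ ‖1 - z² / a²‖` for every zero `a`. -/
theorem EvenRR.norm_ge (h : EvenRR F B A) {z a : ℂ} (hz : |z.re| ≤ |z.im|) (ha : F a = 0) :
    ‖F 0‖ * ‖1 - z ^ 2 / a ^ 2‖ ≤ ‖F z‖ := by
  classical
  have h2 := (h.tendsto_prod z).norm
  refine ge_of_tendsto h2 ?_
  filter_upwards [eventually_ge_atTop ‖a‖] with r hr
  rw [norm_mul]
  refine mul_le_mul_of_nonneg_left ?_ (norm_nonneg _)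
  have hge : ∀ x ∈ Z F r, 1 ≤ ‖1 - z ^ 2 / x ^ 2‖ := by
    intro x hx
    rw [h.mem_Z] at hx
    have him := h.real x hx.1
    have hx0 := h.zero_ne hx.1
    obtain ⟨b, rfl⟩ : ∃ b : ℝ, x = b := ⟨x.re, Complex.ext (by simp) (by simpa using him)⟩
    have hb : b ≠ 0 := by exact_mod_cast hx0
    have hre : 1 ≤ (1 - z ^ 2 / (b:ℂ) ^ 2).re := by
      have e1 : (1 - z ^ 2 / (b:ℂ) ^ 2).re = 1 - (z.re ^ 2 - z.im ^ 2) / b ^ 2 := by
        have e2 : z ^ 2 / (b:ℂ) ^ 2 = z ^ 2 / ((b ^ 2 : ℝ) : ℂ) := by push_cast; ring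
        rw [e2, Complex.sub_re, Complex.div_ofReal_re, Complex.one_re]
        congr 2
        simp [sq]
      rw [e1]
      have h3 : z.re ^ 2 - z.im ^ 2 ≤ 0 := by
        have := sq_le_sq.2 hz
        linarith
      have h4 : (z.re ^ 2 - z.im ^ 2) / b ^ 2 ≤ 0 :=
        div_nonpos_of_nonpos_of_nonneg h3 (by positivity)
      linarith
    exact hre.trans (Complex.re_le_norm _)
  have hamem : a ∈ Z F r := h.mem_Z.2 ⟨ha, hr⟩
  have ha0 := h.zero_ne ha
  have hnmem : -a ∈ Z F r := h.mem_Z.2 ⟨by rw [h.even]; exact ha, by rw [norm_neg]; exact hr⟩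
  have hne : a ≠ -a := by
    intro h3
    have h4 : (2:ℂ) * a = 0 := by linear_combination h3
    exact ha0 (by simpa using h4)
  rw [← sq_le_sq₀ (norm_nonneg _) (norm_nonneg _), h.Pr_sq]
  have hsub : ({a, -a} : Finset ℂ) ⊆ Z F r := by
    intro x hx
    simp only [Finset.mem_insert, Finset.mem_singleton] at hx
    rcases hx with rfl | rfl
    · exact hamem
    · exact hnmem
  rw [← Finset.prod_sdiff hsub, Finset.prod_pair hne, neg_sq]
  have h5 : 1 ≤ ∏ x ∈ Z F r \ {a, -a}, ‖1 - z ^ 2 / x ^ 2‖ :=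
    one_le_prod_real _ _ fun x hx => hge x (Finset.sdiff_subset hx)
  have h6 : 0 ≤ ‖1 - z ^ 2 / a ^ 2‖ * ‖1 - z ^ 2 / a ^ 2‖ := by positivity
  nlinarith

/-- Logarithmic derivative inequality. -/
theorem EvenRR.logDeriv_im (h : EvenRR F B A) {z a : ℂ} (hz : 0 < z.im) (ha : F a = 0) :
    z.im / ‖z - a‖ ^ 2 ≤ -(deriv F z / F z).im := by
  have hFz : F z ≠ 0 := by
    intro h0
    have := h.real z h0
    linarith
  obtain ⟨C, hC, hmain⟩ := h.main
  choose! q hq hfac hw using hmain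
  choose! w hw1 hw2 using hw
  -- q r tends to F 0 uniformly near z, so its derivative tends to 0
  set K : ℝ := C * (‖z‖ + 1) ^ 2 with hK
  have hK0 : 0 < K := by positivity
  have hunif : ∀ r : ℝ, 1 ≤ r → 2 * (‖z‖ + 1) ≤ r → ∀ v : ℂ, ‖v‖ ≤ ‖z‖ + 1 →
      ‖q r v - F 0‖ ≤ ‖F 0‖ * (Real.exp (K / r) - 1) := by
    intro r h1 h2 v hv
    have hr0 : 0 < r := by linarith
    have h3 := hw1 r h1 v (by linarith)
    have h4 := hw2 r h1 v (by linarith)
    have h5 : ‖w r v‖ ≤ K / r := by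
      refine h3.trans ?_
      rw [hK]
      gcongr
    rw [h4]
    have h6 : F 0 * Complex.exp (w r v) - F 0 = F 0 * (Complex.exp (w r v) - 1) := by ring
    rw [h6, norm_mul]
    refine mul_le_mul_of_nonneg_left ?_ (norm_nonneg _)
    have h7 : ‖Complex.exp (w r v) - 1‖ ≤ Real.exp ‖w r v‖ - 1 := by
      have := Complex.norm_exp_sub_sum_le_exp_norm_sub_sum (w r v) 1
      simpa using this
    have h8 := Real.exp_le_exp.2 h5
    linarith
  have hder : ∀ r : ℝ, 1 ≤ r → 2 * (‖z‖ + 1) ≤ r →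
      ‖deriv (q r) z‖ ≤ ‖F 0‖ * (Real.exp (K / r) - 1) := by
    intro r h1 h2
    have h3 : deriv (q r) z = deriv (fun v => q r v - F 0) z := by
      rw [deriv_sub_const]
    rw [h3]
    have h4 := Complex.norm_deriv_le_of_forall_mem_sphere_norm_le (c := z) (R := 1)
      (C := ‖F 0‖ * (Real.exp (K / r) - 1)) (f := fun v => q r v - F 0) one_pos
      ((hq r h1).sub_const _).diffContOnCl (by
        intro v hv
        have h5 : ‖v - z‖ = 1 := by simpa using hv
        refine hunif r h1 h2 v ?_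
        calc ‖v‖ = ‖z + (v - z)‖ := by ring_nf
          _ ≤ ‖z‖ + ‖v - z‖ := norm_add_le _ _
          _ = ‖z‖ + 1 := by rw [h5])
    simpa using h4
  have hlim0 : Tendsto (fun r : ℝ => ‖F 0‖ * (Real.exp (K / r) - 1)) atTop (𝓝 0) := by
    have h1 : Tendsto (fun r : ℝ => K / r) atTop (𝓝 0) := tendsto_const_nhds.div_atTop tendsto_id
    have h2 := (Real.continuous_exp.tendsto 0).comp h1
    rw [Real.exp_zero] at h2
    have h3 := (h2.sub_const 1).const_mul ‖F 0‖
    simpa using h3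
  have hdlim : Tendsto (fun r : ℝ => deriv (q r) z) atTop (𝓝 0) := by
    refine squeeze_zero_norm' ?_ hlim0
    filter_upwards [eventually_ge_atTop (1:ℝ), eventually_ge_atTop (2 * (‖z‖ + 1))] with r h1 h2
    exact hder r h1 h2
  have hqlim : Tendsto (fun r : ℝ => q r z) atTop (𝓝 (F 0)) := by
    have : Tendsto (fun r : ℝ => q r z - F 0) atTop (𝓝 0) := by
      refine squeeze_zero_norm' ?_ hlim0
      filter_upwards [eventually_ge_atTop (1:ℝ), eventually_ge_atTop (2 * (‖z‖ + 1))] with r h1 h2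
      exact hunif r h1 h2 z (by linarith [norm_nonneg z])
    have h2 := this.add_const (F 0)
    simpa using h2
  have hratio : Tendsto (fun r : ℝ => deriv (q r) z / q r z) atTop (𝓝 0) := by
    have := hdlim.div hqlim h.nz
    rw [zero_div] at this
    exact this
  have himlim : Tendsto (fun r : ℝ => -(deriv F z / F z - deriv (q r) z / q r z).im) atTop
      (𝓝 (-(deriv F z / F z).im)) := by
    have h1 : Tendsto (fun r : ℝ => deriv F z / F z - deriv (q r) z / q r z) atTop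
      (𝓝 (deriv F z / F z - 0)) := tendsto_const_nhds.sub hratio
    rw [sub_zero] at h1
    exact ((Complex.continuous_im.tendsto _).comp h1).neg
  refine ge_of_tendsto himlim ?_
  filter_upwards [eventually_ge_atTop (1:ℝ), eventually_ge_atTop ‖a‖] with r h1 h2
  have hPne : Pr F r z ≠ 0 := h.Pr_ne hFz
  have hqne : q r z ≠ 0 := by
    intro h3
    apply hFz
    rw [hfac r h1 z, h3, mul_zero]
  have hlog : deriv F z / F z = logDeriv (Pr F r) z + deriv (q r) z / q r z := by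
    have e1 : F = fun v => Pr F r v * q r v := funext (hfac r h1)
    have e2 := logDeriv_mul (f := Pr F r) (g := q r) z hPne hqne (differentiable_Pr F r z)
      (hq r h1 z)
    rw [logDeriv_apply, logDeriv_apply, logDeriv_apply] at e2
    rw [logDeriv_apply, ← e2]
    congr 1
    · conv_lhs => rw [e1]
    · exact hfac r h1 z
  have hsum : logDeriv (Pr F r) z = ∑ x ∈ Z F r, 1 / (z - x) := by
    have e1 : Pr F r = fun v => ∏ x ∈ Z F r, (fun x v => (1 - v / x : ℂ)) x v := rfl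
    have hne : ∀ x ∈ Z F r, (1 - z / x : ℂ) ≠ 0 := by
      unfold Pr at hPne
      rwa [Finset.prod_ne_zero_iff] at hPne
    rw [e1, logDeriv_prod hne (fun x _ => by fun_prop)]
    refine Finset.sum_congr rfl fun x hx => ?_
    have hx0 : x ≠ 0 := h.zero_ne (h.mem_Z.1 hx).1
    have h5 := hne x hx
    rw [logDeriv_apply]
    have e3 : deriv (fun v : ℂ => 1 - v / x) z = -(1 / x) := by
      have : HasDerivAt (fun v : ℂ => 1 - v / x) (-(1 / x)) z := by
        simpa using ((hasDerivAt_id z).div_const x).const_sub 1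
      exact this.deriv
    rw [e3]
    have h6 : x - z ≠ 0 := by
      intro h7
      apply h5
      have : z = x := (sub_eq_zero.1 h7).symm
      rw [this, div_self hx0, sub_self]
    have h7 : z - x ≠ 0 := by
      intro h8
      apply h6
      rw [← neg_sub, h8, neg_zero]
    have h8 : (1 - z / x : ℂ) = (x - z) / x := by field_simp
    rw [h8]
    field_simp
    ring
  rw [hlog, add_sub_cancel_right, hsum, Complex.im_sum, ← Finset.sum_neg_distrib]
  have hterm : ∀ x ∈ Z F r, -(1 / (z - x)).im = z.im / ‖z - x‖ ^ 2 := by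
    intro x hx
    have him := h.real x (h.mem_Z.1 hx).1
    rw [one_div, Complex.inv_im, Complex.normSq_eq_norm_sq, Complex.sub_im, him, sub_zero]
    ring
  rw [Finset.sum_congr rfl hterm]
  exact Finset.single_le_sum (f := fun x => z.im / ‖z - x‖ ^ 2)
    (fun x _ => by positivity) (h.mem_Z.2 ⟨ha, h2⟩)

end Helper22.PA
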