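import Pool.Agent.Helper22.PA.Prod
import Pool.Agent.Helper22.PA.OfIsE
import Pool.Agent.Helper30.FG.D5
import Pool.Agent.Helper30.FG.U1

/-!
[PA-Unique] Uniqueness of the maximiser up to sign (helper22): the two maximisers have the same
zeros (`common_zero` of `Helper30/FG/U1.lean`), so they are proportional by the product formula.
-/

open Complex Filter Topology Metric Set

namespace Helper22.PA

open Pool.Agent.Helper30.FG Pool.Agent.Helper78.Bern Pool.Agent.Helper45.Bern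

theorem proportional {F G : ℂ → ℂ} {A B A' B' : ℝ} (hF : EvenRR F B A) (hG : EvenRR G B' A')
    (h : ∀ z, F z = 0 ↔ G z = 0) (z : ℂ) : F z * G 0 = G z * F 0 := by
  have hZ : ∀ r, Z F r = Z G r := by
    intro r
    ext x
    rw [hF.mem_Z, hG.mem_Z, h x]
  have hP : ∀ r, Pr F r z = Pr G r z := by
    intro r
    unfold Pr
    rw [hZ r]
  have h1 := (hF.tendsto_prod z).mul_const (G 0)
  have h2 := (hG.tendsto_prod z).mul_const (F 0)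
  have h3 : (fun r : ℝ => F 0 * Pr F r z * G 0) = fun r : ℝ => G 0 * Pr G r z * F 0 := by
    funext r
    rw [hP r]
    ring
  rw [h3] at h1
  exact tendsto_nhds_unique h1 h2

theorem same_zeros {α : ℝ} (h0 : 0 < α) (h1 : α < 1) {s₁ s₂ : ℂ → ℂ}
    (hs₁ : IsE (1 / 2) 1 s₁) (hm₁ : ∀ s' : ℂ → ℂ, IsE (1 / 2) 1 s' → J α s' ≤ J α s₁)
    (hs₂ : IsE (1 / 2) 1 s₂) (hm₂ : ∀ s' : ℂ → ℂ, IsE (1 / 2) 1 s' → J α s' ≤ J α s₂)
    (hne₁ : ∃ z, s₁ z ≠ 0) {ζ : ℂ} (hζ : s₁ ζ = 0) : s₂ ζ = 0 := by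
  obtain ⟨hs0, hz⟩ := zeros h0 h1 hs₁ hm₁ hne₁
  have him := (hz ζ hζ).1
  obtain ⟨k, rfl⟩ : ∃ k : ℝ, ζ = k := ⟨ζ.re, Complex.ext (by simp) (by simpa using him)⟩
  have hk : k ≠ 0 := by
    rintro rfl
    rw [Complex.ofReal_zero] at hζ
    exact hs0 hζ
  exact common_zero h0 h1 hs₁ hs₂ hm₁ hm₂ hne₁ hk hζ

lemma J_of_zero {α : ℝ} {s : ℂ → ℂ} (hs : ∀ z, s z = 0) : J α s = 1 := by
  unfold J Lf
  simp [hs]

lemma ne_zero_of_J {α : ℝ} {s : ℂ → ℂ} (hJ : J α s ≠ 1) : ∃ z, s z ≠ 0 := by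
  by_contra hcon
  push Not at hcon
  exact hJ (J_of_zero hcon)

theorem unique_max {α : ℝ} (h0 : 0 < α) (h1 : α < 1) {s₁ s₂ : ℂ → ℂ}
    (hs₁ : IsE (1 / 2) 1 s₁) (hm₁ : ∀ s' : ℂ → ℂ, IsE (1 / 2) 1 s' → J α s' ≤ J α s₁)
    (hs₂ : IsE (1 / 2) 1 s₂) (hm₂ : ∀ s' : ℂ → ℂ, IsE (1 / 2) 1 s' → J α s' ≤ J α s₂)
    (hJ : J α s₁ ≠ 1) : (∀ z, s₁ z = s₂ z) ∨ ∀ z, s₁ z = - s₂ z := by
  have hJJ : J α s₁ = J α s₂ := le_antisymm (hm₂ s₁ hs₁) (hm₁ s₂ hs₂)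
  have hJ2 : J α s₂ ≠ 1 := by rwa [← hJJ]
  have hne₁ := ne_zero_of_J hJ
  have hne₂ := ne_zero_of_J hJ2
  obtain ⟨hs10, hz1⟩ := zeros h0 h1 hs₁ hm₁ hne₁
  obtain ⟨hs20, hz2⟩ := zeros h0 h1 hs₂ hm₂ hne₂
  have hE1 := evenRR_of_isE hs₁ hs10 hz1
  have hE2 := evenRR_of_isE hs₂ hs20 hz2
  have hiff : ∀ z, s₁ z = 0 ↔ s₂ z = 0 := fun z =>
    ⟨fun h => same_zeros h0 h1 hs₁ hm₁ hs₂ hm₂ hne₁ h,
      fun h => same_zeros h0 h1 hs₂ hm₂ hs₁ hm₁ hne₂ h⟩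
  have hprop := proportional hE1 hE2 hiff
  set c : ℝ := (s₁ 0).re / (s₂ 0).re with hc
  have hr1 : s₁ 0 = (((s₁ 0).re : ℝ) : ℂ) := by
    have := hs₁.real 0
    rw [Complex.ofReal_zero] at this
    exact Complex.ext (by simp) (by simpa using this)
  have hr2 : s₂ 0 = (((s₂ 0).re : ℝ) : ℂ) := by
    have := hs₂.real 0
    rw [Complex.ofReal_zero] at this
    exact Complex.ext (by simp) (by simpa using this)
  have hcC : (c : ℂ) = s₁ 0 / s₂ 0 := by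
    rw [hc, Complex.ofReal_div, ← hr1, ← hr2]
  have hlin : ∀ z, s₁ z = (c : ℂ) * s₂ z := by
    intro z
    rw [hcC, div_mul_eq_mul_div, eq_div_iff hs20, hprop z]
    ring
  have hL : Lf α (fun z => s₁ z ^ 2) = c ^ 2 * Lf α (fun z => s₂ z ^ 2) := by
    have h2 : (fun z => s₁ z ^ 2) = fun z => ((c ^ 2 : ℝ) : ℂ) * s₂ z ^ 2 := by
      funext z
      rw [hlin z]
      push_cast
      ring
    rw [h2]
    exact Lf_const_mul (c ^ 2) (fun z => s₂ z ^ 2)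
  have hL2 : Lf α (fun z => s₂ z ^ 2) ≠ 0 := by
    intro h
    apply hJ2
    unfold J
    rw [h]
    ring
  have hc2 : c ^ 2 = 1 := by
    have h3 : Lf α (fun z => s₁ z ^ 2) = Lf α (fun z => s₂ z ^ 2) := by
      have := hJJ
      unfold J at this
      linarith
    rw [hL] at h3
    have h4 : (c ^ 2 - 1) * Lf α (fun z => s₂ z ^ 2) = 0 := by linarith
    rcases mul_eq_zero.1 h4 with h5 | h5
    · linarith
    · exact absurd h5 hL2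
  rcases sq_eq_one_iff.1 hc2 with h5 | h5
  · left
    intro z
    rw [hlin z, h5]
    simp
  · right
    intro z
    rw [hlin z, h5]
    simp

end Helper22.PA
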